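import Pool.Agent.Helper11_BSig.ClosedStmt
import Pool.Agent.Helper11_BSig.LemmaC
import Pool.Agent.Helper13_BSig.Claim1
import Pool.Agent.Helper14_BSig.RedBasics
import Pool.Agent.Helper14_BSig.UnbeatW
import Pool.Agent.Helper21_BSig.FreshReal
import Pool.Agent.Helper21_BSig.LemmaGen
import Pool.Agent.Helper29_BSig.BeatStmt
import Pool.Agent.Helper33_BSig.EnumStmt
import Pool.Agent.Helper33_BSig.KilStmt
import Pool.Agent.Helper3_BSig.FactW
import Pool.Agent.Helper60_BSig.TupCmp
import Pool.Agent.Helper65_BSig.FamFresh
import Pool.Agent.Helper6_BSig.DerBI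
import Pool.Agent.Helper70_BSig.LemmaDK
import Pool.Agent.Helper75_BSig.Rep
import Pool.Agent.Helper7_BSig.RedXor
import Pool.Agent.Helper81_BSig.CodeStmt
import Pool.Agent.Helper82_BSig.SchemeStmt
import Pool.Agent.Helper87_BSig.Card
import Pool.Agent.Helper87_BSig.Sigma
import Pool.Agent.Helper90_BSig.Claim2
import Pool.Agent.Helper90_BSig.RunStmt
import Pool.Agent.Helper92_BSig.DerJoin
import Pool.Agent.Helper9_BSig.FrcStmt
import Pool.Agent.Helper37_BSig.Final

/-!
# MP_b3d4e2_lc: negative answer for `n = 1`

There is a countably saturated `BΣ₁` model `M` (an initial segment of an ultrapower of `ℕ`) with a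
`Σ₁` cut `I` such that the degrees of subsets of `M` and the degrees above the degree of `I` are not
elementarily equivalent.
-/

namespace Pool.Agent.BSN.Case1

open Pool.Agent.BSig FirstOrder.Language

theorem repB : RepBasics := H75.repBasics_proof
theorem card : CardStmt := H87.cardStmt_proof
theorem kil : KilStmt := kilStmt_proof repB
theorem fresh : FreshReal := H21.freshReal_proof card
theorem famFresh : FamFresh := H65.famFresh_proof fresh repB kil
theorem rrInt : RRInt := H65.rrInt_proof repB
theorem lemC : LemmaC := lemmaC_proof Helper70.lemmaD_proof fresh rrInt kil repB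
theorem closed : ClosedStmt := closedStmt_proof repB
theorem run : RunStmt := runStmt_proof H60.tupCmp_proof
theorem frc : FrcStmt := frcStmt_proof repB kil
theorem omegaB : OmegaBasics := H13.omegaBasics_proof
theorem unbeat : UnbeatW :=
  H14.unbeatW_proof enumStmt_proof closed run lemC frc Helper70.lemmaK_proof famFresh
    codeStmt_proof repB kil omegaB
theorem beat : BeatStmt := beatStmt_proof unbeat H75.lemmaLim_proof kil
theorem derJ : DerJoin := H92.derJoin
theorem claim1 : Claim1 :=
  H13.claim1_proof derJ (H87.sigmaLemma_proof omegaB) codeStmt_proof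
theorem claim2 : Claim2 :=
  claim2_proof beat H21.lemmaGen_proof H87.cardDelta_proof card derJ (H6.derBI_proof derJ kil)
    H3.factW_proof H7.redXor_proof

/-- Some countably saturated `BΣ₁` model `M` (satisfying also `IΔ₀`) has a `Σ₁` cut `I` such that
the partial order of the degrees of subsets of `M` and the partial order of the degrees above
`deg I` are not elementarily equivalent in the language of orders. -/
theorem result : ∃ (M : Type) (_ : PAExp M), IsCountSat M 1 ∧ ISigma M 0 ∧
    ∃ I : Set M, IsSigmaCut 1 I ∧
      ¬ (ElementarilyEquivalent FirstOrder.Language.order (Deg M) (DegGE I)) :=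
  final_proof claim1 claim2 H14.redBasics_proof omegaB (H82.schemeStmt_proof omegaB)
    codeStmt_proof

end Pool.Agent.BSN.Case1
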