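import Pool.Agent.Helper4_BSN.Sg
import Pool.Agent.Helper26_BSN.RedB

/-!
# CL2: the second clause of the sentence in the whole order
-/

namespace Pool.Agent.BSN.H26

open Filter Cardinal Pool.Agent.BSig Pool.Agent.BSN

variable {τ : Tower}

/-- `p` and `q` contain the positive and the negative part of `F`. -/
def Enc (F p q : MMt τ) : Prop :=
  ∀ z, z ≤ F → (Mem (2 * z + 1) F → Mem z p) ∧ (Mem (2 * z) F → Mem z q)

theorem tr_of_enc {B : Set (MMt τ)} {F p q : MMt τ} (h : Enc F p q) (hp : decode p ⊆ B)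
    (hq : decode q ⊆ Bᶜ) : Tr B F := by
  intro z
  constructor
  · intro hz
    exact hp ((h z ((H4.le_two_mul_add z).trans (mem_lt hz).le)).1 hz)
  · intro hz
    exact hq ((h z ((H4.le_two_mul z).trans (mem_lt hz).le)).2 hz)

theorem enc_of_tr {B : Set (MMt τ)} {F : MMt τ} (h : Tr B F) :
    ∃ p q : MMt τ, Enc F p q ∧ decode p ⊆ B ∧ decode q ⊆ Bᶜ := by
  have h1 : Int1 (fun z : MMt τ => Mem (2 * z + 1) F) := Int1.of_delta0
    (IsDelta0.mem ((IsTerm.var 0).twomul.addc 1) (IsTerm.param F))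
  have h0 : Int1 (fun z : MMt τ => Mem (2 * z) F) := Int1.of_delta0
    (IsDelta0.mem (IsTerm.var 0).twomul (IsTerm.param F))
  obtain ⟨p, -, hp⟩ := h1.code (F + 1)
  obtain ⟨q, -, hq⟩ := h0.code (F + 1)
  have hlt : ∀ z : MMt τ, z ≤ F → z < F + 1 := fun z hz =>
    (PAExp.discrete _ _).2 (PAExp.add_le_add' _ _ 1 hz)
  refine ⟨p, q, fun z hz => ⟨fun h => (hp z).2 ⟨hlt z hz, h⟩, fun h => (hq z).2 ⟨hlt z hz, h⟩⟩,
    fun x hx => (h x).1 ((hp x).1 hx).2, fun x hx => (h x).2 ((hq x).1 hx).2⟩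

theorem enc_delta {n : ℕ} {F p q : (Fin n → MMt τ) → MMt τ} (hF : IsTerm F) (hp : IsTerm p)
    (hq : IsTerm q) : IsDelta0 (fun v => Enc (F v) (p v) (q v)) := by
  refine IsDelta0.all hF ?_
  exact ((IsDelta0.mem ((IsTerm.var 0).twomul.addc 1) hF.tail).imp
    (IsDelta0.mem (IsTerm.var 0) hp.tail)).and
    ((IsDelta0.mem (IsTerm.var 0).twomul hF.tail).imp (IsDelta0.mem (IsTerm.var 0) hq.tail))

theorem sub3 {n : ℕ} {ψ : (Fin 3 → MMt τ) → Prop} (hψ : IsDelta0 ψ)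
    {a b c : (Fin n → MMt τ) → MMt τ} (ha : IsTerm a) (hb : IsTerm b) (hc : IsTerm c) :
    IsDelta0 (fun v => ψ ![a v, b v, c v]) := by
  refine (hψ.subst (F := ![a, b, c]) ?_).congr fun v => ?_
  · intro i; fin_cases i
    · exact ha
    · exact hb
    · exact hc
  · have : (![a v, b v, c v] : Fin 3 → MMt τ) =
        fun i => (![a, b, c] : Fin 3 → (Fin n → MMt τ) → MMt τ) i v := by
      funext i; fin_cases i <;> rfl
    rw [this]

theorem cl2 (h1 : CoiStmt τ) (h2 : PosStmt τ) : Claim2D τ := by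
  intro B X Y hX hY hXY hBL
  by_contra hcon
  push Not at hcon
  obtain ⟨nX, nY, nB⟩ := hcon
  obtain ⟨-, -, -, -, hjoin⟩ := H14.redBasics_proof (τ := τ)
  obtain ⟨ψ1, d1, e1⟩ := h2 B X Y (hjoin _ _ _ hX hY) hXY nX nY
  obtain ⟨ψ2, d2, e2⟩ := h1 B hBL
  apply nB
  let Φ : (Fin 4 → MMt τ) → Prop := fun v =>
    (v 1 = 1 ∧ ∃ n w F, (∀ x, x ≤ v 0 → Mem x (v 0) → x ≤ n) ∧ ψ1 ![w, n, F] ∧
      Enc F (v 2) (v 3)) ∨
    (v 1 = 0 ∧ ((∀ x, x ≤ v 0 → ¬ Mem x (v 0)) ∨ ∃ y w F, (∀ x, x ≤ v 0 → Mem x (v 0) → y ≤ x) ∧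
      ψ2 ![w, y, F] ∧ Enc F (v 2) (v 3)))
  have hΦ : IsSigma 1 Φ := by
    apply Sig1.isSigma
    refine Sig1.or (Sig1.and (Sig1.of_delta0 (IsDelta0.eq (IsTerm.var 1) (IsTerm.param 1))) ?_)
      (Sig1.and (Sig1.of_delta0 (IsDelta0.eq (IsTerm.var 1) (IsTerm.param 0))) (Sig1.or ?_ ?_))
    · refine Sig1.ex (Sig1.ex (Sig1.ex (Sig1.of_delta0 ?_)))
      -- 0 = F, 1 = w, 2 = n, 3 = v 0, 5 = v 2, 6 = v 3
      refine IsDelta0.and ?_ (IsDelta0.and ?_ ?_)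
      · refine IsDelta0.all (IsTerm.var 3) ?_
        exact (IsDelta0.mem (IsTerm.var 0) (IsTerm.var 4)).imp
          (IsDelta0.le (IsTerm.var 0) (IsTerm.var 3))
      · exact sub3 d1 (IsTerm.var 1) (IsTerm.var 2) (IsTerm.var 0)
      · exact enc_delta (IsTerm.var 0) (IsTerm.var 5) (IsTerm.var 6)
    · apply Sig1.of_delta0
      refine IsDelta0.all (IsTerm.var 0) ?_
      exact (IsDelta0.mem (IsTerm.var 0) (IsTerm.var 1)).not
    · refine Sig1.ex (Sig1.ex (Sig1.ex (Sig1.of_delta0 ?_)))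
      refine IsDelta0.and ?_ (IsDelta0.and ?_ ?_)
      · refine IsDelta0.all (IsTerm.var 3) ?_
        exact (IsDelta0.mem (IsTerm.var 0) (IsTerm.var 4)).imp
          (IsDelta0.le (IsTerm.var 3) (IsTerm.var 0))
      · exact sub3 d2 (IsTerm.var 1) (IsTerm.var 2) (IsTerm.var 0)
      · exact enc_delta (IsTerm.var 0) (IsTerm.var 5) (IsTerm.var 6)
  refine ⟨Φ, hΦ, fun K i hi => ?_⟩
  have hdown : ∀ x y : MMt τ, x ≤ y → y ∈ omega (MMt τ) → x ∈ omega (MMt τ) := by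
    intro x y hxy hy
    by_contra hx
    exact H4.not_omega_of_infl (H4.infl_mono (H4.infl_of_not_omega hx) hxy) hy
  have h0 : (0 : MMt τ) ∈ omega (MMt τ) := ⟨0, Nat.cast_zero⟩
  constructor
  · intro hK
    rcases hi with rfl | rfl
    · -- i = 0
      by_cases hne : ∃ x, Mem x K
      · obtain ⟨k, hk1, hk2⟩ := H4.exists_min K hne
        have hk : Infl k := by
          apply H4.infl_of_not_omega
          rcases hK hk2 with ⟨h, _⟩ | ⟨_, h⟩
          · exact absurd h H4.zero_ne_one_MM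
          · exact h
        obtain ⟨y, w, F, hy, hw, hF⟩ := (e2 k).1 hk
        obtain ⟨p, q, hE, hp, hq⟩ := enc_of_tr hF
        exact ⟨p, q, Or.inr ⟨rfl, Or.inr ⟨y, w, F, fun x _ hx => hy.trans (hk1 x hx), hw, hE⟩⟩,
          hp, hq⟩
      · push Not at hne
        exact ⟨0, 0, Or.inr ⟨rfl, Or.inl fun x _ => hne x⟩,
          fun x hx => absurd hx (H4.not_mem_zero x), fun x hx => absurd hx (H4.not_mem_zero x)⟩
    · -- i = 1
      obtain ⟨n, hn1, hn2⟩ := H4.exists_max K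
      have hn : n ∈ omega (MMt τ) := by
        rcases hn2 with rfl | hn2
        · exact h0
        · rcases hK hn2 with ⟨_, h⟩ | ⟨h, _⟩
          · exact h
          · exact absurd h.symm H4.zero_ne_one_MM
      obtain ⟨w, F, hw, hF⟩ := (e1 n).1 hn
      obtain ⟨p, q, hE, hp, hq⟩ := enc_of_tr hF
      exact ⟨p, q, Or.inl ⟨rfl, n, w, F, fun x _ hx => hn1 x hx, hw, hE⟩, hp, hq⟩
  · rintro ⟨p, q, h, hp, hq⟩
    rcases h with ⟨hi1, n, w, F, hn, hw, hE⟩ | ⟨hi0, h⟩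
    · have hi1' : i = 1 := hi1
      subst hi1'
      have hno := (e1 n).2 ⟨w, F, hw, tr_of_enc hE hp hq⟩
      intro x hx
      exact Or.inl ⟨rfl, hdown x n (hn x (mem_lt hx).le hx) hno⟩
    · have hi0' : i = 0 := hi0
      subst hi0'
      intro x hx
      rcases h with h | ⟨y, w, F, hy, hw, hE⟩
      · exact absurd hx (h x (mem_lt hx).le)
      · have hinf := (e2 x).2 ⟨y, w, F, hy x (mem_lt hx).le hx, hw, tr_of_enc hE hp hq⟩
        exact Or.inr ⟨rfl, H4.not_omega_of_infl hinf⟩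

end Pool.Agent.BSN.H26
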