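import Pool.Agent.Helper26_BSN.Stmts

/-!
# BSIG module Claim2 τ: the cone
-/

namespace Pool.Agent.BSN

open Filter Cardinal Pool.Agent.BSig Pool.Agent.BSN

variable {τ : Tower}

theorem ult_exists_lt {k : ℕ} {P : ℕ → ℕ → Prop}
    (h : ∀ᶠ n in (UU : Filter ℕ), ∃ i < k, P i n) :
    ∃ i < k, ∀ᶠ n in (UU : Filter ℕ), P i n := by
  by_contra hc'
  have h4 : ∀ᶠ n in (UU : Filter ℕ), ∀ i ∈ Finset.range k, ¬ P i n := by
    rw [Filter.eventually_all_finset]
    intro i hi
    refine not_eventually'.1 fun h6 => ?_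
    exact hc' ⟨i, Finset.mem_range.1 hi, h6⟩
  obtain ⟨n, ⟨i, hi, h5⟩, h6⟩ := (h.and h4).exists
  exact h6 i (Finset.mem_range.2 hi) h5

/-- Infinite `M`-finite sets have size continuum. -/
theorem continuum_le_decode (hC : CardStmt τ) {K : (MMt τ)} (hK : (decode K).Infinite) :
    continuum ≤ #(decode K) := by
  classical
  obtain ⟨g, hg, rfl⟩ := exists_mk K
  let p : ℕ → ℕ → Prop := fun n x => (g n).testBit x = true
  have hfin : ∀ n, (Set.ofPred (p n)).Finite := fun n =>
    (Set.finite_Iio (g n)).subset fun x hx => by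
      have h1 : 2 ^ x ≤ g n := testBit_lt hx
      have h2 : x < 2 ^ x := Nat.lt_two_pow_self
      exact lt_of_lt_of_le h2 h1
  let c : ℕ → ℕ := fun n => (hfin n).toFinset.card
  have hcg : ∀ n, c n ≤ g n := by
    intro n
    have h1 : (hfin n).toFinset ⊆ Finset.range (g n) := by
      intro x hx
      have hx' : p n x := (Set.Finite.mem_toFinset (hfin n)).1 hx
      have h1 : 2 ^ x ≤ g n := testBit_lt hx'
      have h2 : x < 2 ^ x := Nat.lt_two_pow_self
      exact Finset.mem_range.2 (lt_of_lt_of_le h2 h1)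
    simpa using Finset.card_le_card h1
  have hcb : (Bddt τ) c := bdd_of_le hg (Eventually.of_forall hcg)
  have hinf : Infl (mk c hcb) := by
    by_contra hc
    obtain ⟨k, hk⟩ := not_infl_iff.1 hc
    rw [natCast_mk, mk_eq] at hk
    apply hK
    let e : ℕ → (MMt τ) := fun i =>
      if h : (Bddt τ) (fun n => Nat.nth (p n) i) then mk (fun n => Nat.nth (p n) i) h else 0
    refine ((Finset.range k).image e).finite_toSet.subset ?_
    intro x hx
    obtain ⟨f, hf, rfl⟩ := exists_mk x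
    have hx' : ∀ᶠ n in (UU : Filter ℕ), (g n).testBit (f n) = true := mem_mk.1 hx
    have h1 : ∀ᶠ n in (UU : Filter ℕ), ∃ i < k, Nat.nth (p n) i = f n := by
      filter_upwards [hx', hk] with n h2 h3
      obtain ⟨i, hi, h4⟩ := Nat.exists_lt_card_finite_nth_eq (p := p n) (hfin n) h2
      exact ⟨i, by rw [← h3]; exact hi, h4⟩
    obtain ⟨i, hi, h2⟩ := ult_exists_lt h1
    rw [Finset.mem_coe, Finset.mem_image]
    refine ⟨i, Finset.mem_range.2 hi, ?_⟩
    have hb : (Bddt τ) (fun n => Nat.nth (p n) i) :=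
      bdd_of_le hf (h2.mono fun n h => h.le)
    simp only [e, dif_pos hb]
    rw [mk_eq]
    exact h2
  rw [← hC.2 _ hinf]
  -- the enumeration
  have hmem : ∀ (f : ℕ → ℕ), (∀ᶠ n in (UU : Filter ℕ), f n < c n) →
      ∀ᶠ n in (UU : Filter ℕ), p n (Nat.nth (p n) (f n)) := by
    intro f hf
    filter_upwards [hf] with n hn
    exact Nat.nth_mem_of_lt_card (hfin n) hn
  have hbdd : ∀ (f : ℕ → ℕ), (∀ᶠ n in (UU : Filter ℕ), f n < c n) →
      (Bddt τ) (fun n => Nat.nth (p n) (f n)) := by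
    intro f hf
    refine bdd_of_le hg ?_
    filter_upwards [hmem f hf] with n hn
    have h1 : 2 ^ (Nat.nth (p n) (f n)) ≤ g n := testBit_lt hn
    have h2 : Nat.nth (p n) (f n) < 2 ^ (Nat.nth (p n) (f n)) := Nat.lt_two_pow_self
    exact (lt_of_lt_of_le h2 h1).le
  have hlt : ∀ x : {x : (MMt τ) | x < mk c hcb}, ∀ᶠ n in (UU : Filter ℕ), rep x.1 n < c n := by
    intro x
    have h1 : x.1 < mk c hcb := x.2
    rw [← mk_rep x.1, mk_lt] at h1
    filter_upwards [h1, rep_mk (rep x.1) (bdd_rep x.1)] with n h2 h3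
    exact h2
  refine Cardinal.mk_le_of_injective
    (f := fun x : {x : (MMt τ) | x < mk c hcb} =>
      (⟨mk _ (hbdd (rep x.1) (hlt x)), mem_mk.2 (hmem _ (hlt x))⟩ :
        decode (mk g hg))) ?_
  intro x y hxy
  have h1 := congrArg Subtype.val hxy
  simp only at h1
  rw [mk_eq] at h1
  apply Subtype.ext
  rw [← mk_rep x.1, ← mk_rep y.1, mk_eq]
  filter_upwards [h1, hlt x, hlt y] with n h2 h3 h4
  exact Nat.nth_injOn (hfin n) h3 h4 h2

theorem card_ext {c : Set ((MMt τ) × Bool)} (hcard : #c < continuum) {K : (MMt τ)} (hC : CardStmt τ)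
    (hK : (decode K).Infinite) :
    ∃ x ∈ decode K, ∃ x' ∈ decode K, x ≠ x' ∧ (∀ b, (x, b) ∉ c) ∧ ∀ b, (x', b) ∉ c := by
  have h1 := continuum_le_decode hC hK
  let Y : Set (MMt τ) := Prod.fst '' c
  have hY : #Y < continuum := mk_image_le.trans_lt hcard
  have h2 : (decode K \ Y).Infinite := by
    intro hf
    have h3 : decode K ⊆ Y ∪ (decode K \ Y) := by
      intro x hx
      by_cases h : x ∈ Y
      · exact Or.inl h
      · exact Or.inr ⟨hx, h⟩
    have h4 : #(decode K) ≤ #Y + #(decode K \ Y : Set (MMt τ)) :=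
      (mk_le_mk_of_subset h3).trans (mk_union_le _ _)
    have h5 : #(decode K \ Y : Set (MMt τ)) < ℵ₀ := by
      rw [lt_aleph0_iff_set_finite]; exact hf
    have h6 : #Y + #(decode K \ Y : Set (MMt τ)) < continuum :=
      add_lt_of_lt aleph0_le_continuum hY (h5.trans_le aleph0_le_continuum)
    exact absurd (h1.trans h4) (not_le.2 h6)
  obtain ⟨x, hx⟩ := h2.nonempty
  obtain ⟨x', hx'⟩ := (h2.sdiff (Set.finite_singleton x)).nonempty
  refine ⟨x, hx.1, x', hx'.1.1, fun h => hx'.2 h.symm, fun b hb => hx.2 ⟨_, hb, rfl⟩,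
    fun b hb => hx'.1.2 ⟨_, hb, rfl⟩⟩

theorem consis_insert2 {c : Set ((MMt τ) × Bool)} (hc : Consis c) {x x' : (MMt τ)} (hne : x ≠ x')
    (hx : ∀ b, (x, b) ∉ c) (hx' : ∀ b, (x', b) ∉ c) (b b' : Bool) :
    Consis (c ∪ {(x, b), (x', b')}) := by
  rintro ⟨y, e, h1, h2⟩
  have hnb : ∀ b : Bool, (!b) ≠ b := by decide
  rcases h1 with h1 | h1
  · rcases h2 with h2 | h2
    · exact hc ⟨y, e, h1, h2⟩
    · rcases h2 with h2 | h2
      · have := congrArg Prod.fst h2; simp only at this; subst this; exact hx _ h1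
      · have := congrArg Prod.fst h2; simp only at this; subst this; exact hx' _ h1
  · rcases h1 with h1 | h1
    · have e1 := congrArg Prod.fst h1; simp only at e1; subst e1
      rcases h2 with h2 | h2
      · exact hx _ h2
      · rcases h2 with h2 | h2
        · have a := congrArg Prod.snd h1; have b' := congrArg Prod.snd h2
          simp only at a b'; exact hnb e (b'.trans a.symm)
        · exact hne (congrArg Prod.fst h2)
    · have e1 := congrArg Prod.fst h1; simp only at e1; subst e1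
      rcases h2 with h2 | h2
      · exact hx' _ h2
      · rcases h2 with h2 | h2
        · exact hne (congrArg Prod.fst h2).symm
        · have a := congrArg Prod.snd h1; have b' := congrArg Prod.snd h2
          simp only at a b'; exact hnb e (b'.trans a.symm)

theorem consis_gr (G : Set (MMt τ)) : Consis (gr G) := by
  rintro ⟨x, b, h1, h2⟩
  simp only [gr, Set.mem_ofPred_eq] at h1 h2
  cases b <;> simp_all

open Classical in
/-- The flip. -/
noncomputable def flp (T : Set (MMt τ)) (p : (MMt τ) × Bool) : (MMt τ) × Bool := (p.1, xor p.2 (decide (p.1 ∈ T)))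

theorem flp_flp (T : Set (MMt τ)) (p : (MMt τ) × Bool) : flp T (flp T p) = p := by
  unfold flp
  ext
  · rfl
  · simp

theorem flp_not (T : Set (MMt τ)) (x : (MMt τ)) (b : Bool) : flp T (x, !b) = (x, !(flp T (x, b)).2) := by
  unfold flp
  ext
  · rfl
  · simp

theorem flp_image_image (T : Set (MMt τ)) (c : Set ((MMt τ) × Bool)) : flp T '' (flp T '' c) = c := by
  rw [Set.image_image]; simp [flp_flp]

theorem consis_flp {T : Set (MMt τ)} {c : Set ((MMt τ) × Bool)} (hc : Consis c) : Consis (flp T '' c) := by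
  rintro ⟨x, b, ⟨p, hp, h1⟩, ⟨q, hq, h2⟩⟩
  apply hc
  refine ⟨x, (flp T (x, b)).2, ?_, ?_⟩
  · have : p = (x, (flp T (x, b)).2) := by
      rw [← flp_flp T p, h1]; rfl
    rw [← this]; exact hp
  · have : q = (x, !(flp T (x, b)).2) := by
      rw [← flp_flp T q, h2, flp_not]
    rw [← this]; exact hq

theorem flp_gr (T G H : Set (MMt τ)) (h : ∀ t, t ∈ H ↔ ¬ (t ∈ G ↔ t ∈ T)) :
    flp T '' gr G = gr H := by
  classical
  have key : ∀ x b, flp T (x, b) ∈ gr G ↔ (x, b) ∈ gr H := by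
    intro x b
    change (xor b (decide (x ∈ T)) = true ↔ x ∈ G) ↔ (b = true ↔ x ∈ H)
    rw [h x]
    by_cases h1 : x ∈ T <;> by_cases h2 : x ∈ G <;> cases b <;> simp [h1, h2]
  ext ⟨x, b⟩
  constructor
  · rintro ⟨⟨y, e⟩, hy, h⟩
    rw [← h, ← Prod.mk.eta (p := flp T (y, e)), ← key, Prod.mk.eta, flp_flp]
    exact hy
  · intro h
    exact ⟨flp T (x, b), (key x b).2 h, flp_flp _ _⟩

theorem claim2_proof (hB : BeatStmt τ) (hG : LemmaGen) (hCD : CardDelta τ) (hC : CardStmt τ)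
    (hDJ : DerJoin τ) (hDB : DerBI τ) (hFW : FactW τ) (hRX : RedXor τ) : Claim2 τ := by
  classical
  intro A hA
  set T : Set (MMt τ) := {t | Fact A t} with hTdef
  have hT : ¬ InW T := fun h => hA (hFW A h)
  let R : Type := ({φ : (Fin 5 → (MMt τ)) → Prop // IsDelta0 φ} × Bool) ⊕ ((MMt τ) × Bool)
  have hcR : #R ≤ continuum := by
    have h1 : #R = #{φ : (Fin 5 → (MMt τ)) → Prop // IsDelta0 φ} * 2 + #(MMt τ) * 2 := by
      simp [R]
    rw [h1, hC.1]
    have h2 : #{φ : (Fin 5 → (MMt τ)) → Prop // IsDelta0 φ} * 2 ≤ continuum := by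
      calc #{φ : (Fin 5 → (MMt τ)) → Prop // IsDelta0 φ} * 2 ≤ continuum * continuum :=
            mul_le_mul' hCD (nat_lt_continuum 2).le
        _ = continuum := continuum_mul_self
    have h3 : (continuum : Cardinal.{0}) * 2 ≤ continuum := by
      calc (continuum : Cardinal.{0}) * 2 ≤ continuum * continuum :=
            mul_le_mul' le_rfl (nat_lt_continuum 2).le
        _ = continuum := continuum_mul_self
    calc _ ≤ (continuum : Cardinal.{0}) + continuum := add_le_add h2 h3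
      _ = continuum := continuum_add_self
  -- requirement on `c`
  let S : Set (Set ((MMt τ) × Bool)) → Bool → Set (Set ((MMt τ) × Bool)) := fun Q b =>
    match b with
    | false => Q
    | true => {c | flp T '' c ∈ Q}
  let Q1 : ((Fin 5 → (MMt τ)) → Prop) → Set (Set ((MMt τ) × Bool)) := fun φ =>
    {c | ∀ c'' : Set ((MMt τ) × Bool), c ⊆ c'' → Consis c'' →
      T ≠ {t | ∃ l, ∃ F ∈ Fam φ l t, (F : Set ((MMt τ) × Bool)) ⊆ c''}}
  let Q2 : (MMt τ) → Set (Set ((MMt τ) × Bool)) := fun K =>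
    {c | (decode K).Infinite → ∃ x ∈ decode K, ∃ x' ∈ decode K, (x, true) ∈ c ∧ (x', false) ∈ c}
  let O : R → Set (Set ((MMt τ) × Bool)) := fun r =>
    match r with
    | Sum.inl (φ, b) => S (Q1 φ.1) b
    | Sum.inr (K, b) => S (Q2 K) b
  have hmonoS : ∀ Q : Set (Set ((MMt τ) × Bool)), (∀ c c', c ∈ Q → c ⊆ c' → c' ∈ Q) →
      ∀ b, ∀ c c', c ∈ S Q b → c ⊆ c' → c' ∈ S Q b := by
    intro Q hQ b c c' hc hcc
    cases b with
    | false => exact hQ c c' hc hcc
    | true => exact hQ _ _ hc (Set.image_mono hcc)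
  have hQ1 : ∀ φ, ∀ c c', c ∈ Q1 φ → c ⊆ c' → c' ∈ Q1 φ := by
    intro φ c c' hc hcc c'' h1 h2
    exact hc c'' (hcc.trans h1) h2
  have hQ2 : ∀ K, ∀ c c', c ∈ Q2 K → c ⊆ c' → c' ∈ Q2 K := by
    intro K c c' hc hcc hinf
    obtain ⟨x, hx, x', hx', h1, h2⟩ := hc hinf
    exact ⟨x, hx, x', hx', hcc h1, hcc h2⟩
  have hmono : ∀ r, ∀ c c', c ∈ O r → c ⊆ c' → c' ∈ O r := by
    rintro (⟨φ, b⟩ | ⟨K, b⟩)
    · exact hmonoS _ (hQ1 _) b
    · exact hmonoS _ (hQ2 _) b
  have hdenS : ∀ Q : Set (Set ((MMt τ) × Bool)),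
      (∀ c : Set ((MMt τ) × Bool), Consis c → #c < continuum →
        ∃ c', c ⊆ c' ∧ Consis c' ∧ (c' \ c).Countable ∧ c' ∈ Q) →
      ∀ b, ∀ c : Set ((MMt τ) × Bool), Consis c → #c < continuum →
        ∃ c', c ⊆ c' ∧ Consis c' ∧ (c' \ c).Countable ∧ c' ∈ S Q b := by
    intro Q hQ b c hc hcard
    cases b with
    | false => exact hQ c hc hcard
    | true =>
      obtain ⟨c1, h1, h2, h3, h4⟩ := hQ (flp T '' c) (consis_flp hc) (mk_image_le.trans_lt hcard)
      refine ⟨flp T '' c1, ?_, consis_flp h2, ?_, ?_⟩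
      · rw [← flp_image_image T c]; exact Set.image_mono h1
      · have : flp T '' c1 \ c ⊆ flp T '' (c1 \ flp T '' c) := by
          rintro _ ⟨⟨p, hp, rfl⟩, hn⟩
          refine ⟨p, ⟨hp, ?_⟩, rfl⟩
          rintro ⟨q, hq, rfl⟩
          rw [flp_flp] at hn
          exact hn hq
        exact (h3.image _).mono this
      · change flp T '' (flp T '' c1) ∈ Q
        rw [flp_image_image]; exact h4
  have hden : ∀ (r : R) (c : Set ((MMt τ) × Bool)), Consis c → #c < continuum →
      ∃ c', c ⊆ c' ∧ Consis c' ∧ (c' \ c).Countable ∧ c' ∈ O r := by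
    rintro (⟨φ, b⟩ | ⟨K, b⟩)
    · refine hdenS _ ?_ b
      intro c hc hcard
      exact hB φ.1 φ.2 A hT c hc hcard
    · refine hdenS _ ?_ b
      intro c hc hcard
      by_cases hinf : (decode K).Infinite
      · obtain ⟨x, hx, x', hx', hne, h1, h2⟩ := card_ext hcard hC hinf
        refine ⟨c ∪ {(x, true), (x', false)}, Set.subset_union_left,
          consis_insert2 hc hne h1 h2 _ _, ?_, fun _ => ⟨x, hx, x', hx', ?_, ?_⟩⟩
        · refine Set.Countable.mono (s₂ := {(x, true), (x', false)}) ?_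
            (Set.toFinite _).countable
          rintro p ⟨hp | hp, hn⟩
          · exact absurd hp hn
          · exact hp
        · exact Or.inr (Or.inl rfl)
        · exact Or.inr (Or.inr rfl)
      · exact ⟨c, subset_rfl, hc, by simp, fun h => absurd h hinf⟩
  obtain ⟨G, hGr⟩ := hG (MMt τ) R hC.1 hcR O hmono hden
  let H : Set (MMt τ) := {t | ¬ (t ∈ G ↔ Fact A t)}
  have hHdef : ∀ t, t ∈ H ↔ ¬ (t ∈ G ↔ Fact A t) := fun t => Iff.rfl
  have hgrH : flp T '' (gr G) = gr H := flp_gr T G H fun t => Iff.rfl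
  have hBIgen : ∀ G' : Set (MMt τ), (∀ K : (MMt τ), gr G' ∈ Q2 K) → BI G' := by
    intro G' h K hK
    by_contra hinf
    obtain ⟨x, hx, x', hx', h1, h2⟩ := h K hinf
    have h1' : x ∈ G' := h1.1 rfl
    have h2' : x' ∉ G' := fun h => by
      have := h2.2 h
      simp at this
    rcases hK with hK | hK
    · exact h2' (hK hx')
    · exact hK hx h1'
  have hBIG : BI G := hBIgen G fun K => hGr (Sum.inr (K, false))
  have hBIH : BI H := hBIgen H fun K => by
    have := hGr (Sum.inr (K, true))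
    change flp T '' (gr G) ∈ Q2 K at this
    rw [hgrH] at this
    exact this
  obtain ⟨hX1, hX2⟩ := hRX A G H hHdef
  refine ⟨G, H, ?_, ?_, hX1 hBIH, hX2⟩
  · intro hred
    obtain ⟨φ, hφ⟩ := hDJ.1 A G hred
    have h1 := hDB φ A G hφ hBIG
    have h2 : gr G ∈ Q1 φ := hGr (Sum.inl (⟨φ, hφ.1⟩, false))
    exact h2 (gr G) subset_rfl (consis_gr G) h1
  · intro hred
    obtain ⟨φ, hφ⟩ := hDJ.1 A H hred
    have h1 := hDB φ A H hφ hBIH
    have h2 := hGr (Sum.inl (⟨φ, hφ.1⟩, true))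
    change flp T '' (gr G) ∈ Q1 φ at h2
    rw [hgrH] at h2
    exact h2 (gr H) subset_rfl (consis_gr H) h1

end Pool.Agent.BSN
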