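import Pool.Agent.Helper26_BSN.Stmts

/-!
# BSIG: CodeStmt τ, coding of sequences
-/

namespace Pool.Agent.BSN

open Filter Pool.Agent.BSig Pool.Agent.BSN

variable {τ : Tower}

namespace H81

theorem code_bounded (x : ℕ → (MMt τ)) (b : (MMt τ)) (hx : ∀ i, x i ≤ b) :
    ∃ E : (MMt τ), ∀ (i : ℕ) (z : (MMt τ)), Mem (pr (i : (MMt τ)) z) E ↔ z = x i := by
  have hid : (Bddt τ) (fun n => n) :=
    ⟨0, Eventually.of_forall fun n => by rw [τ.tow_zero]; exact Nat.lt_add_of_pos_right (by omega)⟩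
  let B : ℕ → ℕ := fun n => (n + rep b n) * (n + rep b n) + n + 1
  have hB : (Bddt τ) B := bdd_add (bdd_add (bdd_mul (bdd_add hid (bdd_rep b)) (bdd_add hid (bdd_rep b)))
    hid) (bdd_const 1)
  let g : ℕ → ℕ := fun n => ncode (B n)
    (fun t => ∃ i < n, t = (i + rep (x i) n) * (i + rep (x i) n) + i)
  have hg : (Bddt τ) g := bdd_of_le (bdd_pow2 hB) (Eventually.of_forall fun n => (ncode_lt _ _).le)
  refine ⟨mk g hg, fun i z => ?_⟩
  obtain ⟨e, he, rfl⟩ := exists_mk z
  rw [natCast_mk, pr_mk, mem_mk]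
  have hxi : ∀ᶠ n in (UU : Filter ℕ), rep (x i) n ≤ rep b n := by
    have h1 := hx i
    rw [← mk_rep (x i), ← mk_rep b, mk_le] at h1
    exact h1
  have h2 : mk e he = x i ↔ ∀ᶠ n in (UU : Filter ℕ), e n = rep (x i) n := by
    rw [← mk_eq (hf := he) (hg := bdd_rep (x i)), mk_rep]
  rw [h2]
  constructor
  · intro h
    filter_upwards [h] with n hn
    rw [testBit_ncode] at hn
    obtain ⟨_, i', _, h4⟩ := hn
    obtain ⟨h5, h6⟩ := nat_pr_inj h4
    subst h5
    exact h6
  · intro h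
    filter_upwards [h, hxi, eventually_ge (i + 1)] with n h3 h4 h5
    rw [testBit_ncode]
    refine ⟨?_, i, by omega, by rw [h3]⟩
    have h6 : i + e n ≤ n + rep b n := by omega
    have h7 : (i + e n) * (i + e n) ≤ (n + rep b n) * (n + rep b n) := Nat.mul_le_mul h6 h6
    simp only [B]
    omega

end H81

theorem codeStmt_proof : CodeStmt τ := by
  refine ⟨?_, ?_, H81.code_bounded⟩
  · intro X
    have hid : (Bddt τ) (fun n => n) :=
    ⟨0, Eventually.of_forall fun n => by rw [τ.tow_zero]; exact Nat.lt_add_of_pos_right (by omega)⟩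
    let g : ℕ → ℕ := fun n => ncode n (fun t => t ∈ X)
    have hg : (Bddt τ) g := bdd_of_le (bdd_pow2 hid) (Eventually.of_forall fun n => (ncode_lt _ _).le)
    refine ⟨mk g hg, fun m => ?_⟩
    rw [natCast_mk, mem_mk]
    constructor
    · intro h
      obtain ⟨n, hn⟩ := h.exists
      rw [testBit_ncode] at hn
      exact hn.2
    · intro h
      filter_upwards [eventually_ge (m + 1)] with n hn
      rw [testBit_ncode]
      exact ⟨by omega, h⟩
  · intro d
    exact H81.code_bounded (fun i => (d i : (MMt τ))) ((aat τ) 0) (fun i => (infl_aa 0 (d i)).le)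

end Pool.Agent.BSN
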