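import Pool.Agent.Helper26_BSN.Stmts

/-!
# The towers: definitions

The standard model `ℕ`, expressions and their evaluation, certificates, the universal `Σ_j` relations
`TT j`, the dominating functions `GG j`, the towers `towj j`.
-/

namespace Pool.Agent.BSN

open Filter Cardinal Pool.Agent.BSig

/-- The standard model. -/
noncomputable instance natPAExp : PAExp ℕ :=
  { (inferInstance : CommSemiring ℕ), (inferInstance : LinearOrder ℕ) with
    zero_le' := Nat.zero_le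
    discrete := fun _ _ => Nat.lt_iff_add_one_le
    add_le_add' := fun _ _ z h => Nat.add_le_add_right h z
    mul_le_mul' := fun _ _ z h => Nat.mul_le_mul_right z h
    add_cancel' := fun _ _ _ h => Nat.add_right_cancel h
    mul_pos' := fun _ _ hx hy => Nat.mul_pos hx hy
    exists_add := fun x y h => ⟨y - x, Nat.add_sub_cancel' h⟩
    zero_ne_one' := Nat.zero_ne_one
    pow2 := fun x => 2 ^ x
    pow2_zero := rfl
    pow2_succ := fun x => by rw [pow_succ, Nat.mul_comm] }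

/-- Left component of a pair (`npr a b = (a + b)^2 + a`). -/
def lf (x : ℕ) : ℕ := x - Nat.sqrt x * Nat.sqrt x

/-- Right component of a pair. -/
def rt (x : ℕ) : ℕ := Nat.sqrt x - lf x

/-- Evaluation of a path (the last letter is applied first). -/
def evp : List Bool → ℕ → ℕ
  | [], x => x
  | b :: l, x => (if b then rt else lf) (evp l x)

/-- Expressions in one variable (the environment). -/
inductive Ex : Type
  | self
  | left (a : Ex)
  | right (a : Ex)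
  | const (c : ℕ)
  | add (a b : Ex)
  | mul (a b : Ex)
  | pow (a : Ex)
  | eq (a b : Ex)
  | le (a b : Ex)
  | not (a : Ex)
  | and (a b : Ex)
  | ball (a b : Ex)

open Classical in
/-- Values of expressions; the truth values are `1` (true) and `0` (false). -/
noncomputable def Ex.val : Ex → ℕ → ℕ
  | .self, x => x
  | .left a, x => lf (a.val x)
  | .right a, x => rt (a.val x)
  | .const c, _ => c
  | .add a b, x => a.val x + b.val x
  | .mul a b, x => a.val x * b.val x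
  | .pow a, x => 2 ^ a.val x
  | .eq a b, x => if a.val x = b.val x then 1 else 0
  | .le a b, x => if a.val x ≤ b.val x then 1 else 0
  | .not a, x => if a.val x = 0 then 1 else 0
  | .and a b, x => if a.val x ≠ 0 ∧ b.val x ≠ 0 then 1 else 0
  | .ball a b, x => if ∀ z ≤ a.val x, b.val (npr z x) ≠ 0 then 1 else 0

/-- Codes of expressions. -/
def Ex.code : Ex → ℕ
  | .self => npr 0 0
  | .left a => npr 1 a.code
  | .right a => npr 2 a.code
  | .const c => npr 3 c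
  | .add a b => npr 4 (npr a.code b.code)
  | .mul a b => npr 5 (npr a.code b.code)
  | .pow a => npr 6 a.code
  | .eq a b => npr 7 (npr a.code b.code)
  | .le a b => npr 8 (npr a.code b.code)
  | .not a => npr 9 a.code
  | .and a b => npr 10 (npr a.code b.code)
  | .ball a b => npr 11 (npr a.code b.code)

/-- The `Σ_j` relation given by an expression. -/
def VV : ℕ → Ex → ℕ → Prop
  | 0, E, x => E.val x ≠ 0
  | j + 1, E, x => ∃ u, ¬ VV j E (npr u x)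

/-- The number of the fact `the value of e at x is r`. -/
def fc (e x r : ℕ) : ℕ := npr e (npr x r)

/-- Every fact in `F` is justified by facts in `F`. -/
def JustS (F : Set ℕ) : Prop := ∀ e x r, fc e x r ∈ F →
  (e = npr 0 0 → r = x) ∧
  (∀ a, e = npr 1 a → ∃ s, fc a x s ∈ F ∧ r = lf s) ∧
  (∀ a, e = npr 2 a → ∃ s, fc a x s ∈ F ∧ r = rt s) ∧
  (∀ c, e = npr 3 c → r = c) ∧
  (∀ a b, e = npr 4 (npr a b) → ∃ s t, fc a x s ∈ F ∧ fc b x t ∈ F ∧ r = s + t) ∧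
  (∀ a b, e = npr 5 (npr a b) → ∃ s t, fc a x s ∈ F ∧ fc b x t ∈ F ∧ r = s * t) ∧
  (∀ a, e = npr 6 a → ∃ s, fc a x s ∈ F ∧ r = 2 ^ s) ∧
  (∀ a b, e = npr 7 (npr a b) → ∃ s t, fc a x s ∈ F ∧ fc b x t ∈ F ∧
    ((s = t ∧ r = 1) ∨ (s ≠ t ∧ r = 0))) ∧
  (∀ a b, e = npr 8 (npr a b) → ∃ s t, fc a x s ∈ F ∧ fc b x t ∈ F ∧
    ((s ≤ t ∧ r = 1) ∨ (t < s ∧ r = 0))) ∧
  (∀ a, e = npr 9 a → ∃ s, fc a x s ∈ F ∧ ((s = 0 ∧ r = 1) ∨ (s ≠ 0 ∧ r = 0))) ∧
  (∀ a b, e = npr 10 (npr a b) → ∃ s t, fc a x s ∈ F ∧ fc b x t ∈ F ∧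
    (((s ≠ 0 ∧ t ≠ 0) ∧ r = 1) ∨ ((s = 0 ∨ t = 0) ∧ r = 0))) ∧
  ∀ a b, e = npr 11 (npr a b) → ∃ s, fc a x s ∈ F ∧
    ((r = 1 ∧ ∀ z, z ≤ s → ∃ t, t ≠ 0 ∧ fc b (npr z x) t ∈ F) ∨
      (r = 0 ∧ ∃ z, z ≤ s ∧ fc b (npr z x) 0 ∈ F))

/-- The finite set with code `W`. -/
def BS (W : ℕ) : Set ℕ := {t | W.testBit t = true}

/-- There is a certificate, given by the first component of `x`, for the value `0`. -/
def NT0 (e x : ℕ) : Prop :=
  ∃ u W v, x = npr (npr u W) v ∧ JustS (BS W) ∧ fc e (npr u v) 0 ∈ BS W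

/-- The universal `Σ_j` relations (for `j ≥ 1`). -/
def TT : ℕ → ℕ → ℕ → Prop
  | 0, e, x => ¬ NT0 e x
  | j + 1, e, x => ∃ u, ¬ TT j e (npr u x)

/-- The function dominating the `Σ_{j+1}` Skolem functions. -/
noncomputable def GG (j x : ℕ) : ℕ :=
  sInf {g | ∀ e, e ≤ x → ∀ v, v ≤ x → TT (j + 1) e v → ∃ u, u ≤ g ∧ ¬ TT j e (npr u v)}

/-- The iterates of `x ↦ 2^x + GG j x`. -/
noncomputable def twr (j p : ℕ) : ℕ → ℕ
  | 0 => p
  | k + 1 => 2 ^ twr j p k + GG j (twr j p k)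

/-- The tower. -/
noncomputable def towj (j : ℕ) : Tower where
  tow k n := twr j (n + 2) k
  tow_zero _ := rfl
  pow_le _ _ := Nat.le_add_right _ _

/-- The extension of a relation on `ℕ` to the model. -/
def starR {τ : Tower} {k : ℕ} (S : (Fin k → ℕ) → Prop) (v : Fin k → MMt τ) : Prop :=
  ∀ᶠ n in (UU : Filter ℕ), S (fun i => rep (v i) n)

/-- Coding of tuples. -/
def env : ∀ {k : ℕ}, (Fin k → ℕ) → ℕ
  | 0, _ => 0
  | _ + 1, v => npr (v 0) (env (Fin.tail v))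

/-- `b1` is a chain of length `k` starting above `p`, `b2` a table of candidates for witnesses. -/
def ChD (b1 b2 k p : ℕ) : Prop :=
  (∀ y, npr 0 y ∈ BS b1 → p ≤ y) ∧ (∀ i, i ≤ k → ∃ y, npr i y ∈ BS b1) ∧
  ∀ i, i < k → ∀ y y', npr i y ∈ BS b1 → npr (i + 1) y' ∈ BS b1 → 2 ^ y ≤ y' ∧
    ∀ e, e ≤ y → ∀ v, v ≤ y → ∃ z, fc e v z ∈ BS b2 ∧ (z ≠ 0 → 2 ^ y + z ≤ y' + 1)

/-- The table `b2` is correct. -/
def ChT (j b2 : ℕ) : Prop :=
  ∀ e v z, fc e v z ∈ BS b2 →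
    (z = 0 → ¬ TT (j + 1) e v) ∧ (∀ u, z = u + 1 → ¬ TT j e (npr u v))

/-- `b` codes a chain with a correct table. -/
def Ch (j b k p : ℕ) : Prop := ∃ b1 b2, b = npr b1 b2 ∧ ChD b1 b2 k p ∧ ChT j b2

/-- A bound for chains. -/
def chb (k t : ℕ) : ℕ := npr (2 ^ (npr k t + 1)) (2 ^ (fc t t (t + 1) + 1))

/-! ## Statements of the modules, part 2 -/

/-- SGC: closure properties of `Σ_j` relations. -/
def SigClosed : Prop := ∀ (M : Type) [PAExp M],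
  (∀ (j k l : ℕ) (P : (Fin k → M) → Prop), IsSigma j P →
    ∀ F : Fin k → (Fin l → M) → M, (∀ i, IsTerm (F i)) → IsSigma j (fun v => P (fun i => F i v))) ∧
  (∀ (j k : ℕ) (P : (Fin k → M) → Prop), IsSigma j P → IsSigma (j + 1) P) ∧
  (∀ (j k : ℕ) (P : (Fin k → M) → Prop), IsDelta0 P → IsSigma j P) ∧
  (∀ (j k : ℕ) (P Q : (Fin k → M) → Prop), IsSigma j P → IsSigma j Q →
    IsSigma j (fun v => P v ∧ Q v)) ∧
  (∀ (j k : ℕ) (P Q : (Fin k → M) → Prop), IsSigma j P → IsSigma j Q →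
    IsSigma j (fun v => P v ∨ Q v)) ∧
  ∀ (j k : ℕ) (P : (Fin (k + 1) → M) → Prop), IsSigma (j + 1) P →
    IsSigma (j + 1) (fun v : Fin k → M => ∃ x, P (Fin.cons x v))

/-- NAT: the pairing and membership on `ℕ`. -/
def NatStmt : Prop :=
  (∀ a b, lf (npr a b) = a) ∧ (∀ a b, rt (npr a b) = b) ∧ (∀ x, lf x ≤ x) ∧ (∀ x, rt x ≤ x) ∧
  (∀ a b c d, npr a b = npr c d → a = c ∧ b = d) ∧
  (∀ a b c d, a ≤ c → b ≤ d → npr a b ≤ npr c d) ∧ (∀ a b, a ≤ npr a b ∧ b ≤ npr a b) ∧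
  (∀ W t, t ∈ BS W → t < W) ∧
  IsDelta0 (fun v : Fin 2 → ℕ => v 0 = lf (v 1)) ∧ IsDelta0 (fun v : Fin 2 → ℕ => v 0 = rt (v 1)) ∧
  IsDelta0 (fun v : Fin 2 → ℕ => v 0 ∈ BS (v 1))

/-- JSN: soundness of certificates. -/
def JustSound : Prop :=
  ∀ F, JustS F → ∀ (E : Ex) (x r : ℕ), fc E.code x r ∈ F → r = E.val x

/-- JCM: completeness of certificates. -/
def JustCompl : Prop :=
  ∀ (E : Ex) (x : ℕ), ∃ W, JustS (BS W) ∧ fc E.code x (E.val x) ∈ BS W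

/-- JDL: being justified is `Δ₀`, and so is `TT 0`. -/
def JustDelta : Prop :=
  IsDelta0 (fun v : Fin 1 → ℕ => JustS (BS (v 0))) ∧
    IsDelta0 (fun v : Fin 2 → ℕ => TT 0 (v 0) (v 1))

/-- TVS: the universal relations are universal. -/
def TVStmt : Prop :=
  (∀ (j : ℕ) (E : Ex) (x : ℕ), TT (j + 1) E.code x ↔ VV (j + 1) E x) ∧
  ∀ (j : ℕ) (E : Ex) (u x : ℕ), ¬ TT j E.code (npr u x) → ∃ u1, u1 ≤ u ∧ ¬ VV j E (npr u1 x)

/-- TSG: the universal `Σ_j` relation is `Σ_j`. -/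
def TSigma : Prop := ∀ j : ℕ, IsSigma j (fun v : Fin 2 → ℕ => TT j (v 0) (v 1))

/-- CDT: expressions for `Δ₀` relations. -/
def CodeDelta : Prop :=
  ∀ (k : ℕ) (P : (Fin k → ℕ) → Prop), IsDelta0 P → ∀ α : Fin k → List Bool,
    ∃ E : Ex, ∀ x, VV 0 E x ↔ P (fun i => evp (α i) x)

/-- CDS: expressions for `Σ_j` relations. -/
def CodeSigma : Prop :=
  ∀ (j k : ℕ) (P : (Fin k → ℕ) → Prop), IsSigma j P → ∀ α : Fin k → List Bool,
    ∃ E : Ex, ∀ x, VV j E x ↔ P (fun i => evp (α i) x)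

/-- GGB: basic properties of the dominating functions. -/
def GGBasics : Prop :=
  (∀ j x e v : ℕ, e ≤ x → v ≤ x → TT (j + 1) e v → ∃ u, u ≤ GG j x ∧ ¬ TT j e (npr u v)) ∧
  (∀ j x y : ℕ, x ≤ y → GG j x ≤ GG j y) ∧
  ∀ j x g : ℕ, (∀ e, e ≤ x → ∀ v, v ≤ x → TT (j + 1) e v → ∃ u, u ≤ g ∧ ¬ TT j e (npr u v)) →
    GG j x ≤ g

/-- DOM: domination of Skolem functions. -/
def DomStmt : Prop :=
  ∀ (j j' : ℕ), j' ≤ j → ∀ (i k : ℕ) (Q : (Fin (i + k) → ℕ) → Prop), IsSigma j' Q →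
    ∃ c : ℕ, ∀ v : Fin k → ℕ, (∃ w : Fin i → ℕ, ¬ Q (Fin.append w v)) →
      ∃ w : Fin i → ℕ, (∀ t, w t ≤ GG j (c + env v)) ∧ ¬ Q (Fin.append w v)

/-- ST0: extensions of `Δ₀` relations are `Δ₀`. -/
def Star0 : Prop :=
  ∀ (τ : Tower) (k : ℕ) (S : (Fin k → ℕ) → Prop), IsDelta0 S → IsDelta0 (starR (τ := τ) S)

/-- STP: choosing bounded witnesses. -/
def StepStmt : Prop :=
  ∀ (j j' : ℕ), j' ≤ j → ∀ (i k : ℕ) (Q : (Fin (i + k) → ℕ) → Prop), IsSigma j' Q →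
    ∀ v : Fin k → MMt (towj j),
      (∀ᶠ n in (UU : Filter ℕ), ∃ w : Fin i → ℕ, ¬ Q (Fin.append w (fun t => rep (v t) n))) ↔
        ∃ w : Fin i → MMt (towj j), ¬ starR Q (Fin.append w v)

/-- STR: extensions of `Σ_{j'}` relations are `Σ_{j'}`. -/
def StarStmt : Prop :=
  ∀ (j j' : ℕ), j' ≤ j + 1 → ∀ (k : ℕ) (S : (Fin k → ℕ) → Prop), IsSigma j' S →
    IsSigma j' (starR (τ := towj j) S)

/-- EL0: `Δ₀` relations on the model are sections of extensions of `Δ₀` relations on `ℕ`. -/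
def Elem0 : Prop :=
  ∀ (τ : Tower) (k : ℕ) (P : (Fin k → MMt τ) → Prop), IsDelta0 P →
    ∃ (l : ℕ) (c : Fin l → MMt τ) (S : (Fin (l + k) → ℕ) → Prop), IsDelta0 S ∧
      ∀ v, P v ↔ starR S (Fin.append c v)

/-- ELM: `Σ_{j'}` relations on the model are sections of extensions of `Σ_{j'}` relations. -/
def ElemStmt : Prop :=
  ∀ (j j' : ℕ), j' ≤ j + 1 → ∀ (k : ℕ) (P : (Fin k → MMt (towj j)) → Prop), IsSigma j' P →
    ∃ (l : ℕ) (c : Fin l → MMt (towj j)) (S : (Fin (l + k) → ℕ) → Prop), IsSigma j' S ∧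
      ∀ v, P v ↔ starR S (Fin.append c v)

/-- SCJ: strong `Σ₁` bounding. -/
def SCAll : Prop := ∀ j : ℕ, SCStmt (towj j)

/-- ISG: induction. -/
def ISigmaStmt : Prop := ∀ j : ℕ, ISigma (MMt (towj j)) (j + 1)

/-- BSG: collection. -/
def BSigmaStmt : Prop := ∀ j : ℕ, BSigma (MMt (towj j)) (j + 2)

/-- CHN: chains are `Π_{j+1}`. -/
def ChainNot : Prop :=
  ∀ j : ℕ, IsSigma (j + 1) (fun v : Fin 3 → ℕ => ¬ Ch j (v 0) (v 1) (v 2))

/-- CHL: chains are long. -/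
def ChainLow : Prop := ∀ j b k p : ℕ, Ch j b k p → twr j p k ≤ b

/-- CHU: chains exist. -/
def ChainUp : Prop := ∀ j k p : ℕ, ∃ b, Ch j b k p ∧ b ≤ chb k (twr j p k)

/-- OMD: the standard part is `Σ_{j+2}`. -/
def OmegaSigma : Prop :=
  ∀ j : ℕ, IsSigma (j + 2) (fun v : Fin 1 → MMt (towj j) => v 0 ∈ omega (MMt (towj j)))

/-- NIS: a model with a `Σ_n` cut does not satisfy `IΣ_n`. -/
def NotISigma : Prop :=
  ∀ (M : Type) [PAExp M] (n : ℕ) (I : Set M), IsSigmaCut n I → ¬ ISigma M n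

/-- The final statement for all `n`. -/
def FinalAll : Prop :=
  ∀ n : ℕ, 1 ≤ n → ∃ (M : Type) (_ : PAExp M), IsCountSat M n ∧ ISigma M (n - 1) ∧
    ∃ I : Set M, IsSigmaCut n I ∧
      ¬ (FirstOrder.Language.ElementarilyEquivalent FirstOrder.Language.order (Deg M) (DegGE I))

end Pool.Agent.BSN
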