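import Pool.Agent.Helper26_BSN.Ggb
import Pool.Agent.Helper87_BSN.Cdt
import Pool.Agent.Helper71_BSN.Chn
import Pool.Agent.Helper38_BSN.Chu
import Pool.Agent.Helper46_BSN.Dom
import Pool.Agent.Helper50_BSN.El0
import Pool.Agent.Helper71_BSN.Jcm
import Pool.Agent.Helper38_BSN.Jdl
import Pool.Agent.Helper48_BSN.Jsn
import Pool.Agent.Helper41_BSN.Omd
import Pool.Agent.Helper34_BSN.Stp
import Pool.Agent.Helper50_BSN.Sgc
import Pool.Agent.Helper46_BSN.St0
import Pool.Agent.Helper41_BSN.Star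
import Pool.Agent.Helper76_BSN.TVS

/-!
# Assembly of part 2
-/

namespace Pool.Agent.BSN

open Pool.Agent.BSig

theorem p2_nat : NatStmt := H26.natStmt_proof
theorem p2_sgc : SigClosed := H50.sgc
theorem p2_jsn : JustSound := H48.jsn
theorem p2_jcm : JustCompl := H71.justCompl p2_nat
theorem p2_jdl : JustDelta := H38.jdl p2_nat
theorem p2_tvs : TVStmt := H76.tvs p2_nat p2_jsn p2_jcm
theorem p2_tsg : TSigma := H76.tsg p2_jdl p2_sgc
theorem p2_cdt : CodeDelta := H87.codeDelta p2_nat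
theorem p2_cds : CodeSigma := H87.codeSigma p2_cdt p2_nat
theorem p2_ggb : GGBasics := H26.ggBasics_proof
theorem p2_dom : DomStmt := H46.dom p2_sgc p2_cds p2_tvs p2_ggb p2_nat
theorem p2_st0 : Star0 := H46.st0
theorem p2_stp : StepStmt := H34.stp p2_dom p2_ggb
theorem p2_str : StarStmt := H41.starStmt_proof p2_st0 p2_stp
theorem p2_el0 : Elem0 := H50.el0
theorem p2_scj : SCAll := H34.scj p2_el0 p2_dom p2_ggb
theorem p2_chn : ChainNot := H71.chainNot p2_tsg p2_sgc p2_nat
theorem p2_chl : ChainLow := H26.chainLow_proof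
theorem p2_chu : ChainUp := H38.chu p2_ggb p2_nat
theorem p2_omd : OmegaSigma := H41.omegaSigma_proof p2_chn p2_str p2_chl p2_chu p2_sgc

end Pool.Agent.BSN
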