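import Pool.Agent.Helper26_BSN.Model

/-!
# Internal predicates, Łoś for bounded formulas, saturation
-/

namespace Pool.Agent.BSN

open Filter Pool.Agent.BSig

variable {τ : Tower}

/-- Internal predicates on the model. -/
def IntP {k : ℕ} (P : (Fin k → (MMt τ)) → Prop) : Prop :=
  ∃ Pn : ℕ → (Fin k → ℕ) → Prop, ∀ (f : Fin k → ℕ → ℕ) (hf : ∀ i, (Bddt τ) (f i)),
    P (fun i => mk (f i) (hf i)) ↔ ∀ᶠ n in (UU : Filter ℕ), Pn n (fun i => f i n)

/-- Internal functions on the model. -/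
def IntF {k : ℕ} (F : (Fin k → (MMt τ)) → (MMt τ)) : Prop :=
  ∃ Fn : ℕ → (Fin k → ℕ) → ℕ, ∀ (f : Fin k → ℕ → ℕ) (hf : ∀ i, (Bddt τ) (f i)),
    ∃ h : (Bddt τ) (fun n => Fn n (fun i => f i n)), F (fun i => mk (f i) (hf i)) = mk _ h

theorem not_eventually' {p : ℕ → Prop} :
    (¬ ∀ᶠ n in (UU : Filter ℕ), p n) ↔ ∀ᶠ n in (UU : Filter ℕ), ¬ p n :=
  Ultrafilter.eventually_not.symm

theorem eventually_or' {p q : ℕ → Prop} :
    (∀ᶠ n in (UU : Filter ℕ), p n ∨ q n) ↔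
      (∀ᶠ n in (UU : Filter ℕ), p n) ∨ ∀ᶠ n in (UU : Filter ℕ), q n :=
  Ultrafilter.eventually_or

theorem IntF.of_isTerm {k : ℕ} {F : (Fin k → (MMt τ)) → (MMt τ)} (h : IsTerm F) : IntF F := by
  induction h with
  | param c => exact ⟨fun n _ => rep c n, fun f hf => ⟨bdd_rep c, (mk_rep c).symm⟩⟩
  | var i => exact ⟨fun n v => v i, fun f hf => ⟨hf i, rfl⟩⟩
  | add _ _ ih1 ih2 =>
    obtain ⟨F1, h1⟩ := ih1; obtain ⟨F2, h2⟩ := ih2
    refine ⟨fun n v => F1 n v + F2 n v, fun f hf => ?_⟩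
    obtain ⟨b1, e1⟩ := h1 f hf; obtain ⟨b2, e2⟩ := h2 f hf
    exact ⟨bdd_add b1 b2, by simp only [e1, e2, mk_add]⟩
  | mul _ _ ih1 ih2 =>
    obtain ⟨F1, h1⟩ := ih1; obtain ⟨F2, h2⟩ := ih2
    refine ⟨fun n v => F1 n v * F2 n v, fun f hf => ?_⟩
    obtain ⟨b1, e1⟩ := h1 f hf; obtain ⟨b2, e2⟩ := h2 f hf
    exact ⟨bdd_mul b1 b2, by simp only [e1, e2, mk_mul]⟩
  | pow2 _ ih1 =>
    obtain ⟨F1, h1⟩ := ih1
    refine ⟨fun n v => 2 ^ F1 n v, fun f hf => ?_⟩
    obtain ⟨b1, e1⟩ := h1 f hf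
    refine ⟨bdd_pow2 b1, ?_⟩
    simp only [e1]
    exact pw_mk b1

theorem IntP.of_delta0 {k : ℕ} {P : (Fin k → (MMt τ)) → Prop} (h : IsDelta0 P) : IntP P := by
  induction h with
  | eq h1 h2 =>
    obtain ⟨F1, h1⟩ := IntF.of_isTerm h1; obtain ⟨F2, h2⟩ := IntF.of_isTerm h2
    refine ⟨fun n v => F1 n v = F2 n v, fun f hf => ?_⟩
    obtain ⟨b1, e1⟩ := h1 f hf; obtain ⟨b2, e2⟩ := h2 f hf
    simp only [e1, e2, mk_eq]
  | le h1 h2 =>
    obtain ⟨F1, h1⟩ := IntF.of_isTerm h1; obtain ⟨F2, h2⟩ := IntF.of_isTerm h2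
    refine ⟨fun n v => F1 n v ≤ F2 n v, fun f hf => ?_⟩
    obtain ⟨b1, e1⟩ := h1 f hf; obtain ⟨b2, e2⟩ := h2 f hf
    simp only [e1, e2, mk_le]
  | not _ ih =>
    obtain ⟨P1, h1⟩ := ih
    exact ⟨fun n v => ¬ P1 n v, fun f hf => by beta_reduce; rw [h1 f hf, not_eventually']⟩
  | and _ _ ih1 ih2 =>
    obtain ⟨P1, h1⟩ := ih1; obtain ⟨P2, h2⟩ := ih2
    exact ⟨fun n v => P1 n v ∧ P2 n v, fun f hf => by
      beta_reduce; rw [h1 f hf, h2 f hf, eventually_and]⟩
  | @ball k F Q hF _ ih =>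
    obtain ⟨F1, h1⟩ := IntF.of_isTerm hF; obtain ⟨Q1, h2⟩ := ih
    refine ⟨fun n v => ∀ x ≤ F1 n v, Q1 n (Fin.cons x v), fun f hf => ?_⟩
    obtain ⟨b1, e1⟩ := h1 f hf
    have key : ∀ (g : ℕ → ℕ) (hg : (Bddt τ) g), Q (Fin.cons (mk g hg) fun i => mk (f i) (hf i)) ↔
        ∀ᶠ n in (UU : Filter ℕ), Q1 n (Fin.cons (g n) fun i => f i n) := by
      intro g hg
      have := h2 (Fin.cons g f) (by
        intro i; refine Fin.cases ?_ ?_ i
        · exact hg
        · exact hf)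
      have a1 : (fun i => mk ((Fin.cons g f : Fin (k + 1) → ℕ → ℕ) i) (by
          refine Fin.cases ?_ ?_ i
          · exact hg
          · exact hf)) = (Fin.cons (mk g hg) fun i => mk (f i) (hf i) : Fin (k + 1) → (MMt τ)) := by
        funext i; refine Fin.cases ?_ ?_ i
        · rfl
        · intro j; rfl
      rw [a1] at this
      rw [this]
      refine eventually_congr (Eventually.of_forall fun n => ?_)
      have a2 : (fun i => (Fin.cons g f : Fin (k + 1) → ℕ → ℕ) i n) =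
          (Fin.cons (g n) fun i => f i n : Fin (k + 1) → ℕ) := by
        funext i; refine Fin.cases ?_ ?_ i
        · rfl
        · intro j; rfl
      rw [a2]
    constructor
    · intro H
      by_contra hc
      rw [not_eventually'] at hc
      classical
      let g : ℕ → ℕ := fun n =>
        if h : ∃ x ≤ F1 n (fun i => f i n), ¬ Q1 n (Fin.cons x fun i => f i n) then h.choose else 0
      have hg : ∀ᶠ n in (UU : Filter ℕ), g n ≤ F1 n (fun i => f i n) ∧
          ¬ Q1 n (Fin.cons (g n) fun i => f i n) := by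
        filter_upwards [hc] with n hn
        push Not at hn
        have h' : ∃ x ≤ F1 n (fun i => f i n), ¬ Q1 n (Fin.cons x fun i => f i n) := hn
        simp only [g, dif_pos h']
        exact h'.choose_spec
      have hgb : (Bddt τ) g := bdd_of_le b1 (hg.mono fun n h => h.1)
      have := (key g hgb).1 (H (mk g hgb) (by rw [e1, mk_le]; exact hg.mono fun n h => h.1))
      obtain ⟨n, hn1, hn2⟩ := (this.and hg).exists
      exact hn2.2 hn1
    · intro H x hx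
      obtain ⟨g, hg, rfl⟩ := exists_mk x
      rw [e1, mk_le] at hx
      rw [key]
      filter_upwards [H, hx] with n h1 h2
      exact h1 _ h2

/-- The ultrafilter is nonprincipal. -/
theorem eventually_ge (N : ℕ) : ∀ᶠ n in (UU : Filter ℕ), N ≤ n := by
  have : (UU : Filter ℕ) ≤ atTop := by
    rw [← Nat.cofinite_eq_atTop]; exact hyperfilter_le_cofinite
  exact this (eventually_ge_atTop N)

/-- Countable saturation. -/
theorem saturation {α : Type*} [Nonempty α] (P : ℕ → ℕ → α → Prop)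
    (hdec : ∀ N n x, P (N + 1) n x → P N n x)
    (hsat : ∀ N, ∀ᶠ n in (UU : Filter ℕ), ∃ x, P N n x) :
    ∃ (x : ℕ → α) (ν : ℕ → ℕ), (∀ N, ∀ᶠ n in (UU : Filter ℕ), N ≤ ν n) ∧ (∀ n, ν n ≤ n) ∧
      (∀ᶠ n in (UU : Filter ℕ), P (ν n) n (x n)) ∧
      ∀ N, ∀ᶠ n in (UU : Filter ℕ), P N n (x n) := by
  classical
  have hdec' : ∀ {N N' n x}, N ≤ N' → P N' n x → P N n x := by
    intro N N' n x h
    induction h with
    | refl => exact id
    | step _ ih => exact fun hp => ih (hdec _ _ _ hp)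
  let ν : ℕ → ℕ := fun n => Nat.findGreatest (fun N => ∃ x, P N n x) n
  let x : ℕ → α := fun n => if h : ∃ x, P (ν n) n x then h.choose else Classical.arbitrary α
  have hν : ∀ N, ∀ᶠ n in (UU : Filter ℕ), N ≤ ν n := by
    intro N
    filter_upwards [hsat N, eventually_ge N] with n h1 h2
    exact Nat.le_findGreatest h2 h1
  have hx : ∀ᶠ n in (UU : Filter ℕ), P (ν n) n (x n) := by
    filter_upwards [hsat 0] with n h0
    have h : ∃ x, P (ν n) n x :=
      Nat.findGreatest_spec (P := fun N => ∃ x, P N n x) (Nat.zero_le n) h0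
    simp only [x, dif_pos h]
    exact h.choose_spec
  refine ⟨x, ν, hν, fun n => Nat.findGreatest_le n, hx, fun N => ?_⟩
  filter_upwards [hν N, hx] with n h1 h2
  exact hdec' h1 h2

end Pool.Agent.BSN
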