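import Pool.Agent.Helper26_BSN.Part1
import Pool.Agent.Helper26_BSN.Part2
import Pool.Agent.Helper26_BSN.Cl2
import Pool.Agent.Helper26_BSN.Claim2
import Pool.Agent.Helper31_BSN.Isg
import Pool.Agent.Helper31_BSN.Bsg
import Pool.Agent.Helper75_BSN.Elm
import Pool.Agent.Helper26_BSN.Case1

/-!
# FIN: the final statement for all `n`
-/

namespace Pool.Agent.BSN

open Pool.Agent.BSig

theorem p2_elm : ElemStmt := H75.elm p2_el0 p2_stp p2_sgc

theorem neq_all (j : ℕ) : NeqStmt (towj j) :=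
  part1 (towj j) (p2_scj j)
    (fun hB hG hDB hDJ hRX hFW hC hCD _ _ => claim2_proof hB hG hCD hC hDJ hDB hFW hRX)
    H26.cl2

theorem final_all : FinalAll := by
  intro n hn
  obtain rfl | ⟨j, rfl⟩ : n = 1 ∨ ∃ j, n = j + 2 := by
    rcases n with _ | _ | j
    · omega
    · exact Or.inl rfl
    · exact Or.inr ⟨j, rfl⟩
  · exact Case1.result
  · have hcut : IsSigmaCut (j + 2) (omega (MMt (towj j))) :=
      ⟨(H59.om_proof (τ := towj j)).1, p2_omd j⟩
    refine ⟨MMt (towj j), inferInstance,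
      ⟨⟨H31.bsg p2_elm j, H26.notISigma_proof _ _ _ hcut⟩, hcut,
      (codeStmt_proof (τ := towj j)).1⟩, H31.isg p2_elm j, omega _, hcut, neq_all j⟩

end Pool.Agent.BSN
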