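import Pool.Agent.Helper37_BSig.Lib

/-!
# More closure properties of terms
-/

namespace Pool.Agent.BSig

variable {M : Type} [PAExp M] {n : ℕ}

theorem IsTerm.twomul {f : (Fin n → M) → M} (h : IsTerm f) : IsTerm (fun v => 2 * f v) :=
  (IsTerm.param 2).mul h

theorem IsTerm.addc {f : (Fin n → M) → M} (h : IsTerm f) (c : M) :
    IsTerm (fun v => f v + c) := h.add (IsTerm.param c)

end Pool.Agent.BSig
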