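import Pool.Agent.Helper26_BSN.Sets
import Pool.Agent.Helper26_BSN.Lib2

/-!
# Bounded formulas used in the proof
-/

namespace Pool.Agent.BSN

open Filter Pool.Agent.BSig

variable {τ : Tower}

theorem IsTerm.nat {k : ℕ} (c : (MMt τ)) : IsTerm (fun _ : Fin k → (MMt τ) => c) := IsTerm.param c

theorem IsTerm.pr {k : ℕ} {f g : (Fin k → (MMt τ)) → (MMt τ)} (hf : IsTerm f) (hg : IsTerm g) :
    IsTerm (fun v => pr (f v) (g v)) := ((hf.add hg).mul (hf.add hg)).add hf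

theorem one_le_pow2 (x : (MMt τ)) : 1 ≤ pow2 x := by
  have := (PAExp.discrete _ _).1 (lt_pow2 x)
  have h2 := PAExp.add_le_add' _ _ 1 (PAExp.zero_le' x)
  rw [zero_add] at h2
  exact h2.trans this

theorem le_mul_pow2 (q x : (MMt τ)) : q ≤ q * pow2 x := by
  have := PAExp.mul_le_mul' _ _ q (one_le_pow2 x)
  rw [one_mul, mul_comm] at this; exact this

theorem mem_iff_bdd (x a : (MMt τ)) : Mem x a ↔ ∃ q, q ≤ a ∧ ∃ r, r ≤ a ∧
    (a = q * pow2 (x + 1) + pow2 x + r ∧ r < pow2 x) := by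
  constructor
  · rintro ⟨q, r, h1, h2⟩
    refine ⟨q, ?_, r, ?_, h1, h2⟩
    · rw [h1, add_assoc]
      exact (le_mul_pow2 q _).trans (le_add_right' _ _)
    · rw [h1]; exact le_add_left' _ _
  · rintro ⟨q, _, r, _, h1, h2⟩; exact ⟨q, r, h1, h2⟩

theorem IsDelta0.mem {k : ℕ} {f g : (Fin k → (MMt τ)) → (MMt τ)} (hf : IsTerm f) (hg : IsTerm g) :
    IsDelta0 (fun v => Mem (f v) (g v)) := by
  refine IsDelta0.congr ?_ (fun v => mem_iff_bdd (f v) (g v))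
  refine IsDelta0.ex hg ?_
  refine IsDelta0.ex hg.tail ?_
  refine IsDelta0.and (IsDelta0.eq hg.tail.tail ?_) (IsDelta0.lt (IsTerm.var 0) hf.tail.tail.pow2)
  exact (((IsTerm.var 1).mul (hf.tail.tail.add (IsTerm.param 1)).pow2).add
    hf.tail.tail.pow2).add (IsTerm.var 0)

/-- The join of two sets. -/
def jn (A B : Set (MMt τ)) : Set (MMt τ) := {x | (∃ z ∈ A, x = 2 * z) ∨ ∃ z ∈ B, x = 2 * z + 1}

/-- The set of literals coded by `F` is true of `B`. -/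
def Tr (B : Set (MMt τ)) (F : (MMt τ)) : Prop := ∀ z, (Mem (2 * z + 1) F → z ∈ B) ∧ (Mem (2 * z) F → z ∉ B)

/-- The fact coded by `t = 2K+i` is true of `A`. -/
def Fact (A : Set (MMt τ)) (t : (MMt τ)) : Prop :=
  ∃ K i, t = 2 * K + i ∧ (i = 0 ∨ i = 1) ∧ decode K ⊆ sgn A i

/-- Derivations: `φ` is the matrix of a `Σ₁` relation `Φ(K, i, p, q) ↔ ∃ w, φ(w, K, i, p, q)`;
the literals in `F` and the inequalities `· ≤ k`, `y ≤ ·` give the fact `t`; bound `α`. -/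
def Der (φ : (Fin 5 → (MMt τ)) → Prop) (α k y F t : (MMt τ)) : Prop :=
  ∃ K, K ≤ α ∧ ∃ i, i ≤ α ∧ ∃ P, P ≤ α ∧ ∃ Q, Q ≤ α ∧ ∃ w, w ≤ α ∧
    (t = 2 * K + i ∧ (i = 0 ∨ i = 1) ∧ φ ![w, K, i, P, Q] ∧
    (∀ x, x ≤ P → Mem x P → ∃ z, z ≤ x ∧
      ((x = 2 * z ∧ Mem (2 * z + 1) F) ∨ (x = 2 * z + 1 ∧ z ≤ k))) ∧
    (∀ x, x ≤ Q → Mem x Q → ∃ z, z ≤ x ∧
      ((x = 2 * z ∧ Mem (2 * z) F) ∨ (x = 2 * z + 1 ∧ y ≤ z))))

theorem _root_.Pool.Agent.BSig.IsDelta0.dern {φ : (Fin 5 → (MMt τ)) → Prop} (hφ : IsDelta0 φ) {n : ℕ}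
    {α k y F t : (Fin n → (MMt τ)) → (MMt τ)} (hα : IsTerm α) (hk : IsTerm k) (hy : IsTerm y)
    (hF : IsTerm F) (ht : IsTerm t) :
    IsDelta0 (fun v => Der φ (α v) (k v) (y v) (F v) (t v)) := by
  have h2 : ∀ {m : ℕ} {f : (Fin m → (MMt τ)) → (MMt τ)}, IsTerm f → IsTerm (fun v => 2 * f v) :=
    fun h => (IsTerm.param 2).mul h
  have h21 : ∀ {m : ℕ} {f : (Fin m → (MMt τ)) → (MMt τ)}, IsTerm f → IsTerm (fun v => 2 * f v + 1) :=
    fun h => (h2 h).add (IsTerm.param 1)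
  refine IsDelta0.ex hα ?_
  refine IsDelta0.ex hα.tail ?_
  refine IsDelta0.ex hα.tail.tail ?_
  refine IsDelta0.ex hα.tail.tail.tail ?_
  refine IsDelta0.ex hα.tail.tail.tail.tail ?_
  -- variables: 0 = w, 1 = Q, 2 = P, 3 = i, 4 = K
  refine (IsDelta0.eq ht.tail.tail.tail.tail.tail ((h2 (IsTerm.var 4)).add (IsTerm.var 3))).and ?_
  refine ((IsDelta0.eq (IsTerm.var 3) (IsTerm.param 0)).or
    (IsDelta0.eq (IsTerm.var 3) (IsTerm.param 1))).and ?_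
  refine IsDelta0.and ?_ (IsDelta0.and ?_ ?_)
  · refine (hφ.subst (F := ![fun v => v 0, fun v => v 4, fun v => v 3, fun v => v 2,
      fun v => v 1]) ?_).congr fun v => ?_
    · intro i; fin_cases i
      · exact IsTerm.var 0
      · exact IsTerm.var 4
      · exact IsTerm.var 3
      · exact IsTerm.var 2
      · exact IsTerm.var 1
    · have : (![v 0, Fin.tail (Fin.tail (Fin.tail (Fin.tail v))) 0,
        Fin.tail (Fin.tail (Fin.tail v)) 0, Fin.tail (Fin.tail v) 0, Fin.tail v 0] : Fin 5 → (MMt τ)) =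
        fun i => (![fun v => v 0, fun v => v 4, fun v => v 3, fun v => v 2,
          fun v => v 1] : Fin 5 → (Fin (n + 1 + 1 + 1 + 1 + 1) → (MMt τ)) → (MMt τ)) i v := by
        funext i; fin_cases i <;> rfl
      rw [this]
  · refine IsDelta0.all (IsTerm.var 2) ?_
    refine (IsDelta0.mem (IsTerm.var 0) (IsTerm.var 3)).imp ?_
    refine IsDelta0.ex (IsTerm.var 0) ?_
    refine IsDelta0.or (IsDelta0.and (IsDelta0.eq (IsTerm.var 1) (h2 (IsTerm.var 0)))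
      (IsDelta0.mem (h21 (IsTerm.var 0)) hF.tail.tail.tail.tail.tail.tail.tail)) ?_
    exact IsDelta0.and (IsDelta0.eq (IsTerm.var 1) (h21 (IsTerm.var 0)))
      (IsDelta0.le (IsTerm.var 0) hk.tail.tail.tail.tail.tail.tail.tail)
  · refine IsDelta0.all (IsTerm.var 1) ?_
    refine (IsDelta0.mem (IsTerm.var 0) (IsTerm.var 2)).imp ?_
    refine IsDelta0.ex (IsTerm.var 0) ?_
    refine IsDelta0.or (IsDelta0.and (IsDelta0.eq (IsTerm.var 1) (h2 (IsTerm.var 0)))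
      (IsDelta0.mem (h2 (IsTerm.var 0)) hF.tail.tail.tail.tail.tail.tail.tail)) ?_
    exact IsDelta0.and (IsDelta0.eq (IsTerm.var 1) (h21 (IsTerm.var 0)))
      (IsDelta0.le hy.tail.tail.tail.tail.tail.tail.tail (IsTerm.var 0))

end Pool.Agent.BSN
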