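import Pool.Agent.Helper26_BSN.Form

/-!
# Bounded formulas used in the proof, second part
-/

namespace Pool.Agent.BSN

open Filter Pool.Agent.BSig

variable {τ : Tower}

/-- `F` has at most `l` elements: there is (the code of) a map from `F` onto a subset of `[0, l)`
which is injective. -/
def Crd (F l : (MMt τ)) : Prop := ∃ h, h ≤ pow2 (pr F l + 1) ∧
  ((∀ x, x ≤ F → Mem x F → ∃ j, j < l ∧ Mem (pr x j) h) ∧
    ∀ x, x ≤ F → ∀ x', x' ≤ F → ∀ j, j < l → Mem (pr x j) h → Mem (pr x' j) h → x = x')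

/-- Two sets of literals are in conflict. -/
def Cfl (F s : (MMt τ)) : Prop := ∃ x, x ≤ F ∧
  ((Mem (2 * x) F ∧ Mem (2 * x + 1) s) ∨ (Mem (2 * x + 1) F ∧ Mem (2 * x) s))

/-- `s` kills all derivations of `t` (level `l`, precision `m`, bound `α`). -/
def Kil (φ : (Fin 5 → (MMt τ)) → Prop) (α l m t s : (MMt τ)) : Prop :=
  ∀ F, F ≤ α → (Crd F l ∧ ¬ Cfl F F ∧ Der φ α l m F t) → Cfl F s

/-- `r` forces `t` (level `l`, precision `m`, bound `α`): no consistent set of at most `m`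
literals containing `r` kills the derivations of `t`. -/
def Frc (φ : (Fin 5 → (MMt τ)) → Prop) (α l m r t : (MMt τ)) : Prop :=
  ∀ s, s ≤ pow2 (α + 2) + r → ((∀ x, x ≤ r → Mem x r → Mem x s) ∧ Crd s m ∧ ¬ Cfl s s) →
    ¬ Kil φ α l m t s

/-- `w` codes a partial function. -/
def Fun (w : (MMt τ)) : Prop := ∀ p, p ≤ w → ∀ x, x ≤ w → ∀ x', x' ≤ w →
  (Mem (pr p x) w → Mem (pr p x') w → x = x')

section Delta0

variable {n : ℕ}

theorem IsDelta0.crd {F l : (Fin n → (MMt τ)) → (MMt τ)} (hF : IsTerm F) (hl : IsTerm l) :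
    IsDelta0 (fun v => Crd (F v) (l v)) := by
  refine IsDelta0.ex ((IsTerm.pr hF hl).addc 1).pow2 ?_
  refine IsDelta0.and ?_ ?_
  · refine IsDelta0.all hF.tail ?_
    refine (IsDelta0.mem (IsTerm.var 0) hF.tail.tail).imp ?_
    refine IsDelta0.exLt hl.tail.tail ?_
    exact IsDelta0.mem (IsTerm.pr (IsTerm.var 1) (IsTerm.var 0)) (IsTerm.var 2)
  · refine IsDelta0.all hF.tail ?_
    refine IsDelta0.all hF.tail.tail ?_
    refine IsDelta0.allLt hl.tail.tail.tail ?_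
    refine (IsDelta0.mem (IsTerm.pr (IsTerm.var 2) (IsTerm.var 0)) (IsTerm.var 3)).imp ?_
    refine (IsDelta0.mem (IsTerm.pr (IsTerm.var 1) (IsTerm.var 0)) (IsTerm.var 3)).imp ?_
    exact IsDelta0.eq (IsTerm.var 2) (IsTerm.var 1)

theorem IsDelta0.cfl {F s : (Fin n → (MMt τ)) → (MMt τ)} (hF : IsTerm F) (hs : IsTerm s) :
    IsDelta0 (fun v => Cfl (F v) (s v)) := by
  refine IsDelta0.ex hF ?_
  refine IsDelta0.or ?_ ?_
  · exact (IsDelta0.mem (IsTerm.var 0).twomul hF.tail).and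
      (IsDelta0.mem ((IsTerm.var 0).twomul.addc 1) hs.tail)
  · exact (IsDelta0.mem ((IsTerm.var 0).twomul.addc 1) hF.tail).and
      (IsDelta0.mem (IsTerm.var 0).twomul hs.tail)

variable {φ : (Fin 5 → MMt τ) → Prop} (hφ : IsDelta0 φ)
include hφ

theorem IsDelta0.kil {α l m t s : (Fin n → (MMt τ)) → (MMt τ)} (hα : IsTerm α) (hl : IsTerm l)
    (hm : IsTerm m) (ht : IsTerm t) (hs : IsTerm s) :
    IsDelta0 (fun v => Kil φ (α v) (l v) (m v) (t v) (s v)) := by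
  refine IsDelta0.all hα ?_
  refine IsDelta0.imp ?_ (IsDelta0.cfl (IsTerm.var 0) hs.tail)
  refine (IsDelta0.crd (IsTerm.var 0) hl.tail).and ?_
  refine (IsDelta0.cfl (IsTerm.var 0) (IsTerm.var 0)).not.and ?_
  exact hφ.dern hα.tail hl.tail hm.tail (IsTerm.var 0) ht.tail

theorem IsDelta0.frc {α l m r t : (Fin n → (MMt τ)) → (MMt τ)} (hα : IsTerm α) (hl : IsTerm l)
    (hm : IsTerm m) (hr : IsTerm r) (ht : IsTerm t) :
    IsDelta0 (fun v => Frc φ (α v) (l v) (m v) (r v) (t v)) := by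
  refine IsDelta0.all ((hα.addc 2).pow2.add hr) ?_
  refine IsDelta0.imp ?_ (IsDelta0.kil hφ hα.tail hl.tail hm.tail ht.tail (IsTerm.var 0)).not
  refine IsDelta0.and ?_ ((IsDelta0.crd (IsTerm.var 0) hm.tail).and
    (IsDelta0.cfl (IsTerm.var 0) (IsTerm.var 0)).not)
  refine IsDelta0.all hr.tail ?_
  exact (IsDelta0.mem (IsTerm.var 0) hr.tail.tail).imp (IsDelta0.mem (IsTerm.var 0) (IsTerm.var 1))

omit hφ

theorem IsDelta0.func {w : (Fin n → (MMt τ)) → (MMt τ)} (hw : IsTerm w) :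
    IsDelta0 (fun v => Fun (w v)) := by
  refine IsDelta0.all hw ?_
  refine IsDelta0.all hw.tail ?_
  refine IsDelta0.all hw.tail.tail ?_
  refine (IsDelta0.mem (IsTerm.pr (IsTerm.var 2) (IsTerm.var 1)) hw.tail.tail.tail).imp ?_
  refine (IsDelta0.mem (IsTerm.pr (IsTerm.var 2) (IsTerm.var 0)) hw.tail.tail.tail).imp ?_
  exact IsDelta0.eq (IsTerm.var 1) (IsTerm.var 0)

end Delta0

end Pool.Agent.BSN
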