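import Pool.Agent.Helper26_BSN.Nat

/-!
# GGB: dominating functions; CHL: chains are long; NIS
-/

namespace Pool.Agent.BSN.H26

open Filter Cardinal Pool.Agent.BSig Pool.Agent.BSN

theorem gg_nonempty (j x : ℕ) :
    {g | ∀ e, e ≤ x → ∀ v, v ≤ x → TT (j + 1) e v → ∃ u, u ≤ g ∧ ¬ TT j e (npr u v)}.Nonempty := by
  classical
  let f : ℕ × ℕ → ℕ := fun p => if h : ∃ u, ¬ TT j p.1 (npr u p.2) then h.choose else 0
  refine ⟨((Finset.range (x + 1)) ×ˢ (Finset.range (x + 1))).sup f, ?_⟩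
  intro e he v hv h
  have h' : ∃ u, ¬ TT j e (npr u v) := h
  have h2 : f (e, v) = h'.choose := by
    show (if h : ∃ u, ¬ TT j e (npr u v) then h.choose else 0) = _
    rw [dif_pos h']
  refine ⟨f (e, v), Finset.le_sup (f := f) ?_, ?_⟩
  · rw [Finset.mem_product, Finset.mem_range, Finset.mem_range]
    exact ⟨Nat.lt_succ_of_le he, Nat.lt_succ_of_le hv⟩
  · rw [h2]; exact h'.choose_spec

theorem gg_spec (j x e v : ℕ) (he : e ≤ x) (hv : v ≤ x) (h : TT (j + 1) e v) :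
    ∃ u, u ≤ GG j x ∧ ¬ TT j e (npr u v) := Nat.sInf_mem (gg_nonempty j x) e he v hv h

theorem gg_le (j x g : ℕ) (h : ∀ e, e ≤ x → ∀ v, v ≤ x → TT (j + 1) e v →
    ∃ u, u ≤ g ∧ ¬ TT j e (npr u v)) : GG j x ≤ g := Nat.sInf_le h

theorem gg_mono (j x y : ℕ) (h : x ≤ y) : GG j x ≤ GG j y :=
  gg_le j x _ fun e he v hv ht => gg_spec j y e v (he.trans h) (hv.trans h) ht

theorem ggBasics_proof : GGBasics := ⟨gg_spec, gg_mono, gg_le⟩

theorem chainLow_proof : ChainLow := by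
  intro j b k p h
  obtain ⟨b1, b2, rfl, ⟨h0, h1, h2⟩, h3⟩ := h
  have key : ∀ i, i ≤ k → ∀ y, npr i y ∈ BS b1 → twr j p i ≤ y := by
    intro i
    induction i with
    | zero => intro _ y hy; exact h0 y hy
    | succ i ih =>
      intro hi y' hy'
      obtain ⟨y, hy⟩ := h1 i (by omega)
      have h4 := ih (by omega) y hy
      obtain ⟨h5, h6⟩ := h2 i (by omega) y y' hy hy'
      have h7 : GG j y ≤ y' - 2 ^ y := by
        refine gg_le j y _ fun e he v hv ht => ?_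
        obtain ⟨z, hz, hz2⟩ := h6 e he v hv
        obtain ⟨h8, h9⟩ := h3 e v z hz
        have hz0 : z ≠ 0 := fun h => h8 h ht
        obtain ⟨u, rfl⟩ : ∃ u, z = u + 1 := ⟨z - 1, by omega⟩
        refine ⟨u, ?_, h9 u rfl⟩
        have := hz2 hz0
        omega
      have h8 : 2 ^ twr j p i ≤ 2 ^ y := Nat.pow_le_pow_right (by norm_num) h4
      have h9 : GG j (twr j p i) ≤ GG j y := gg_mono j _ _ h4
      show 2 ^ twr j p i + GG j (twr j p i) ≤ y'
      omega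
  obtain ⟨y, hy⟩ := h1 k le_rfl
  calc twr j p k ≤ y := key k le_rfl y hy
    _ ≤ npr k y := le_npr_right k y
    _ ≤ b1 := (BS_lt hy).le
    _ ≤ npr b1 b2 := le_npr_left b1 b2

theorem notISigma_proof : NotISigma := by
  intro M _ n I ⟨⟨h1, h2, h3, h4⟩, h5⟩ h6
  apply h2
  obtain ⟨x, hx⟩ := h1
  have h7 := h6 (fun v : Fin 1 → M => v 0 ∈ I) h5 (h3 x hx 0 (PAExp.zero_le' x))
    (fun x hx => h4 x hx)
  exact Set.eq_univ_of_forall h7

end Pool.Agent.BSN.H26
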