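import Pool.Agent.Helper37_BSig.Lib

/-!
# The models: initial segments of an ultrapower of `ℕ` given by a tower of functions
-/

namespace Pool.Agent.BSN

open Filter Pool.Agent.BSig

/-- The ultrafilter. -/
noncomputable def UU : Ultrafilter ℕ := hyperfilter ℕ

/-- Towers of functions growing at least exponentially. -/
structure Tower where
  /-- The levels of the tower. -/
  tow : ℕ → ℕ → ℕ
  tow_zero : ∀ n, tow 0 n = n + 2
  pow_le : ∀ k n, 2 ^ tow k n ≤ tow (k + 1) n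

section Tow

variable (τ : Tower)

theorem tow_lt_succ (k n : ℕ) : (Tower.tow τ) k n < (Tower.tow τ) (k + 1) n :=
  lt_of_lt_of_le Nat.lt_two_pow_self (τ.pow_le k n)

theorem tow_pos (k n : ℕ) : 2 ≤ (Tower.tow τ) k n := by
  induction k with
  | zero => simp [τ.tow_zero]
  | succ k ih =>
    have := tow_lt_succ τ k n
    omega

theorem tow_mono {k l : ℕ} (h : k ≤ l) (n : ℕ) : (Tower.tow τ) k n ≤ (Tower.tow τ) l n := by
  induction h with
  | refl => rfl
  | step _ ih => exact ih.trans (tow_lt_succ τ _ _).le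

theorem tow_two_mul (k n : ℕ) : 2 * (Tower.tow τ) k n ≤ (Tower.tow τ) (k + 1) n := by
  have h1 := tow_pos τ k n
  have h3 := τ.pow_le k n
  obtain ⟨c, hc⟩ : ∃ c, (Tower.tow τ) k n = c + 1 := ⟨(Tower.tow τ) k n - 1, by omega⟩
  have h4 : 2 * (Tower.tow τ) k n ≤ 2 ^ (Tower.tow τ) k n := by
    rw [hc, pow_succ]
    have : c + 1 ≤ 2 ^ c := Nat.lt_two_pow_self
    omega
  exact h4.trans h3

theorem tow_add {k l m n : ℕ} (hx : l < (Tower.tow τ) k n) (hy : m < (Tower.tow τ) k n) :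
    l + m < (Tower.tow τ) (k + 1) n := by
  have h2 := tow_two_mul τ k n
  omega

theorem tow_mul {k l m n : ℕ} (hx : l < (Tower.tow τ) k n) (hy : m < (Tower.tow τ) k n) :
    l * m < (Tower.tow τ) (k + 2) n := by
  have h0 := tow_pos τ k n
  have h2 : l * m < (Tower.tow τ) k n * (Tower.tow τ) k n := by nlinarith
  have e1 : (Tower.tow τ) k n * (Tower.tow τ) k n ≤ 2 ^ (2 * (Tower.tow τ) k n) := by
    have h4 : (Tower.tow τ) k n ≤ 2 ^ (Tower.tow τ) k n := Nat.lt_two_pow_self.le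
    calc (Tower.tow τ) k n * (Tower.tow τ) k n ≤ 2 ^ (Tower.tow τ) k n * 2 ^ (Tower.tow τ) k n := Nat.mul_le_mul h4 h4
      _ = 2 ^ (2 * (Tower.tow τ) k n) := by rw [← pow_add]; ring_nf
  have e2 : 2 ^ (2 * (Tower.tow τ) k n) ≤ 2 ^ (Tower.tow τ) (k + 1) n :=
    Nat.pow_le_pow_right (by norm_num) (tow_two_mul τ k n)
  exact lt_of_lt_of_le h2 (e1.trans (e2.trans (τ.pow_le (k + 1) n)))

end Tow

section Base

variable (τ : Tower)

/-- The underlying subsemiring of the ultrapower. -/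
def MSubt : Subsemiring (Germ (UU : Filter ℕ) ℕ) where
  carrier := {x | ∃ k, x < (((Tower.tow τ) k : ℕ → ℕ) : Germ (UU : Filter ℕ) ℕ)}
  zero_mem' := ⟨0, by
    have : (0 : Germ (UU : Filter ℕ) ℕ) = ((fun _ => 0 : ℕ → ℕ) : Germ (UU : Filter ℕ) ℕ) := rfl
    rw [this, Germ.coe_lt]
    exact Eventually.of_forall fun n => by simp [τ.tow_zero]⟩
  one_mem' := ⟨0, by
    have : (1 : Germ (UU : Filter ℕ) ℕ) = ((fun _ => 1 : ℕ → ℕ) : Germ (UU : Filter ℕ) ℕ) := rfl
    rw [this, Germ.coe_lt]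
    exact Eventually.of_forall fun n => by simp [τ.tow_zero]⟩
  add_mem' := by
    intro a b
    refine Germ.inductionOn₂ a b ?_
    rintro f g ⟨k, hk⟩ ⟨l, hl⟩
    refine ⟨max k l + 1, ?_⟩
    rw [← Germ.coe_add, Germ.coe_lt]
    rw [Germ.coe_lt] at hk hl
    filter_upwards [hk, hl] with n h1 h2
    exact tow_add τ (h1.trans_le (tow_mono τ (le_max_left _ _) _))
      (h2.trans_le (tow_mono τ (le_max_right _ _) _))
  mul_mem' := by
    intro a b
    refine Germ.inductionOn₂ a b ?_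
    rintro f g ⟨k, hk⟩ ⟨l, hl⟩
    refine ⟨max k l + 2, ?_⟩
    rw [← Germ.coe_mul, Germ.coe_lt]
    rw [Germ.coe_lt] at hk hl
    filter_upwards [hk, hl] with n h1 h2
    exact tow_mul τ (h1.trans_le (tow_mono τ (le_max_left _ _) _))
      (h2.trans_le (tow_mono τ (le_max_right _ _) _))

/-- The model. -/
def MMt : Type := MSubt τ

noncomputable instance : CommSemiring (MMt τ) := inferInstanceAs (CommSemiring (MSubt τ))
noncomputable instance : LinearOrder (MMt τ) := inferInstanceAs (LinearOrder (MSubt τ))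

/-- Bounded sequences. -/
def Bddt (f : ℕ → ℕ) : Prop := ∃ k, ∀ᶠ n in (UU : Filter ℕ), f n < (Tower.tow τ) k n

end Base

variable {τ : Tower}

/-- The element of the model given by a bounded sequence. -/
noncomputable def mk (f : ℕ → ℕ) (hf : (Bddt τ) f) : (MMt τ) :=
  ⟨(f : Germ (UU : Filter ℕ) ℕ), by
    obtain ⟨k, hk⟩ := hf; exact ⟨k, Germ.coe_lt.2 hk⟩⟩

/-- A representing sequence of an element of the model. -/
noncomputable def rep (x : (MMt τ)) : ℕ → ℕ := (Quotient.exists_rep (x.1 : Germ (UU : Filter ℕ) ℕ)).choose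

theorem coe_rep (x : (MMt τ)) : ((rep x : ℕ → ℕ) : Germ (UU : Filter ℕ) ℕ) = x.1 :=
  (Quotient.exists_rep (x.1 : Germ (UU : Filter ℕ) ℕ)).choose_spec

theorem bdd_rep (x : (MMt τ)) : (Bddt τ) (rep x) := by
  obtain ⟨k, hk⟩ := x.2
  exact ⟨k, Germ.coe_lt.1 (by rw [coe_rep]; exact hk)⟩

theorem mk_rep (x : (MMt τ)) : mk (rep x) (bdd_rep x) = x := Subtype.ext (coe_rep x)

theorem rep_mk (f : ℕ → ℕ) (hf : (Bddt τ) f) : rep (mk f hf) =ᶠ[(UU : Filter ℕ)] f :=
  Germ.coe_eq.1 (coe_rep (mk f hf))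

theorem mk_eq {f g : ℕ → ℕ} {hf : (Bddt τ) f} {hg : (Bddt τ) g} :
    mk f hf = mk g hg ↔ ∀ᶠ n in (UU : Filter ℕ), f n = g n := by
  constructor
  · intro h
    exact Germ.coe_eq.1 (congrArg Subtype.val h)
  · intro h
    exact Subtype.ext (Germ.coe_eq.2 h)

theorem mk_le {f g : ℕ → ℕ} {hf : (Bddt τ) f} {hg : (Bddt τ) g} :
    mk f hf ≤ mk g hg ↔ ∀ᶠ n in (UU : Filter ℕ), f n ≤ g n := Germ.coe_le

theorem mk_lt {f g : ℕ → ℕ} {hf : (Bddt τ) f} {hg : (Bddt τ) g} :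
    mk f hf < mk g hg ↔ ∀ᶠ n in (UU : Filter ℕ), f n < g n := Germ.coe_lt

theorem bdd_of_le {f g : ℕ → ℕ} (hg : (Bddt τ) g) (h : ∀ᶠ n in (UU : Filter ℕ), f n ≤ g n) : (Bddt τ) f := by
  obtain ⟨k, hk⟩ := hg
  exact ⟨k, by filter_upwards [hk, h] with n h1 h2; omega⟩

theorem bdd_add {f g : ℕ → ℕ} (hf : (Bddt τ) f) (hg : (Bddt τ) g) : (Bddt τ) (fun n => f n + g n) := by
  obtain ⟨k, hk⟩ := hf; obtain ⟨l, hl⟩ := hg
  refine ⟨max k l + 1, ?_⟩
  filter_upwards [hk, hl] with n h1 h2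
  exact tow_add τ (h1.trans_le (tow_mono τ (le_max_left _ _) _))
      (h2.trans_le (tow_mono τ (le_max_right _ _) _))

theorem bdd_mul {f g : ℕ → ℕ} (hf : (Bddt τ) f) (hg : (Bddt τ) g) : (Bddt τ) (fun n => f n * g n) := by
  obtain ⟨k, hk⟩ := hf; obtain ⟨l, hl⟩ := hg
  refine ⟨max k l + 2, ?_⟩
  filter_upwards [hk, hl] with n h1 h2
  exact tow_mul τ (h1.trans_le (tow_mono τ (le_max_left _ _) _))
      (h2.trans_le (tow_mono τ (le_max_right _ _) _))

theorem bdd_pow2 {f : ℕ → ℕ} (hf : (Bddt τ) f) : (Bddt τ) (fun n => 2 ^ f n) := by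
  obtain ⟨k, hk⟩ := hf
  refine ⟨k + 1, ?_⟩
  filter_upwards [hk] with n h1
  exact lt_of_lt_of_le (Nat.pow_lt_pow_right (by norm_num) h1) (τ.pow_le k n)

theorem bdd_const (c : ℕ) : (Bddt τ) (fun _ => c) := by
  refine ⟨0, ?_⟩
  have : ∀ᶠ n in (UU : Filter ℕ), c ≤ n := by
    have : (UU : Filter ℕ) ≤ atTop := by
      rw [← Nat.cofinite_eq_atTop]; exact hyperfilter_le_cofinite
    exact this (eventually_ge_atTop c)
  filter_upwards [this] with n hn
  rw [τ.tow_zero]; omega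

theorem bdd_tow (k : ℕ) : (Bddt τ) ((Tower.tow τ) k) :=
  ⟨k + 1, Eventually.of_forall fun n => tow_lt_succ τ k n⟩

theorem mk_add {f g : ℕ → ℕ} (hf : (Bddt τ) f) (hg : (Bddt τ) g) :
    mk f hf + mk g hg = mk (fun n => f n + g n) (bdd_add hf hg) := Subtype.ext rfl

theorem mk_mul {f g : ℕ → ℕ} (hf : (Bddt τ) f) (hg : (Bddt τ) g) :
    mk f hf * mk g hg = mk (fun n => f n * g n) (bdd_mul hf hg) := Subtype.ext rfl

theorem mk_zero : (0 : (MMt τ)) = mk (fun _ => 0) (bdd_const 0) := Subtype.ext rfl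

theorem mk_one : (1 : (MMt τ)) = mk (fun _ => 1) (bdd_const 1) := Subtype.ext rfl

/-- `2^x` in the model. -/
noncomputable def pw (x : (MMt τ)) : (MMt τ) := mk (fun n => 2 ^ rep x n) (bdd_pow2 (bdd_rep x))

theorem pw_mk {f : ℕ → ℕ} (hf : (Bddt τ) f) : pw (mk f hf) = mk (fun n => 2 ^ f n) (bdd_pow2 hf) := by
  rw [pw, mk_eq]
  filter_upwards [rep_mk f hf] with n hn
  rw [hn]

theorem exists_mk (x : (MMt τ)) : ∃ f, ∃ hf : (Bddt τ) f, x = mk f hf := ⟨rep x, bdd_rep x, (mk_rep x).symm⟩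

noncomputable instance : PAExp (MMt τ) where
  zero_le' := by
    intro x; obtain ⟨f, hf, rfl⟩ := exists_mk x
    rw [mk_zero, mk_le]; exact Eventually.of_forall fun _ => Nat.zero_le _
  discrete := by
    intro x y; obtain ⟨f, hf, rfl⟩ := exists_mk x; obtain ⟨g, hg, rfl⟩ := exists_mk y
    rw [mk_lt, mk_one, mk_add, mk_le]; rfl
  add_le_add' := by
    intro x y z h
    obtain ⟨f, hf, rfl⟩ := exists_mk x; obtain ⟨g, hg, rfl⟩ := exists_mk y
    obtain ⟨e, he, rfl⟩ := exists_mk z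
    rw [mk_le] at h
    rw [mk_add, mk_add, mk_le]
    filter_upwards [h] with n hn; omega
  mul_le_mul' := by
    intro x y z h
    obtain ⟨f, hf, rfl⟩ := exists_mk x; obtain ⟨g, hg, rfl⟩ := exists_mk y
    obtain ⟨e, he, rfl⟩ := exists_mk z
    rw [mk_le] at h
    rw [mk_mul, mk_mul, mk_le]
    filter_upwards [h] with n hn
    exact Nat.mul_le_mul_right _ hn
  add_cancel' := by
    intro x y z h
    obtain ⟨f, hf, rfl⟩ := exists_mk x; obtain ⟨g, hg, rfl⟩ := exists_mk y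
    obtain ⟨e, he, rfl⟩ := exists_mk z
    rw [mk_add, mk_add, mk_eq] at h
    rw [mk_eq]
    filter_upwards [h] with n hn; omega
  mul_pos' := by
    intro x y hx hy
    obtain ⟨f, hf, rfl⟩ := exists_mk x; obtain ⟨g, hg, rfl⟩ := exists_mk y
    rw [mk_zero, mk_lt] at hx hy
    rw [mk_zero, mk_mul, mk_lt]
    filter_upwards [hx, hy] with n h1 h2
    exact Nat.mul_pos h1 h2
  exists_add := by
    intro x y h
    obtain ⟨f, hf, rfl⟩ := exists_mk x; obtain ⟨g, hg, rfl⟩ := exists_mk y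
    rw [mk_le] at h
    refine ⟨mk (fun n => g n - f n) (bdd_of_le hg (Eventually.of_forall fun n => Nat.sub_le _ _)), ?_⟩
    rw [mk_add, mk_eq]
    filter_upwards [h] with n hn; omega
  zero_ne_one' := by
    rw [mk_zero, mk_one, Ne, mk_eq]
    intro h
    obtain ⟨n, hn⟩ := h.exists
    exact absurd hn (by norm_num)
  pow2 := pw
  pow2_zero := by
    rw [mk_zero, pw_mk, mk_one]; rfl
  pow2_succ := by
    intro x; obtain ⟨f, hf, rfl⟩ := exists_mk x
    have h2 : (2 : (MMt τ)) = mk (fun _ => 2) (bdd_const 2) := by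
      have : (2 : (MMt τ)) = 1 + 1 := by norm_num
      rw [this, mk_one, mk_add]
    rw [mk_one, mk_add, pw_mk, pw_mk, h2, mk_mul, mk_eq]
    exact Eventually.of_forall fun n => by ring

end Pool.Agent.BSN
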