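import Pool.Agent.Helper26_BSN.Defs2

/-!
# NAT: the pairing and membership on `ℕ`
-/

namespace Pool.Agent.BSN.H26

open Filter Cardinal Pool.Agent.BSig Pool.Agent.BSN

theorem sqrt_npr (a b : ℕ) : Nat.sqrt (npr a b) = a + b := by
  symm
  rw [Nat.eq_sqrt]
  unfold npr
  constructor
  · omega
  · have : (a + b + 1) * (a + b + 1) = (a + b) * (a + b) + 2 * (a + b) + 1 := by ring
    omega

theorem lf_npr (a b : ℕ) : lf (npr a b) = a := by
  unfold lf; rw [sqrt_npr]; unfold npr; omega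

theorem rt_npr (a b : ℕ) : rt (npr a b) = b := by
  unfold rt; rw [sqrt_npr, lf_npr]; omega

theorem lf_le (x : ℕ) : lf x ≤ x := Nat.sub_le _ _

theorem rt_le (x : ℕ) : rt x ≤ x := (Nat.sub_le _ _).trans (Nat.sqrt_le_self x)

theorem npr_inj {a b c d : ℕ} (h : npr a b = npr c d) : a = c ∧ b = d := nat_pr_inj h

theorem npr_mono {a b c d : ℕ} (h1 : a ≤ c) (h2 : b ≤ d) : npr a b ≤ npr c d := by
  unfold npr
  have h3 : a + b ≤ c + d := by omega
  have := Nat.mul_le_mul h3 h3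
  omega

theorem le_npr_left (a b : ℕ) : a ≤ npr a b := by unfold npr; omega

theorem le_npr_right (a b : ℕ) : b ≤ npr a b := by
  unfold npr
  rcases Nat.eq_zero_or_pos b with h | h
  · omega
  · have : 1 * (a + b) ≤ (a + b) * (a + b) := Nat.mul_le_mul (by omega) le_rfl
    omega

theorem BS_lt {W t : ℕ} (h : t ∈ BS W) : t < W :=
  lt_of_lt_of_le Nat.lt_two_pow_self (testBit_lt h)

theorem isTerm_npr {k : ℕ} {f g : (Fin k → ℕ) → ℕ} (hf : IsTerm f) (hg : IsTerm g) :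
    IsTerm (fun v => npr (f v) (g v)) := ((hf.add hg).mul (hf.add hg)).add hf

theorem isTerm_fc {k : ℕ} {f g h : (Fin k → ℕ) → ℕ} (hf : IsTerm f) (hg : IsTerm g)
    (hh : IsTerm h) : IsTerm (fun v => fc (f v) (g v) (h v)) := isTerm_npr hf (isTerm_npr hg hh)

theorem delta_mem {k : ℕ} {f g : (Fin k → ℕ) → ℕ} (hf : IsTerm f) (hg : IsTerm g) :
    IsDelta0 (fun v => f v ∈ BS (g v)) := by
  refine (IsDelta0.ex hg (Q := fun q v => ∃ r, r ≤ g v ∧ (g v = q * 2 ^ (f v + 1) + 2 ^ f v + r ∧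
    r < 2 ^ f v)) ?_).congr fun v => ?_
  · refine IsDelta0.ex hg.tail ?_
    refine IsDelta0.and (IsDelta0.eq hg.tail.tail ?_) (IsDelta0.lt (IsTerm.var 0) hf.tail.tail.pow2)
    exact (((IsTerm.var 1).mul (hf.tail.tail.add (IsTerm.param 1)).pow2).add
      hf.tail.tail.pow2).add (IsTerm.var 0)
  · show (g v).testBit (f v) = true ↔ _
    rw [nat_mem_iff]
    constructor
    · rintro ⟨q, r, h1, h2⟩
      refine ⟨q, ?_, r, ?_, h1, h2⟩
      · have : q * 1 ≤ q * 2 ^ (f v + 1) := Nat.mul_le_mul le_rfl Nat.one_le_two_pow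
        omega
      · omega
    · rintro ⟨q, _, r, _, h1, h2⟩
      exact ⟨q, r, h1, h2⟩

theorem lf_iff (a x : ℕ) : a = lf x ↔ ∃ q, q ≤ x ∧ (q * q ≤ x ∧ x < (q + 1) * (q + 1) ∧
    x = q * q + a) := by
  constructor
  · rintro rfl
    refine ⟨Nat.sqrt x, Nat.sqrt_le_self x, Nat.sqrt_le x, Nat.lt_succ_sqrt x, ?_⟩
    unfold lf
    have := Nat.sqrt_le x
    omega
  · rintro ⟨q, _, h1, h2, h3⟩
    have : q = Nat.sqrt x := by rw [Nat.eq_sqrt]; exact ⟨h1, h2⟩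
    subst this
    unfold lf
    omega

theorem rt_iff (b x : ℕ) : b = rt x ↔ ∃ q, q ≤ x ∧ (q * q ≤ x ∧ x < (q + 1) * (q + 1) ∧
    ∃ a, a ≤ x ∧ (x = q * q + a ∧ (a + b = q ∨ (q < a ∧ b = 0)))) := by
  constructor
  · rintro rfl
    refine ⟨Nat.sqrt x, Nat.sqrt_le_self x, Nat.sqrt_le x, Nat.lt_succ_sqrt x, lf x, lf_le x, ?_, ?_⟩
    · unfold lf
      have := Nat.sqrt_le x
      omega
    · unfold rt
      omega
  · rintro ⟨q, _, h1, h2, a, _, h3, h4⟩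
    have : q = Nat.sqrt x := by rw [Nat.eq_sqrt]; exact ⟨h1, h2⟩
    subst this
    have h5 : lf x = a := by unfold lf; omega
    unfold rt
    rw [h5]
    omega

theorem delta_lf {k : ℕ} {f g : (Fin k → ℕ) → ℕ} (hf : IsTerm f) (hg : IsTerm g) :
    IsDelta0 (fun v => f v = lf (g v)) := by
  refine (IsDelta0.ex hg (Q := fun q v => (q * q ≤ g v ∧ g v < (q + 1) * (q + 1) ∧
    g v = q * q + f v)) ?_).congr fun v => lf_iff _ _
  have q0 : IsTerm (fun w : Fin (k + 1) → ℕ => w 0) := IsTerm.var 0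
  have q1 : IsTerm (fun w : Fin (k + 1) → ℕ => w 0 + 1) := q0.add (IsTerm.param 1)
  exact (IsDelta0.le (q0.mul q0) hg.tail).and ((IsDelta0.lt hg.tail (q1.mul q1)).and
    (IsDelta0.eq hg.tail ((q0.mul q0).add hf.tail)))

theorem delta_rt {k : ℕ} {f g : (Fin k → ℕ) → ℕ} (hf : IsTerm f) (hg : IsTerm g) :
    IsDelta0 (fun v => f v = rt (g v)) := by
  refine (IsDelta0.ex hg (Q := fun q v => (q * q ≤ g v ∧ g v < (q + 1) * (q + 1) ∧
    ∃ a, a ≤ g v ∧ (g v = q * q + a ∧ (a + f v = q ∨ (q < a ∧ f v = 0))))) ?_).congr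
    fun v => rt_iff _ _
  have q0 : IsTerm (fun w : Fin (k + 1) → ℕ => w 0) := IsTerm.var 0
  have q1 : IsTerm (fun w : Fin (k + 1) → ℕ => w 0 + 1) := q0.add (IsTerm.param 1)
  refine (IsDelta0.le (q0.mul q0) hg.tail).and ((IsDelta0.lt hg.tail (q1.mul q1)).and ?_)
  refine IsDelta0.ex hg.tail (Q := fun a w => g (Fin.tail w) = w 0 * w 0 + a ∧
    (a + f (Fin.tail w) = w 0 ∨ (w 0 < a ∧ f (Fin.tail w) = 0))) ?_
  have a0 : IsTerm (fun w : Fin (k + 1 + 1) → ℕ => w 0) := IsTerm.var 0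
  have p0 : IsTerm (fun w : Fin (k + 1 + 1) → ℕ => Fin.tail w 0) := q0.tail
  exact (IsDelta0.eq hg.tail.tail ((p0.mul p0).add a0)).and
    ((IsDelta0.eq (a0.add hf.tail.tail) p0).or
      ((IsDelta0.lt p0 a0).and (IsDelta0.eq hf.tail.tail (IsTerm.param 0))))

theorem natStmt_proof : NatStmt :=
  ⟨lf_npr, rt_npr, lf_le, rt_le, fun _ _ _ _ h => npr_inj h, fun _ _ _ _ h1 h2 => npr_mono h1 h2,
    fun a b => ⟨le_npr_left a b, le_npr_right a b⟩, fun _ _ h => BS_lt h,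
    delta_lf (IsTerm.var 0) (IsTerm.var 1), delta_rt (IsTerm.var 0) (IsTerm.var 1),
    delta_mem (IsTerm.var 0) (IsTerm.var 1)⟩

end Pool.Agent.BSN.H26
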