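import Pool.Agent.Helper1_BSN.Snd
import Pool.Agent.Helper20_BSN.Claim1
import Pool.Agent.Helper20_BSN.QFresh
import Pool.Agent.Helper48_BSN.Sci
import Pool.Agent.Helper4_BSN.Neq
import Pool.Agent.Helper4_BSN.Sg
import Pool.Agent.Helper50_BSN.Qb1
import Pool.Agent.Helper50_BSN.Uw
import Pool.Agent.Helper59_BSN.Fs1
import Pool.Agent.Helper59_BSN.Om
import Pool.Agent.Helper63_BSN.Frc
import Pool.Agent.Helper63_BSN.Pos
import Pool.Agent.Helper70_BSN.FF
import Pool.Agent.Helper70_BSN.Qys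
import Pool.Agent.Helper75_BSN.Coi
import Pool.Agent.Helper76_BSN.QB
import Pool.Agent.Helper81_BSN.Mono
import Pool.Agent.Helper93_BSN.Beat
import Pool.Agent.Helper93_BSN.Dbi
import Pool.Agent.Helper97_BSN.Thr
import Pool.Agent.Helper97_BSN.Unb
import Pool.Agent.Helper26_BSN.Rep
import Pool.Agent.Helper26_BSN.Card
import Pool.Agent.Helper26_BSN.Code
import Pool.Agent.Helper26_BSN.RedB
import Pool.Agent.Helper26_BSN.DerJ
import Pool.Agent.Helper26_BSN.FactW
import Pool.Agent.Helper26_BSN.RedX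
import Pool.Agent.Helper70_BSig.LemmaDK
import Pool.Agent.Helper75_BSig.Rep
import Pool.Agent.Helper21_BSig.LemmaGen

/-!
# Assembly of part 1
-/

namespace Pool.Agent.BSN

open Pool.Agent.BSig

theorem part1 (τ : Tower) (hSC : SCStmt τ)
    (hCO : BeatStmt τ → LemmaGen → DerBI τ → DerJoin τ → RedXor τ → FactW τ → CardStmt τ →
      CardDelta τ → RedBasics τ → RepBasics τ → Claim2 τ)
    (hCL2 : CoiStmt τ → PosStmt τ → Claim2D τ) :
    NeqStmt τ := by
  have hRep : RepBasics τ := H75.repBasics_proof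
  have hCard : CardStmt τ := H87.cardStmt_proof
  have hCD : CardDelta τ := H87.cardDelta_proof
  have hCode : CodeStmt τ := codeStmt_proof
  have hRed : RedBasics τ := H14.redBasics_proof
  have hDJ : DerJoin τ := H92.derJoin
  have hFW : FactW τ := factW_proof
  have hRX : RedXor τ := H7.redXor_proof
  have hSci : SciStmt τ := H48.sci hSC
  have hInf : InfStmt τ := H59.inf_proof
  have hOm : OmegaStmt τ := H59.om_proof
  have hMono : MonoStmt τ := H81.mono
  have hFrc : FrcStmt τ := H63.frcStmt_proof hRep hMono hSci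
  have hFS1 : FreshS1 τ := H59.fs1_proof hSci hRep hCard
  have hFF : FamFresh τ := H70.ff hFS1 hMono hRep
  have hQYS : QYStmt τ := H70.qys hFrc hMono hSci hRep
  have hQF : QFresh τ := H20.qFresh hQYS hFS1 hMono hSci hRep
  have hLK : LemmaK := Pool.Agent.BSig.Helper70.lemmaK_proof
  have hLD : LemmaD := Pool.Agent.BSig.Helper70.lemmaD_proof
  have hSnd : SoundStmt τ := H1.snd hLD hLK hFF
  have hQB1 : QBdd1 τ := H50.qb1 hLK hQF hQYS hSC hCode
  have hQB : QBdd τ := H76.qb hQB1 hQYS hInf hMono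
  have hUW : UnbeatW τ := H50.uw hSnd hQB hQF hLK hCode hMono hSci hFrc
  have hBeat : BeatStmt τ := H93.beat hUW Pool.Agent.BSig.H75.lemmaLim_proof hMono
  have hDBI : DerBI τ := H93.dbi hDJ hMono hSci
  have hGen : LemmaGen := Pool.Agent.BSig.H21.lemmaGen_proof
  have hC2 : Claim2 τ := hCO hBeat hGen hDBI hDJ hRX hFW hCard hCD hRed hRep
  have hSG : SigmaLemma τ := H4.sg
  have hThr : ThrStmt τ := H97.thr hSG hDJ hCode
  have hCL1 : Claim1 τ := H20.claim1 hThr hDJ hCode
  have hUnb : UnbStmt τ := H97.unb hSG hCode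
  have hCoi : CoiStmt τ := H75.coi hInf hCode
  have hPos : PosStmt τ := H63.pos hUnb hInf
  exact H4.neq hCL1 (hCL2 hCoi hPos) hC2 hRed hOm

end Pool.Agent.BSN
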