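import Pool.Agent.Helper26_BSN.Stmts

/-!
# The set `H = G xor T_A`
-/

namespace Pool.Agent.BSN.H7

open Filter Pool.Agent.BSig Pool.Agent.BSN

variable {τ : Tower}

/-- Parity. -/
theorem par_inj {a b i j : (MMt τ)} (hi : i = 0 ∨ i = 1) (hj : j = 0 ∨ j = 1)
    (h : 2 * a + i = 2 * b + j) : a = b ∧ i = j := by
  have h2 : (2 : (MMt τ)) = mk (fun _ => 2) (bdd_const 2) := by
    rw [← natCast_mk]; norm_num
  obtain ⟨a, ha, rfl⟩ := exists_mk a; obtain ⟨b, hb, rfl⟩ := exists_mk b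
  have hi' : ∃ i' : ℕ, i' ≤ 1 ∧ i = mk (fun _ => i') (bdd_const i') := by
    rcases hi with rfl | rfl
    · exact ⟨0, by omega, mk_zero⟩
    · exact ⟨1, by omega, mk_one⟩
  have hj' : ∃ i' : ℕ, i' ≤ 1 ∧ j = mk (fun _ => i') (bdd_const i') := by
    rcases hj with rfl | rfl
    · exact ⟨0, by omega, mk_zero⟩
    · exact ⟨1, by omega, mk_one⟩
  obtain ⟨i', hi1, rfl⟩ := hi'
  obtain ⟨j', hj1, rfl⟩ := hj'
  rw [h2, mk_mul, mk_mul, mk_add, mk_add, mk_eq] at h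
  rw [mk_eq, mk_eq, ← eventually_and]
  refine h.mono fun n hn => ?_
  omega

theorem par_ex (x : (MMt τ)) : ∃ K i : (MMt τ), x = 2 * K + i ∧ (i = 0 ∨ i = 1) := by
  have h2 : (2 : (MMt τ)) = mk (fun _ => 2) (bdd_const 2) := by
    rw [← natCast_mk]; norm_num
  obtain ⟨a, ha, rfl⟩ := exists_mk x
  have hb : (Bddt τ) (fun n => a n / 2) :=
    bdd_of_le ha (Eventually.of_forall fun n => Nat.div_le_self _ _)
  rcases Ultrafilter.eventually_or.1 (Eventually.of_forall (f := (UU : Filter ℕ))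
    fun n => Nat.mod_two_eq_zero_or_one (a n)) with h | h
  · refine ⟨mk _ hb, 0, ?_, Or.inl rfl⟩
    rw [h2, mk_mul, mk_zero, mk_add, mk_eq]
    refine h.mono fun n hn => ?_
    omega
  · refine ⟨mk _ hb, 1, ?_, Or.inr rfl⟩
    rw [h2, mk_mul, mk_one, mk_add, mk_eq]
    refine h.mono fun n hn => ?_
    omega

theorem two_inj {x y : (MMt τ)} (h : 2 * x = 2 * y) : x = y :=
  (par_inj (Or.inl rfl) (Or.inl rfl) (by rw [add_zero, add_zero]; exact h)).1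

theorem two1_inj {x y : (MMt τ)} (h : 2 * x + 1 = 2 * y + 1) : x = y :=
  (par_inj (Or.inr rfl) (Or.inr rfl) h).1

theorem two_ne {x y : (MMt τ)} : 2 * x ≠ 2 * y + 1 := by
  intro h
  have := (par_inj (i := 0) (j := 1) (Or.inl rfl) (Or.inr rfl) (by rw [add_zero]; exact h)).2
  exact PAExp.zero_ne_one' this

theorem mem_jn0 {A B : Set (MMt τ)} {x : (MMt τ)} : 2 * x ∈ jn A B ↔ x ∈ A := by
  constructor
  · rintro (⟨z, hz, h⟩ | ⟨z, hz, h⟩)
    · rw [two_inj h]; exact hz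
    · exact absurd h two_ne
  · exact fun h => Or.inl ⟨x, h, rfl⟩

theorem mem_jn1 {A B : Set (MMt τ)} {x : (MMt τ)} : 2 * x + 1 ∈ jn A B ↔ x ∈ B := by
  constructor
  · rintro (⟨z, hz, h⟩ | ⟨z, hz, h⟩)
    · exact absurd h.symm two_ne
    · rw [two1_inj h]; exact hz
  · exact fun h => Or.inr ⟨x, h, rfl⟩

theorem fact_iff {A : Set (MMt τ)} {K i : (MMt τ)} (hi : i = 0 ∨ i = 1) :
    Fact A (2 * K + i) ↔ decode K ⊆ sgn A i := by
  constructor
  · rintro ⟨K', i', h, hi', h2⟩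
    obtain ⟨rfl, rfl⟩ := par_inj hi hi' h
    exact h2
  · exact fun h => ⟨K, i, rfl, hi, h⟩

theorem exists_union (a b : (MMt τ)) : ∃ e : (MMt τ), ∀ x, Mem x e ↔ Mem x a ∨ Mem x b := by
  have h : Int1 (fun x => Mem x a ∨ Mem x b) :=
    Int1.of_delta0 ((IsDelta0.mem (IsTerm.var 0) (IsTerm.param a)).or
      (IsDelta0.mem (IsTerm.var 0) (IsTerm.param b)))
  obtain ⟨e, _, he⟩ := h.code (a + b)
  refine ⟨e, fun x => ?_⟩
  rw [he]
  refine ⟨fun h => h.2, fun h => ⟨?_, h⟩⟩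
  rcases h with h | h
  · exact (mem_lt h).trans_le (le_add_right' _ _)
  · exact (mem_lt h).trans_le (le_add_left' _ _)

/-- Merging of witnesses. -/
theorem merge2 {J : Set (MMt τ)} {C D : (MMt τ) → (MMt τ) → Prop}
    (mC : ∀ p q p' q', decode p ⊆ decode p' → decode q ⊆ decode q' → C p q → C p' q')
    (mD : ∀ p q p' q', decode p ⊆ decode p' → decode q ⊆ decode q' → D p q → D p' q')
    (hC : ∃ p q, decode p ⊆ J ∧ decode q ⊆ Jᶜ ∧ C p q)
    (hD : ∃ p q, decode p ⊆ J ∧ decode q ⊆ Jᶜ ∧ D p q) :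
    ∃ p q, decode p ⊆ J ∧ decode q ⊆ Jᶜ ∧ (C p q ∧ D p q) := by
  obtain ⟨p, q, h1, h2, h3⟩ := hC
  obtain ⟨p', q', h1', h2', h3'⟩ := hD
  obtain ⟨P, hP⟩ := exists_union p p'
  obtain ⟨Q, hQ⟩ := exists_union q q'
  refine ⟨P, Q, ?_, ?_, mC p q P Q ?_ ?_ h3, mD p' q' P Q ?_ ?_ h3'⟩
  · intro x hx
    rcases (hP x).1 hx with h | h
    · exact h1 h
    · exact h1' h
  · intro x hx
    rcases (hQ x).1 hx with h | h
    · exact h2 h
    · exact h2' h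
  · exact fun x hx => (hP x).2 (Or.inl hx)
  · exact fun x hx => (hQ x).2 (Or.inl hx)
  · exact fun x hx => (hP x).2 (Or.inr hx)
  · exact fun x hx => (hQ x).2 (Or.inr hx)

theorem mergeS {J : Set (MMt τ)} (S : Finset (MMt τ)) {C : (MMt τ) → (MMt τ) → (MMt τ) → Prop}
    (mC : ∀ x p q p' q', decode p ⊆ decode p' → decode q ⊆ decode q' → C x p q → C x p' q')
    (hC : ∀ x ∈ S, ∃ p q, decode p ⊆ J ∧ decode q ⊆ Jᶜ ∧ C x p q) :
    ∃ p q, decode p ⊆ J ∧ decode q ⊆ Jᶜ ∧ ∀ x ∈ S, C x p q := by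
  classical
  induction S using Finset.induction_on with
  | empty =>
    obtain ⟨e, he⟩ := exists_code_finset ∅
    refine ⟨e, e, ?_, ?_, fun x hx => absurd hx (Finset.notMem_empty x)⟩
    · intro x hx; exact absurd ((he x).1 hx) (Finset.notMem_empty x)
    · intro x hx; exact absurd ((he x).1 hx) (Finset.notMem_empty x)
  | insert a s ha ih =>
    obtain ⟨p, q, h1, h2, h3, h4⟩ := merge2 (C := C a) (D := fun p q => ∀ x ∈ s, C x p q)
      (mC a) (fun p q p' q' hp hq h x hx => mC x p q p' q' hp hq (h x hx))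
      (hC a (Finset.mem_insert_self _ _)) (ih fun x hx => hC x (Finset.mem_insert_of_mem hx))
    refine ⟨p, q, h1, h2, fun x hx => ?_⟩
    rcases Finset.mem_insert.1 hx with rfl | hx
    · exact h3
    · exact h4 x hx

/-- The fact `2K+i` is verified by `p`, `q`. -/
def PosP (K i p q : (MMt τ)) : Prop :=
  (i = 1 ∧ ∀ z, z ≤ K → (Mem z K → Mem (2 * z + 1) p)) ∨
    (i = 0 ∧ ∀ z, z ≤ K → (Mem z K → Mem (2 * z + 1) q))

/-- The fact `2K+i` is refuted by `p`, `q`. -/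
def NegP (K i p q : (MMt τ)) : Prop :=
  (i = 1 ∧ ∃ z, z ≤ K ∧ (Mem z K ∧ Mem (2 * z + 1) q)) ∨
    (i = 0 ∧ ∃ z, z ≤ K ∧ (Mem z K ∧ Mem (2 * z + 1) p))

theorem posP_mono (K i p q p' q' : (MMt τ)) (h1 : decode p ⊆ decode p') (h2 : decode q ⊆ decode q')
    (h : PosP K i p q) : PosP K i p' q' := by
  rcases h with ⟨hi, h⟩ | ⟨hi, h⟩
  · exact Or.inl ⟨hi, fun z hz hm => h1 (h z hz hm)⟩
  · exact Or.inr ⟨hi, fun z hz hm => h2 (h z hz hm)⟩

theorem negP_mono (K i p q p' q' : (MMt τ)) (h1 : decode p ⊆ decode p') (h2 : decode q ⊆ decode q')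
    (h : NegP K i p q) : NegP K i p' q' := by
  rcases h with ⟨hi, z, hz, hm, h⟩ | ⟨hi, z, hz, hm, h⟩
  · exact Or.inl ⟨hi, z, hz, hm, h2 h⟩
  · exact Or.inr ⟨hi, z, hz, hm, h1 h⟩

theorem delta_posP {n : ℕ} {K i p q : (Fin n → (MMt τ)) → (MMt τ)} (hK : IsTerm K) (hi : IsTerm i)
    (hp : IsTerm p) (hq : IsTerm q) : IsDelta0 (fun v => PosP (K v) (i v) (p v) (q v)) := by
  refine IsDelta0.or ((IsDelta0.eq hi (IsTerm.param 1)).and ?_)
    ((IsDelta0.eq hi (IsTerm.param 0)).and ?_)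
  · refine IsDelta0.all hK ?_
    exact (IsDelta0.mem (IsTerm.var 0) hK.tail).imp
      (IsDelta0.mem ((IsTerm.var 0).twomul.addc 1) hp.tail)
  · refine IsDelta0.all hK ?_
    exact (IsDelta0.mem (IsTerm.var 0) hK.tail).imp
      (IsDelta0.mem ((IsTerm.var 0).twomul.addc 1) hq.tail)

theorem delta_negP {n : ℕ} {K i p q : (Fin n → (MMt τ)) → (MMt τ)} (hK : IsTerm K) (hi : IsTerm i)
    (hp : IsTerm p) (hq : IsTerm q) : IsDelta0 (fun v => NegP (K v) (i v) (p v) (q v)) := by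
  refine IsDelta0.or ((IsDelta0.eq hi (IsTerm.param 1)).and ?_)
    ((IsDelta0.eq hi (IsTerm.param 0)).and ?_)
  · refine IsDelta0.ex hK ?_
    exact (IsDelta0.mem (IsTerm.var 0) hK.tail).and
      (IsDelta0.mem ((IsTerm.var 0).twomul.addc 1) hq.tail)
  · refine IsDelta0.ex hK ?_
    exact (IsDelta0.mem (IsTerm.var 0) hK.tail).and
      (IsDelta0.mem ((IsTerm.var 0).twomul.addc 1) hp.tail)

/-- The membership (`i = 1`) or non-membership (`i = 0`) of `x` in `H` is verified. -/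
def CC (i x p q : (MMt τ)) : Prop :=
  ∃ L, L ≤ x ∧ ∃ j, j ≤ x ∧ (x = 2 * L + j ∧ (j = 0 ∨ j = 1) ∧
    ((i = 1 ∧ ((Mem (2 * x) p ∧ NegP L j p q) ∨ (Mem (2 * x) q ∧ PosP L j p q))) ∨
     (i = 0 ∧ ((Mem (2 * x) p ∧ PosP L j p q) ∨ (Mem (2 * x) q ∧ NegP L j p q)))))

theorem cC_mono (i x p q p' q' : (MMt τ)) (h1 : decode p ⊆ decode p') (h2 : decode q ⊆ decode q')
    (h : CC i x p q) : CC i x p' q' := by
  obtain ⟨L, hL, j, hj, hx, hj', h⟩ := h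
  refine ⟨L, hL, j, hj, hx, hj', ?_⟩
  rcases h with ⟨hi, ⟨h, h'⟩ | ⟨h, h'⟩⟩ | ⟨hi, ⟨h, h'⟩ | ⟨h, h'⟩⟩
  · exact Or.inl ⟨hi, Or.inl ⟨h1 h, negP_mono _ _ _ _ _ _ h1 h2 h'⟩⟩
  · exact Or.inl ⟨hi, Or.inr ⟨h2 h, posP_mono _ _ _ _ _ _ h1 h2 h'⟩⟩
  · exact Or.inr ⟨hi, Or.inl ⟨h1 h, posP_mono _ _ _ _ _ _ h1 h2 h'⟩⟩
  · exact Or.inr ⟨hi, Or.inr ⟨h2 h, negP_mono _ _ _ _ _ _ h1 h2 h'⟩⟩

theorem delta_CC {n : ℕ} {i x p q : (Fin n → (MMt τ)) → (MMt τ)} (hi : IsTerm i) (hx : IsTerm x)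
    (hp : IsTerm p) (hq : IsTerm q) : IsDelta0 (fun v => CC (i v) (x v) (p v) (q v)) := by
  refine IsDelta0.ex hx ?_
  refine IsDelta0.ex hx.tail ?_
  -- 0 = j, 1 = L
  refine (IsDelta0.eq hx.tail.tail ((IsTerm.var 1).twomul.add (IsTerm.var 0))).and ?_
  refine ((IsDelta0.eq (IsTerm.var 0) (IsTerm.param 0)).or
    (IsDelta0.eq (IsTerm.var 0) (IsTerm.param 1))).and ?_
  have a1 := IsDelta0.mem hx.tail.tail.twomul hp.tail.tail
  have a2 := IsDelta0.mem hx.tail.tail.twomul hq.tail.tail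
  have b1 := delta_posP (IsTerm.var 1) (IsTerm.var 0) hp.tail.tail hq.tail.tail
  have b2 := delta_negP (IsTerm.var 1) (IsTerm.var 0) hp.tail.tail hq.tail.tail
  exact ((IsDelta0.eq hi.tail.tail (IsTerm.param 1)).and ((a1.and b2).or (a2.and b1))).or
    ((IsDelta0.eq hi.tail.tail (IsTerm.param 0)).and ((a1.and b1).or (a2.and b2)))

section

variable {A G : Set (MMt τ)}

theorem posP_sound {L j p q : (MMt τ)} (h1 : decode p ⊆ jn G A) (h2 : decode q ⊆ (jn G A)ᶜ)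
    (h : PosP L j p q) : decode L ⊆ sgn A j := by
  intro z hz
  have hzL : z ≤ L := (mem_lt hz).le
  rcases h with ⟨rfl, h⟩ | ⟨rfl, h⟩
  · exact Or.inl ⟨rfl, mem_jn1.1 (h1 (h z hzL hz))⟩
  · exact Or.inr ⟨rfl, fun hA => h2 (h z hzL hz) (mem_jn1.2 hA)⟩

theorem negP_sound {L j p q : (MMt τ)} (h1 : decode p ⊆ jn G A) (h2 : decode q ⊆ (jn G A)ᶜ)
    (h : NegP L j p q) : ¬ decode L ⊆ sgn A j := by
  intro hs
  rcases h with ⟨rfl, z, hzL, hz, h⟩ | ⟨rfl, z, hzL, hz, h⟩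
  · rcases hs hz with ⟨_, hA⟩ | ⟨h0, _⟩
    · exact h2 h (mem_jn1.2 hA)
    · exact PAExp.zero_ne_one' h0.symm
  · rcases hs hz with ⟨h0, _⟩ | ⟨_, hA⟩
    · exact PAExp.zero_ne_one' h0
    · exact hA (mem_jn1.1 (h1 h))

theorem exists_one (z : (MMt τ)) : ∃ e : (MMt τ), ∀ x, Mem x e ↔ x = z := by
  obtain ⟨e, he⟩ := exists_code_finset {z}
  exact ⟨e, fun x => by rw [he, Finset.mem_singleton]⟩

theorem exists_none : ∃ e : (MMt τ), ∀ x, ¬ Mem x e := by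
  obtain ⟨e, he⟩ := exists_code_finset ∅
  exact ⟨e, fun x => by rw [he]; exact Finset.notMem_empty x⟩

theorem exists_shift (L : (MMt τ)) : ∃ e : (MMt τ), ∀ x, Mem x e ↔ ∃ z, Mem z L ∧ x = 2 * z + 1 := by
  have h : Int1 (fun x => ∃ z, z ≤ L ∧ (Mem z L ∧ x = 2 * z + 1)) := by
    refine Int1.of_delta0 (P := fun x => ∃ z, z ≤ L ∧ (Mem z L ∧ x = 2 * z + 1)) ?_
    refine IsDelta0.ex (IsTerm.param L) ?_
    exact (IsDelta0.mem (IsTerm.var 0) (IsTerm.param L)).and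
      (IsDelta0.eq (IsTerm.var 1) ((IsTerm.var 0).twomul.addc 1))
  obtain ⟨e, _, he⟩ := h.code (2 * L + 1)
  refine ⟨e, fun x => ?_⟩
  rw [he]
  constructor
  · rintro ⟨_, z, _, hz, hx⟩; exact ⟨z, hz, hx⟩
  · rintro ⟨z, hz, rfl⟩
    refine ⟨?_, z, (mem_lt hz).le, hz, rfl⟩
    have h1 := (PAExp.discrete _ _).1 (mem_lt hz)
    have h2 : 2 * (z + 1) ≤ 2 * L := by
      rw [mul_comm 2, mul_comm 2]; exact PAExp.mul_le_mul' _ _ 2 h1
    have h3 : 2 * z + 1 + 1 ≤ 2 * L := by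
      have : 2 * z + 1 + 1 = 2 * (z + 1) := by ring
      rw [this]; exact h2
    exact ((PAExp.discrete _ _).2 h3).trans_le (le_add_right' _ _)

theorem bit_pos {x : (MMt τ)} (h : x ∈ G) :
    ∃ p q, decode p ⊆ jn G A ∧ decode q ⊆ (jn G A)ᶜ ∧ Mem (2 * x) p := by
  obtain ⟨p, hp⟩ := exists_one (2 * x)
  obtain ⟨q, hq⟩ := exists_none
  refine ⟨p, q, ?_, fun y hy => absurd hy (hq y), (hp _).2 rfl⟩
  intro y hy
  rw [(hp y).1 hy]
  exact mem_jn0.2 h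

theorem bit_neg {x : (MMt τ)} (h : x ∉ G) :
    ∃ p q, decode p ⊆ jn G A ∧ decode q ⊆ (jn G A)ᶜ ∧ Mem (2 * x) q := by
  obtain ⟨q, hq⟩ := exists_one (2 * x)
  obtain ⟨p, hp⟩ := exists_none
  refine ⟨p, q, fun y hy => absurd hy (hp y), ?_, (hq _).2 rfl⟩
  intro y hy
  rw [(hq y).1 hy]
  exact fun h' => h (mem_jn0.1 h')

theorem posP_ex {L j : (MMt τ)} (hj : j = 0 ∨ j = 1) (h : decode L ⊆ sgn A j) :
    ∃ p q, decode p ⊆ jn G A ∧ decode q ⊆ (jn G A)ᶜ ∧ PosP L j p q := by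
  obtain ⟨e, he⟩ := exists_shift L
  obtain ⟨f, hf⟩ := exists_none
  rcases hj with rfl | rfl
  · refine ⟨f, e, fun y hy => absurd hy (hf y), ?_, Or.inr ⟨rfl, fun z _ hz => (he _).2 ⟨z, hz, rfl⟩⟩⟩
    intro y hy
    obtain ⟨z, hz, rfl⟩ := (he y).1 hy
    intro h'
    rcases h hz with ⟨h0, _⟩ | ⟨_, hA⟩
    · exact PAExp.zero_ne_one' h0
    · exact hA (mem_jn1.1 h')
  · refine ⟨e, f, ?_, fun y hy => absurd hy (hf y), Or.inl ⟨rfl, fun z _ hz => (he _).2 ⟨z, hz, rfl⟩⟩⟩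
    intro y hy
    obtain ⟨z, hz, rfl⟩ := (he y).1 hy
    rcases h hz with ⟨_, hA⟩ | ⟨h0, _⟩
    · exact mem_jn1.2 hA
    · exact absurd h0.symm PAExp.zero_ne_one'

theorem negP_ex {L j : (MMt τ)} (hj : j = 0 ∨ j = 1) (h : ¬ decode L ⊆ sgn A j) :
    ∃ p q, decode p ⊆ jn G A ∧ decode q ⊆ (jn G A)ᶜ ∧ NegP L j p q := by
  rw [Set.not_subset] at h
  obtain ⟨z, hz, hzA⟩ := h
  obtain ⟨e, he⟩ := exists_one (2 * z + 1)
  obtain ⟨f, hf⟩ := exists_none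
  have hzL : z ≤ L := (mem_lt hz).le
  rcases hj with rfl | rfl
  · have hA : z ∈ A := by
      by_contra hA
      exact hzA (Or.inr ⟨rfl, hA⟩)
    refine ⟨e, f, ?_, fun y hy => absurd hy (hf y), Or.inr ⟨rfl, z, hzL, hz, (he _).2 rfl⟩⟩
    intro y hy
    rw [(he y).1 hy]
    exact mem_jn1.2 hA
  · have hA : z ∉ A := fun hA => hzA (Or.inl ⟨rfl, hA⟩)
    refine ⟨f, e, fun y hy => absurd hy (hf y), ?_, Or.inl ⟨rfl, z, hzL, hz, (he _).2 rfl⟩⟩
    intro y hy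
    rw [(he y).1 hy]
    exact fun h' => hA (mem_jn1.1 h')

end

theorem le_of_par {x L j : (MMt τ)} (h : x = 2 * L + j) : L ≤ x ∧ j ≤ x := by
  subst h
  refine ⟨?_, le_add_left' _ _⟩
  have : 2 * L + j = L + (L + j) := by ring
  rw [this]; exact le_add_right' _ _

variable {A G H : Set (MMt τ)}

theorem cC_iff (hH : ∀ t, t ∈ H ↔ ¬ (t ∈ G ↔ Fact A t)) {i x : (MMt τ)} (hi : i = 0 ∨ i = 1) :
    x ∈ sgn H i ↔ ∃ p q, decode p ⊆ jn G A ∧ decode q ⊆ (jn G A)ᶜ ∧ CC i x p q := by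
  constructor
  · intro hx
    obtain ⟨L, j, hxL, hj⟩ := par_ex x
    have hF : Fact A x ↔ decode L ⊆ sgn A j := by rw [hxL]; exact fact_iff hj
    have hx' := hH x
    by_cases hG : x ∈ G <;> by_cases hA : decode L ⊆ sgn A j
    · have hi0 : i = 0 := by
        rcases hx with ⟨_, h⟩ | ⟨h, _⟩
        · exact absurd (iff_of_true hG (hF.2 hA)) (hx'.1 h)
        · exact h
      obtain ⟨p, q, h1, h2, h3, h4⟩ := merge2 (J := jn G A) (C := fun p q => Mem (2 * x) p)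
        (D := PosP L j) (fun p q p' q' hp hq h => hp h) (posP_mono L j) (bit_pos hG) (posP_ex hj hA)
      exact ⟨p, q, h1, h2, L, (le_of_par hxL).1, j, (le_of_par hxL).2, hxL, hj,
        Or.inr ⟨hi0, Or.inl ⟨h3, h4⟩⟩⟩
    · have hi0 : i = 1 := by
        rcases hx with ⟨h, _⟩ | ⟨_, h⟩
        · exact h
        · exact absurd (hx'.2 fun e => hA (hF.1 (e.1 hG))) h
      obtain ⟨p, q, h1, h2, h3, h4⟩ := merge2 (J := jn G A) (C := fun p q => Mem (2 * x) p)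
        (D := NegP L j) (fun p q p' q' hp hq h => hp h) (negP_mono L j) (bit_pos hG) (negP_ex hj hA)
      exact ⟨p, q, h1, h2, L, (le_of_par hxL).1, j, (le_of_par hxL).2, hxL, hj,
        Or.inl ⟨hi0, Or.inl ⟨h3, h4⟩⟩⟩
    · have hi0 : i = 1 := by
        rcases hx with ⟨h, _⟩ | ⟨_, h⟩
        · exact h
        · exact absurd (hx'.2 fun e => hG (e.2 (hF.2 hA))) h
      obtain ⟨p, q, h1, h2, h3, h4⟩ := merge2 (J := jn G A) (C := fun p q => Mem (2 * x) q)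
        (D := PosP L j) (fun p q p' q' hp hq h => hq h) (posP_mono L j) (bit_neg hG) (posP_ex hj hA)
      exact ⟨p, q, h1, h2, L, (le_of_par hxL).1, j, (le_of_par hxL).2, hxL, hj,
        Or.inl ⟨hi0, Or.inr ⟨h3, h4⟩⟩⟩
    · have hi0 : i = 0 := by
        rcases hx with ⟨_, h⟩ | ⟨h, _⟩
        · exact absurd (iff_of_false hG (fun e => hA (hF.1 e))) (hx'.1 h)
        · exact h
      obtain ⟨p, q, h1, h2, h3, h4⟩ := merge2 (J := jn G A) (C := fun p q => Mem (2 * x) q)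
        (D := NegP L j) (fun p q p' q' hp hq h => hq h) (negP_mono L j) (bit_neg hG) (negP_ex hj hA)
      exact ⟨p, q, h1, h2, L, (le_of_par hxL).1, j, (le_of_par hxL).2, hxL, hj,
        Or.inr ⟨hi0, Or.inr ⟨h3, h4⟩⟩⟩
  · rintro ⟨p, q, h1, h2, L, _, j, _, hxL, hj, h⟩
    have hF : Fact A x ↔ decode L ⊆ sgn A j := by rw [hxL]; exact fact_iff hj
    have hp : Mem (2 * x) p → x ∈ G := fun h => mem_jn0.1 (h1 h)
    have hq : Mem (2 * x) q → x ∉ G := fun h h' => h2 h (mem_jn0.2 h')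
    rcases h with ⟨rfl, ⟨h, h'⟩ | ⟨h, h'⟩⟩ | ⟨rfl, ⟨h, h'⟩ | ⟨h, h'⟩⟩
    · exact Or.inl ⟨rfl, (hH x).2 fun e => negP_sound h1 h2 h' (hF.1 (e.1 (hp h)))⟩
    · exact Or.inl ⟨rfl, (hH x).2 fun e => hq h (e.2 (hF.2 (posP_sound h1 h2 h')))⟩
    · exact Or.inr ⟨rfl, fun e => (hH x).1 e (iff_of_true (hp h) (hF.2 (posP_sound h1 h2 h')))⟩
    · exact Or.inr ⟨rfl, fun e => (hH x).1 e
        (iff_of_false (hq h) fun e' => negP_sound h1 h2 h' (hF.1 e'))⟩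

theorem red1 (hH : ∀ t, t ∈ H ↔ ¬ (t ∈ G ↔ Fact A t)) (hB : BI H) : Red H (jn G A) := by
  refine ⟨fun v => ∀ x, x ≤ v 0 → (Mem x (v 0) → CC (v 1) x (v 2) (v 3)), ?_, ?_⟩
  · refine (Sig1.of_delta0 ?_).isSigma
    refine IsDelta0.all (IsTerm.var 0) ?_
    exact (IsDelta0.mem (IsTerm.var 0) (IsTerm.var 0).tail).imp
      (delta_CC (IsTerm.var 1).tail (IsTerm.var 0) (IsTerm.var 2).tail (IsTerm.var 3).tail)
  · intro K i hi
    constructor
    · intro hK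
      have hfin : (decode K).Finite := by
        apply hB
        rcases hi with rfl | rfl
        · right
          intro x hx
          rcases hK hx with ⟨h0, _⟩ | ⟨_, h⟩
          · exact absurd h0 PAExp.zero_ne_one'
          · exact h
        · left
          intro x hx
          rcases hK hx with ⟨_, h⟩ | ⟨h0, _⟩
          · exact h
          · exact absurd h0.symm PAExp.zero_ne_one'
      obtain ⟨p, q, h1, h2, h3⟩ := mergeS (J := jn G A) hfin.toFinset (C := CC i)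
        (cC_mono i) (fun x hx => (cC_iff hH hi).1 (hK (hfin.mem_toFinset.1 hx)))
      exact ⟨p, q, fun x _ hx => h3 x (hfin.mem_toFinset.2 hx), h1, h2⟩
    · rintro ⟨p, q, h, h1, h2⟩ x hx
      exact (cC_iff hH hi).2 ⟨p, q, h1, h2, h x (mem_lt hx).le hx⟩

theorem red2 (hH : ∀ t, t ∈ H ↔ ¬ (t ∈ G ↔ Fact A t)) : Red A (jn G H) := by
  refine ⟨fun v => (Mem (2 * (2 * v 0 + v 1)) (v 2) ∧ Mem (2 * (2 * v 0 + v 1) + 1) (v 3)) ∨
    (Mem (2 * (2 * v 0 + v 1)) (v 3) ∧ Mem (2 * (2 * v 0 + v 1) + 1) (v 2)), ?_, ?_⟩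
  · refine (Sig1.of_delta0 ?_).isSigma
    have t : IsTerm (fun v : Fin 4 → (MMt τ) => 2 * v 0 + v 1) := (IsTerm.var 0).twomul.add (IsTerm.var 1)
    exact ((IsDelta0.mem t.twomul (IsTerm.var 2)).and
      (IsDelta0.mem (t.twomul.addc 1) (IsTerm.var 3))).or
      ((IsDelta0.mem t.twomul (IsTerm.var 3)).and
      (IsDelta0.mem (t.twomul.addc 1) (IsTerm.var 2)))
  · intro K i hi
    rw [← fact_iff hi]
    generalize ht : 2 * K + i = t

    constructor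
    · intro hF
      obtain ⟨e, he⟩ := exists_one (2 * t)
      obtain ⟨f, hf⟩ := exists_one (2 * t + 1)
      by_cases hG : t ∈ G
      · have hH' : t ∉ H := fun h => (hH t).1 h (iff_of_true hG hF)
        refine ⟨e, f, Or.inl ⟨?_, ?_⟩, ?_, ?_⟩
        · change Mem (2 * (2 * K + i)) e
          rw [ht]; exact (he _).2 rfl
        · change Mem (2 * (2 * K + i) + 1) f
          rw [ht]; exact (hf _).2 rfl
        · intro y hy
          rw [(he y).1 hy]; exact mem_jn0.2 hG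
        · intro y hy
          rw [(hf y).1 hy]; exact fun h => hH' (mem_jn1.1 h)
      · have hH' : t ∈ H := (hH t).2 fun e => hG (e.2 hF)
        refine ⟨f, e, Or.inr ⟨?_, ?_⟩, ?_, ?_⟩
        · change Mem (2 * (2 * K + i)) e
          rw [ht]; exact (he _).2 rfl
        · change Mem (2 * (2 * K + i) + 1) f
          rw [ht]; exact (hf _).2 rfl
        · intro y hy
          rw [(hf y).1 hy]; exact mem_jn1.2 hH'
        · intro y hy
          rw [(he y).1 hy]; exact fun h => hG (mem_jn0.1 h)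
    · rintro ⟨p, q, h, h1, h2⟩
      change (Mem (2 * (2 * K + i)) p ∧ Mem (2 * (2 * K + i) + 1) q) ∨
        (Mem (2 * (2 * K + i)) q ∧ Mem (2 * (2 * K + i) + 1) p) at h
      rw [ht] at h
      rcases h with ⟨a, b⟩ | ⟨a, b⟩
      · have hG : t ∈ G := mem_jn0.1 (h1 a)
        have hH' : t ∉ H := fun h => h2 b (mem_jn1.2 h)
        by_contra hF
        exact hH' ((hH t).2 fun e => hF (e.1 hG))
      · have hG : t ∉ G := fun h => h2 a (mem_jn0.2 h)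
        have hH' : t ∈ H := mem_jn1.1 (h1 b)
        by_contra hF
        exact (hH t).1 hH' (iff_of_false hG hF)

/-- The module RedXor τ. -/
theorem redXor_proof : RedXor τ := fun _ _ _ hH => ⟨red1 hH, red2 hH⟩

end Pool.Agent.BSN.H7
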