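import Pool.Agent.Helper26_BSN.Int
import Pool.Agent.Helper37_BSig.Lib

/-!
# Basic facts about the model: `M`-finite sets, pairing, least elements, overspill
-/

namespace Pool.Agent.BSN

open Filter Pool.Agent.BSig

variable {τ : Tower}

theorem nat_mem_iff (x a : ℕ) :
    a.testBit x = true ↔ ∃ q r : ℕ, a = q * 2 ^ (x + 1) + 2 ^ x + r ∧ r < 2 ^ x := by
  constructor
  · intro h
    have h1 : a / 2 ^ x % 2 = 1 := by
      rw [Nat.testBit_eq_decide_div_mod_eq] at h; simpa using h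
    refine ⟨a / 2 ^ (x + 1), a % 2 ^ x, ?_, Nat.mod_lt _ (by positivity)⟩
    have h2 : a = 2 ^ x * (a / 2 ^ x) + a % 2 ^ x := (Nat.div_add_mod _ _).symm
    have h3 : a / 2 ^ x = 2 * (a / 2 ^ x / 2) + 1 := by omega
    have h4 : a / 2 ^ x / 2 = a / 2 ^ (x + 1) := by rw [Nat.div_div_eq_div_mul, pow_succ]
    rw [h4] at h3
    calc a = 2 ^ x * (a / 2 ^ x) + a % 2 ^ x := h2
      _ = 2 ^ x * (2 * (a / 2 ^ (x + 1)) + 1) + a % 2 ^ x := by rw [← h3]
      _ = _ := by ring
  · rintro ⟨q, r, rfl, hr⟩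
    rw [Nat.testBit_eq_decide_div_mod_eq]
    have : (q * 2 ^ (x + 1) + 2 ^ x + r) / 2 ^ x = 2 * q + 1 := by
      have e : q * 2 ^ (x + 1) + 2 ^ x + r = r + 2 ^ x * (2 * q + 1) := by ring
      rw [e, Nat.add_mul_div_left _ _ (by positivity), Nat.div_eq_of_lt hr]; omega
    rw [this]; simp

theorem pow2_mk {f : ℕ → ℕ} (hf : (Bddt τ) f) : pow2 (mk f hf) = mk (fun n => 2 ^ f n) (bdd_pow2 hf) :=
  pw_mk hf

theorem mem_mk {f g : ℕ → ℕ} {hf : (Bddt τ) f} {hg : (Bddt τ) g} :
    Mem (mk f hf) (mk g hg) ↔ ∀ᶠ n in (UU : Filter ℕ), (g n).testBit (f n) = true := by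
  constructor
  · rintro ⟨q, r, h1, h2⟩
    obtain ⟨q, hq, rfl⟩ := exists_mk q; obtain ⟨r, hr, rfl⟩ := exists_mk r
    rw [mk_one, mk_add, pow2_mk, pow2_mk, mk_mul, mk_add, mk_add, mk_eq] at h1
    rw [pow2_mk, mk_lt] at h2
    filter_upwards [h1, h2] with n h1 h2
    exact (nat_mem_iff _ _).2 ⟨_, _, h1, h2⟩
  · intro h
    classical
    let q : ℕ → ℕ := fun n => g n / 2 ^ (f n + 1)
    let r : ℕ → ℕ := fun n => g n % 2 ^ f n
    have hq : (Bddt τ) q := bdd_of_le hg (Eventually.of_forall fun n => Nat.div_le_self _ _)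
    have hr : (Bddt τ) r := bdd_of_le hg (Eventually.of_forall fun n => Nat.mod_le _ _)
    refine ⟨mk q hq, mk r hr, ?_, ?_⟩
    · rw [mk_one, mk_add, pow2_mk, pow2_mk, mk_mul, mk_add, mk_add, mk_eq]
      filter_upwards [h] with n hn
      obtain ⟨q', r', h1, h2⟩ := (nat_mem_iff _ _).1 hn
      have hr' : r n = r' := by
        simp only [r]; rw [h1]
        have e : q' * 2 ^ (f n + 1) + 2 ^ f n + r' = r' + 2 ^ f n * (2 * q' + 1) := by ring
        rw [e, Nat.add_mul_mod_self_left, Nat.mod_eq_of_lt h2]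
      have hq' : q n = q' := by
        simp only [q]; rw [h1]
        have e : q' * 2 ^ (f n + 1) + 2 ^ f n + r' = (2 ^ f n + r') + 2 ^ (f n + 1) * q' := by ring
        rw [e, Nat.add_mul_div_left _ _ (by positivity), Nat.div_eq_of_lt]
        · omega
        · rw [pow_succ]; omega
      rw [hq', hr']; exact h1
    · rw [pow2_mk, mk_lt]
      exact Eventually.of_forall fun n => Nat.mod_lt _ (by positivity)

theorem testBit_lt {x a : ℕ} (h : a.testBit x = true) : 2 ^ x ≤ a := Nat.ge_two_pow_of_testBit h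

theorem mem_pow2_le {x a : (MMt τ)} (h : Mem x a) : pow2 x ≤ a := by
  obtain ⟨f, hf, rfl⟩ := exists_mk x; obtain ⟨g, hg, rfl⟩ := exists_mk a
  rw [mem_mk] at h
  rw [pow2_mk, mk_le]
  filter_upwards [h] with n hn using testBit_lt hn

theorem lt_pow2 (x : (MMt τ)) : x < pow2 x := by
  obtain ⟨f, hf, rfl⟩ := exists_mk x
  rw [pow2_mk, mk_lt]
  exact Eventually.of_forall fun n => Nat.lt_two_pow_self

theorem mem_lt {x a : (MMt τ)} (h : Mem x a) : x < a := (lt_pow2 x).trans_le (mem_pow2_le h)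

theorem pow2_le_pow2 {x y : (MMt τ)} (h : x ≤ y) : pow2 x ≤ pow2 y := by
  obtain ⟨f, hf, rfl⟩ := exists_mk x; obtain ⟨g, hg, rfl⟩ := exists_mk y
  rw [mk_le] at h
  rw [pow2_mk, pow2_mk, mk_le]
  filter_upwards [h] with n hn using Nat.pow_le_pow_right (by norm_num) hn

theorem mem_ext {a b : (MMt τ)} (h : ∀ x, Mem x a ↔ Mem x b) : a = b := by
  obtain ⟨f, hf, rfl⟩ := exists_mk a; obtain ⟨g, hg, rfl⟩ := exists_mk b
  rw [mk_eq]
  by_contra hc
  rw [not_eventually'] at hc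
  classical
  let x : ℕ → ℕ := fun n => if h : ∃ x, (f n).testBit x ≠ (g n).testBit x then h.choose else 0
  have hx : ∀ᶠ n in (UU : Filter ℕ), (f n).testBit (x n) ≠ (g n).testBit (x n) := by
    filter_upwards [hc] with n hn
    have h' : ∃ x, (f n).testBit x ≠ (g n).testBit x := by
      by_contra hcc; push Not at hcc
      exact hn (Nat.eq_of_testBit_eq hcc)
    simp only [x, dif_pos h']; exact h'.choose_spec
  have hb : (Bddt τ) x := by
    refine bdd_of_le (bdd_add hf hg) ?_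
    filter_upwards [hx] with n hn
    rcases Bool.eq_false_or_eq_true ((f n).testBit (x n)) with h1 | h1
    · have := testBit_lt h1
      have := (Nat.lt_two_pow_self (n := x n)); omega
    · have h2 : (g n).testBit (x n) = true := by
        rcases Bool.eq_false_or_eq_true ((g n).testBit (x n)) with h2 | h2
        · exact h2
        · exact absurd (h1.trans h2.symm) hn
      have := testBit_lt h2
      have := (Nat.lt_two_pow_self (n := x n)); omega
  have := h (mk x hb)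
  rw [mem_mk, mem_mk] at this
  rcases em (∀ᶠ n in (UU : Filter ℕ), (f n).testBit (x n) = true) with h1 | h1
  · have h2 := this.1 h1
    obtain ⟨n, ⟨h3, h4⟩, h5⟩ := ((h1.and h2).and hx).exists
    exact h5 (h3.trans h4.symm)
  · have h2 : ¬ ∀ᶠ n in (UU : Filter ℕ), (g n).testBit (x n) = true := fun h => h1 (this.2 h)
    rw [not_eventually'] at h1 h2
    obtain ⟨n, ⟨h3, h4⟩, h5⟩ := ((h1.and h2).and hx).exists
    simp only [Bool.not_eq_true] at h3 h4
    exact h5 (h3.trans h4.symm)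

/-- natural code of a finite set given by a predicate below a bound -/
noncomputable def ncode (b : ℕ) (p : ℕ → Prop) : ℕ := by
  classical exact ∑ x ∈ (Finset.range b).filter p, 2 ^ x

theorem testBit_ncode (b : ℕ) (p : ℕ → Prop) (x : ℕ) :
    (ncode b p).testBit x = true ↔ x < b ∧ p x := by
  classical
  have key : ∀ s : Finset ℕ, ∀ x, (∑ y ∈ s, 2 ^ y).testBit x = true ↔ x ∈ s := by
    intro s x
    have h1 : Nat.testBit (∑ y ∈ s, 2 ^ y) x = true ↔ x ∈ (∑ y ∈ s, 2 ^ y).bitIndices := by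
      rw [Nat.mem_bitIndices]
    have h2 : (∑ y ∈ s, 2 ^ y).bitIndices.toFinset = s := Finset.toFinset_bitIndices_sum_two_pow s
    constructor
    · intro h; rw [h1] at h; rw [← h2]; exact List.mem_toFinset.2 h
    · intro h; rw [h1]; rw [← h2] at h; exact List.mem_toFinset.1 h
  unfold ncode
  rw [key]; simp

theorem ncode_lt (b : ℕ) (p : ℕ → Prop) : ncode b p < 2 ^ b := by
  classical
  refine Nat.lt_pow_two_of_testBit _ fun i hi => ?_
  rw [← Bool.not_eq_true]
  intro h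
  rw [testBit_ncode] at h
  omega

/-- Unary internal predicates. -/
def Int1 (P : (MMt τ) → Prop) : Prop :=
  ∃ Pn : ℕ → ℕ → Prop, ∀ (f : ℕ → ℕ) (hf : (Bddt τ) f),
    P (mk f hf) ↔ ∀ᶠ n in (UU : Filter ℕ), Pn n (f n)

/-- Binary internal predicates. -/
def Int2 (P : (MMt τ) → (MMt τ) → Prop) : Prop :=
  ∃ Pn : ℕ → ℕ → ℕ → Prop, ∀ (f g : ℕ → ℕ) (hf : (Bddt τ) f) (hg : (Bddt τ) g),
    P (mk f hf) (mk g hg) ↔ ∀ᶠ n in (UU : Filter ℕ), Pn n (f n) (g n)

theorem Int1.of_delta0 {P : (MMt τ) → Prop} (h : IsDelta0 (fun v : Fin 1 → (MMt τ) => P (v 0))) :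
    Int1 P := by
  obtain ⟨Pn, hP⟩ := IntP.of_delta0 h
  exact ⟨fun n x => Pn n (fun _ => x), fun f hf => hP (fun _ => f) (fun _ => hf)⟩

theorem Int2.of_delta0 {P : (MMt τ) → (MMt τ) → Prop}
    (h : IsDelta0 (fun v : Fin 2 → (MMt τ) => P (v 0) (v 1))) : Int2 P := by
  obtain ⟨Pn, hP⟩ := IntP.of_delta0 h
  refine ⟨fun n x y => Pn n ![x, y], fun f g hf hg => ?_⟩
  have := hP ![f, g] (fun i => by
    fin_cases i
    · exact hf
    · exact hg)
  refine Iff.trans this (eventually_congr (Eventually.of_forall fun n => ?_))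
  have : (fun i => (![f, g] : Fin 2 → ℕ → ℕ) i n) = ![f n, g n] := by
    funext i; fin_cases i <;> rfl
  rw [this]

theorem Int1.not {P : (MMt τ) → Prop} (h : Int1 P) : Int1 (fun x => ¬ P x) := by
  obtain ⟨Pn, hP⟩ := h
  exact ⟨fun n x => ¬ Pn n x, fun f hf => by beta_reduce; rw [hP, not_eventually']⟩

theorem Int1.and {P Q : (MMt τ) → Prop} (h : Int1 P) (h' : Int1 Q) : Int1 (fun x => P x ∧ Q x) := by
  obtain ⟨Pn, hP⟩ := h; obtain ⟨Qn, hQ⟩ := h'
  exact ⟨fun n x => Pn n x ∧ Qn n x, fun f hf => by beta_reduce; rw [hP, hQ, eventually_and]⟩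

theorem Int1.le (b : (MMt τ)) : Int1 (fun x => x ≤ b) :=
  Int1.of_delta0 (IsDelta0.le (IsTerm.var 0) (IsTerm.param b))

/-- Least number principle for internal predicates. -/
theorem Int1.least {P : (MMt τ) → Prop} (h : Int1 P) (hne : ∃ x, P x) :
    ∃ x, P x ∧ ∀ y, P y → x ≤ y := by
  obtain ⟨Pn, hP⟩ := h
  obtain ⟨x, hx⟩ := hne
  obtain ⟨f, hf, rfl⟩ := exists_mk x
  rw [hP] at hx
  classical
  let g : ℕ → ℕ := fun n => if h : ∃ x, Pn n x then Nat.find h else 0
  have hg1 : ∀ᶠ n in (UU : Filter ℕ), Pn n (g n) ∧ ∀ y, Pn n y → g n ≤ y := by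
    filter_upwards [hx] with n hn
    have h' : ∃ x, Pn n x := ⟨_, hn⟩
    simp only [g, dif_pos h']
    exact ⟨Nat.find_spec h', fun y hy => Nat.find_min' h' hy⟩
  have hgb : (Bddt τ) g := bdd_of_le hf (by
    filter_upwards [hx, hg1] with n h1 h2 using h2.2 _ h1)
  refine ⟨mk g hgb, (hP g hgb).2 (hg1.mono fun n h => h.1), fun y hy => ?_⟩
  obtain ⟨e, he, rfl⟩ := exists_mk y
  rw [hP] at hy
  rw [mk_le]
  filter_upwards [hy, hg1] with n h1 h2 using h2.2 _ h1

/-- Comprehension: internal predicates below a bound are coded. -/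
theorem Int1.code {P : (MMt τ) → Prop} (h : Int1 P) (b : (MMt τ)) :
    ∃ e : (MMt τ), e < pow2 b ∧ ∀ x, Mem x e ↔ x < b ∧ P x := by
  obtain ⟨Pn, hP⟩ := h
  obtain ⟨f, hf, rfl⟩ := exists_mk b
  let g : ℕ → ℕ := fun n => ncode (f n) (Pn n)
  have hg : (Bddt τ) g := bdd_of_le (bdd_pow2 hf) (Eventually.of_forall fun n => (ncode_lt _ _).le)
  refine ⟨mk g hg, ?_, fun x => ?_⟩
  · rw [pow2_mk, mk_lt]; exact Eventually.of_forall fun n => ncode_lt _ _
  · obtain ⟨e, he, rfl⟩ := exists_mk x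
    rw [mem_mk, mk_lt, hP, ← eventually_and]
    exact eventually_congr (Eventually.of_forall fun n => testBit_ncode _ _ _)

theorem natCast_mk (m : ℕ) : (m : (MMt τ)) = mk (fun _ => m) (bdd_const m) := by
  induction m with
  | zero => rw [Nat.cast_zero, mk_zero]
  | succ m ih => rw [Nat.cast_succ, ih, mk_one, mk_add]

/-- `x` is infinite. -/
def Infl (x : (MMt τ)) : Prop := ∀ n : ℕ, (n : (MMt τ)) < x

theorem lt_natCast_iff {x : (MMt τ)} {m : ℕ} : x < (m : (MMt τ)) ↔ ∃ k : ℕ, k < m ∧ x = k := by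
  constructor
  · intro h
    induction m with
    | zero => rw [Nat.cast_zero] at h; exact absurd h (not_lt.2 (PAExp.zero_le' x))
    | succ m ih =>
      rcases lt_trichotomy x (m : (MMt τ)) with h1 | h1 | h1
      · obtain ⟨k, hk, e⟩ := ih h1; exact ⟨k, by omega, e⟩
      · exact ⟨m, by omega, h1⟩
      · exfalso
        rw [Nat.cast_succ] at h
        exact absurd h (not_lt.2 ((PAExp.discrete _ _).1 h1))
  · rintro ⟨k, hk, rfl⟩
    rw [natCast_mk, natCast_mk, mk_lt]
    exact Eventually.of_forall fun _ => hk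

theorem not_infl_iff {x : (MMt τ)} : ¬ Infl x ↔ ∃ k : ℕ, x = k := by
  constructor
  · intro h
    unfold Infl at h; push Not at h
    obtain ⟨n, hn⟩ := h
    have : x < ((n + 1 : ℕ) : (MMt τ)) := by
      rw [Nat.cast_succ]
      exact lt_of_le_of_lt hn ((PAExp.discrete _ _).2 le_rfl)
    obtain ⟨k, _, e⟩ := lt_natCast_iff.1 this
    exact ⟨k, e⟩
  · rintro ⟨k, rfl⟩ h
    exact lt_irrefl _ (h k)

theorem natCast_le {m n : ℕ} : (m : (MMt τ)) ≤ n ↔ m ≤ n := by
  rw [natCast_mk, natCast_mk, mk_le]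
  constructor
  · intro h; obtain ⟨_, h⟩ := h.exists; exact h
  · intro h; exact Eventually.of_forall fun _ => h

theorem natCast_lt {m n : ℕ} : (m : (MMt τ)) < n ↔ m < n := by
  rw [natCast_mk, natCast_mk, mk_lt]
  constructor
  · intro h; obtain ⟨_, h⟩ := h.exists; exact h
  · intro h; exact Eventually.of_forall fun _ => h

theorem natCast_inj {m n : ℕ} : (m : (MMt τ)) = n ↔ m = n := by
  rw [natCast_mk, natCast_mk, mk_eq]
  constructor
  · intro h; obtain ⟨_, h⟩ := h.exists; exact h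
  · intro h; exact Eventually.of_forall fun _ => h

/-- Overspill. -/
theorem Int1.overspill {P : (MMt τ) → Prop} (h : Int1 P) (hP : ∀ n : ℕ, P (n : (MMt τ))) :
    ∃ y, Infl y ∧ ∀ x ≤ y, P x := by
  by_cases hc : ∃ x, ¬ P x
  · obtain ⟨x, hx, hmin⟩ := h.not.least hc
    have hi : Infl x := by
      intro n
      by_contra hn
      rw [not_lt] at hn
      have : ¬ Infl x := fun hh => absurd (hh n) (not_lt.2 hn)
      obtain ⟨k, rfl⟩ := not_infl_iff.1 this
      exact hx (hP k)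
    obtain ⟨z, hz⟩ := PAExp.exists_add 1 x ((by
      have := hi 1; rw [Nat.cast_one] at this; exact this.le))
    refine ⟨z, fun n => ?_, fun y hy => ?_⟩
    · by_contra hn
      rw [not_lt] at hn
      have h2 := hi (n + 1)
      rw [← hz, Nat.cast_succ] at h2
      have := PAExp.add_le_add' _ _ 1 hn
      rw [add_comm 1 z] at h2
      exact absurd h2 (not_lt.2 this)
    · by_contra hy2
      have h3 := hmin y hy2
      have h4 : z < x := by rw [← hz, add_comm]; exact (PAExp.discrete _ _).2 le_rfl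
      exact absurd (h4.trans_le h3) (not_lt.2 hy)
  · push Not at hc
    have hb : (Bddt τ) (fun n => n) := ⟨0, Eventually.of_forall fun n => by
      change n < τ.tow 0 n
      rw [τ.tow_zero]; omega⟩
    refine ⟨mk (fun n => n) hb, fun n => ?_, fun x _ => hc x⟩
    rw [natCast_mk, mk_lt]
    filter_upwards [eventually_ge (n + 1)] with m hm
    omega

/-- The tower elements. -/
noncomputable def aat (τ : Tower) (k : ℕ) : MMt τ := mk (τ.tow k) (bdd_tow k)

theorem pow2_aa_le (k : ℕ) : pow2 ((aat τ) k) ≤ (aat τ) (k + 1) := by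
  rw [aat, aat, pow2_mk, mk_le]
  exact Eventually.of_forall fun n => τ.pow_le k n

theorem aa_lt_succ (k : ℕ) : (aat τ) k < (aat τ) (k + 1) :=
  lt_of_lt_of_le (lt_pow2 _) (pow2_aa_le k)

theorem aa_mono {k l : ℕ} (h : k ≤ l) : (aat τ) k ≤ (aat τ) l := by
  rw [aat, aat, mk_le]; exact Eventually.of_forall fun n => tow_mono τ h n

theorem exists_lt_aa (x : (MMt τ)) : ∃ k, x < (aat τ) k := by
  obtain ⟨f, ⟨k, hk⟩, rfl⟩ := exists_mk x
  exact ⟨k, mk_lt.2 hk⟩

theorem exists_le_aa (x : (MMt τ)) : ∃ k, ∀ l, k ≤ l → x ≤ (aat τ) l := by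
  obtain ⟨k, hk⟩ := exists_lt_aa x
  exact ⟨k, fun l hl => hk.le.trans (aa_mono hl)⟩

theorem infl_aa (k : ℕ) : Infl ((aat τ) k) := by
  intro n
  rw [natCast_mk, aat, mk_lt]
  filter_upwards [eventually_ge (n + 1)] with m hm
  exact lt_of_lt_of_le (by rw [τ.tow_zero]; omega) (tow_mono τ (Nat.zero_le k) m)

theorem le_add_left' (x y : (MMt τ)) : x ≤ y + x := by
  have := PAExp.add_le_add' 0 y x (PAExp.zero_le' y); rwa [zero_add] at this

theorem le_add_right' (x y : (MMt τ)) : x ≤ x + y := by rw [add_comm]; exact le_add_left' x y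

/-- The pairing function. -/
noncomputable def pr (x y : (MMt τ)) : (MMt τ) := (x + y) * (x + y) + x

theorem pr_mk {f g : ℕ → ℕ} (hf : (Bddt τ) f) (hg : (Bddt τ) g) :
    pr (mk f hf) (mk g hg) = mk (fun n => (f n + g n) * (f n + g n) + f n)
      (bdd_add (bdd_mul (bdd_add hf hg) (bdd_add hf hg)) hf) := by
  rw [pr, mk_add, mk_mul, mk_add]

theorem nat_pr_inj {a b c d : ℕ} (h : (a + b) * (a + b) + a = (c + d) * (c + d) + c) :
    a = c ∧ b = d := by
  have h1 : a + b = c + d := by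
    by_contra hne
    rcases Nat.lt_or_gt_of_ne hne with h2 | h2
    · have : (a + b + 1) * (a + b + 1) ≤ (c + d) * (c + d) := Nat.mul_le_mul h2 h2
      nlinarith
    · have : (c + d + 1) * (c + d + 1) ≤ (a + b) * (a + b) := Nat.mul_le_mul h2 h2
      nlinarith
  rw [h1] at h
  omega

theorem pr_inj {a b c d : (MMt τ)} : pr a b = pr c d ↔ a = c ∧ b = d := by
  constructor
  · intro h
    obtain ⟨a, ha, rfl⟩ := exists_mk a; obtain ⟨b, hb, rfl⟩ := exists_mk b
    obtain ⟨c, hc, rfl⟩ := exists_mk c; obtain ⟨d, hd, rfl⟩ := exists_mk d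
    rw [pr_mk, pr_mk, mk_eq] at h
    rw [mk_eq, mk_eq, ← eventually_and]
    exact h.mono fun n hn => nat_pr_inj hn
  · rintro ⟨rfl, rfl⟩; rfl

theorem le_pr_left (x y : (MMt τ)) : x ≤ pr x y := le_add_left' _ _

theorem le_pr_right (x y : (MMt τ)) : y ≤ pr x y := by
  obtain ⟨a, ha, rfl⟩ := exists_mk x; obtain ⟨b, hb, rfl⟩ := exists_mk y
  rw [pr_mk, mk_le]
  refine Eventually.of_forall fun n => ?_
  rcases Nat.eq_zero_or_pos (b n) with h | h
  · omega
  · nlinarith [Nat.zero_le (a n)]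

/-- Finite sets are coded. -/
theorem exists_code_finset (s : Finset (MMt τ)) : ∃ e : (MMt τ), ∀ x, Mem x e ↔ x ∈ s := by
  classical
  obtain ⟨b, hb⟩ := s.finite_toSet.bddAbove
  have h : Int1 (fun x => x ∈ s) := by
    refine ⟨fun n x => ∃ y ∈ s, x = rep y n, fun f hf => ?_⟩
    constructor
    · intro h
      filter_upwards [rep_mk f hf] with n hn
      exact ⟨_, h, hn.symm⟩
    · intro h
      have h2 : ∀ᶠ n in (UU : Filter ℕ), ∃ y ∈ s, f n = rep y n := h
      have h3 : ∃ y ∈ s, ∀ᶠ n in (UU : Filter ℕ), f n = rep y n := by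
        by_contra hc
        push Not at hc
        have h4 : ∀ᶠ n in (UU : Filter ℕ), ∀ y ∈ s, ¬ f n = rep y n := by
          rw [Filter.eventually_all_finset]
          intro y hy
          exact hc y hy
        obtain ⟨n, ⟨y, hy, h5⟩, h6⟩ := (h2.and h4).exists
        exact h6 y hy h5
      obtain ⟨y, hy, h4⟩ := h3
      have : mk f hf = y := by rw [← mk_rep y, mk_eq]; exact h4
      rw [this]; exact hy
  obtain ⟨e, _, he⟩ := h.code (b + 1)
  refine ⟨e, fun x => ?_⟩
  rw [he]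
  constructor
  · exact fun h => h.2
  · intro hx
    exact ⟨(PAExp.discrete _ _).2 (PAExp.add_le_add' _ _ 1 (hb hx)), hx⟩

end Pool.Agent.BSN
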