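import Pool.Agent.Helper26_BSN.Form2
import Pool.Agent.Helper37_BSig.Stmts

/-!
# Statements of the modules, part 1: the cone and the whole order (for an arbitrary tower `τ`)
-/

namespace Pool.Agent.BSN

open Filter Cardinal Pool.Agent.BSig

section Defs

variable {τ : Tower}

/-- The number of the literal `(x, b)`. -/
noncomputable def lit (p : (MMt τ) × Bool) : (MMt τ) := 2 * p.1 + (if p.2 then 1 else 0)

/-- The set of literals coded by `F`. -/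
def LS (F : (MMt τ)) : Set ((MMt τ) × Bool) := {p | Mem (lit p) F}

/-- `F` codes the finite set `S` of literals. -/
def Rep (F : (MMt τ)) (S : Finset ((MMt τ) × Bool)) : Prop := (S : Set ((MMt τ) × Bool)) = LS F

/-- Derivations of `t` with parameter `k`, as finite sets of literals (the bound `α` is not
restricted). -/
def Fam (φ : (Fin 5 → (MMt τ)) → Prop) (k : ℕ) (t : (MMt τ)) : Set (Finset ((MMt τ) × Bool)) :=
  {S | S.card ≤ k ∧ Consis (S : Set ((MMt τ) × Bool)) ∧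
    ∃ F, Rep F S ∧ ∀ m : ℕ, ∃ α, Der φ α k m F t}

/-- Forcing: no finite consistent set of literals containing `R` kills the derivations of `t` with
parameter `k`. -/
def Forces (φ : (Fin 5 → (MMt τ)) → Prop) (k : ℕ) (R : Finset ((MMt τ) × Bool)) (t : (MMt τ)) : Prop :=
  ∀ s : Finset ((MMt τ) × Bool), Consis (s : Set ((MMt τ) × Bool)) → R ⊆ s →
    ∃ F ∈ Fam φ k t, ¬ Conf (F : Set ((MMt τ) × Bool)) s

/-- Contradictory facts. -/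
def Contra (t t' : (MMt τ)) : Prop := ∃ K, K ≤ t ∧ ∃ K', K' ≤ t' ∧
  (((t = 2 * K ∧ t' = 2 * K' + 1) ∨ (t = 2 * K + 1 ∧ t' = 2 * K')) ∧
    ∃ z, z ≤ K ∧ (Mem z K ∧ Mem z K'))

/-- Unions of pairs of sets forcing contradictory facts. -/
def QFam (φ : (Fin 5 → (MMt τ)) → Prop) (k : ℕ) : Set (Finset ((MMt τ) × Bool)) :=
  {q | ∃ (R R' : Finset ((MMt τ) × Bool)) (t t' : (MMt τ)), R.card ≤ k ∧ R'.card ≤ k ∧
    Consis (R : Set ((MMt τ) × Bool)) ∧ Consis (R' : Set ((MMt τ) × Bool)) ∧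
    Forces φ k R t ∧ Forces φ k R' t' ∧ Contra t t' ∧
    (q : Set ((MMt τ) × Bool)) = (R : Set ((MMt τ) × Bool)) ∪ (R' : Set ((MMt τ) × Bool))}

/-- The sets `{t : ∃ n standard, ∃ y infinite, Ψ(n, y, t)}`, `Ψ` being `Σ₁`. -/
def InW (T : Set (MMt τ)) : Prop :=
  ∃ Ψ : (Fin 3 → (MMt τ)) → Prop, IsSigma 1 Ψ ∧
    ∀ t, t ∈ T ↔ ∃ (n : ℕ) (y : (MMt τ)), Infl y ∧ Ψ ![(n : (MMt τ)), y, t]

/-- `A` is reducible to `B ⊕ ω` through the matrix `φ`. -/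
def RedVia (φ : (Fin 5 → (MMt τ)) → Prop) (A B : Set (MMt τ)) : Prop :=
  IsDelta0 φ ∧ ∀ K i : (MMt τ), (i = 0 ∨ i = 1) → (decode K ⊆ sgn A i ↔
    ∃ p q : (MMt τ), (∃ w, φ ![w, K, i, p, q]) ∧ decode p ⊆ jn B (omega (MMt τ)) ∧
      decode q ⊆ (jn B (omega (MMt τ)))ᶜ)

/-- All `M`-finite subsets of `G` and of its complement are finite. -/
def BI (G : Set (MMt τ)) : Prop := ∀ K : (MMt τ), (decode K ⊆ G ∨ decode K ⊆ Gᶜ) → (decode K).Finite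

/-- The set coding the cofinal sequence `(aat τ)`. -/
def LL (τ : Tower) : Set (MMt τ) := {x | ∃ l : ℕ, x = pr (l : MMt τ) (aat τ l)}

/-- `u = r ∪ r'` as coded sets. -/
def Uni (u r r' : (MMt τ)) : Prop := ∀ x, x ≤ u + r + r' → (Mem x u ↔ Mem x r ∨ Mem x r')

end Defs

variable (τ : Tower)

/-- SC: strong `Σ₁` bounding. -/
def SCStmt : Prop := ∀ R : (Fin 2 → (MMt τ)) → Prop, IsDelta0 R → ∀ b : (MMt τ), ∃ β : (MMt τ), ∀ x, x ≤ b →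
  (∃ y, R ![x, y]) → ∃ y, y ≤ β ∧ R ![x, y]

/-- REP: basic facts about codes. -/
def RepBasics : Prop :=
  (∀ u : (MMt τ), ∃ p, u = lit p) ∧ (∀ p q : (MMt τ) × Bool, lit p = lit q → p = q) ∧
  (∀ S : Finset ((MMt τ) × Bool), ∃ F, Rep F S) ∧
  (∀ (F F' : (MMt τ)) S, Rep F S → Rep F' S → F = F') ∧
  (∀ F s : (MMt τ), Cfl F s ↔ Conf (LS F) (LS s)) ∧
  (∀ (F : (MMt τ)) (l : ℕ), Crd F l ↔ ∃ S, Rep F S ∧ S.card ≤ l) ∧
  (∀ (F l l' : (MMt τ)), l ≤ l' → Crd F l → Crd F l')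

/-- CARD: cardinality facts. -/
def CardStmt : Prop := #(MMt τ) = continuum ∧ ∀ ν : (MMt τ), Infl ν → #{x : (MMt τ) | x < ν} = continuum

/-- CODE: coding of sequences. -/
def CodeStmt : Prop :=
  (∀ X : Set ℕ, ∃ F : (MMt τ), ∀ m : ℕ, Mem (m : (MMt τ)) F ↔ m ∈ X) ∧
  (∀ d : ℕ → ℕ, ∃ E : (MMt τ), ∀ (i : ℕ) (z : (MMt τ)), Mem (pr (i : (MMt τ)) z) E ↔ z = d i) ∧
  ∀ (x : ℕ → (MMt τ)) (b : (MMt τ)), (∀ i, x i ≤ b) →
    ∃ E : (MMt τ), ∀ (i : ℕ) (z : (MMt τ)), Mem (pr (i : (MMt τ)) z) E ↔ z = x i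

/-- INF: countably many infinite elements have an infinite lower bound. -/
def InfStmt : Prop := ∀ y : ℕ → (MMt τ), (∀ i, Infl (y i)) → ∃ z, Infl z ∧ ∀ i, z ≤ y i

/-- OM: the standard part is a cut which is not computable. -/
def OmegaStmt : Prop := IsCut (omega (MMt τ)) ∧ ¬ Red (omega (MMt τ)) ∅

/-- RED: basic properties of strong reducibility in the model. -/
def RedBasics : Prop :=
  (∀ A : Set (MMt τ), Red A A) ∧ (∀ A B C : Set (MMt τ), Red A B → Red B C → Red A C) ∧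
  (∀ A B : Set (MMt τ), Red A (jn A B)) ∧ (∀ A B : Set (MMt τ), Red B (jn A B)) ∧
  ∀ A B C : Set (MMt τ), Red A C → Red B C → Red (jn A B) C

/-- MONO: monotonicity of derivations and of `Frc`. -/
def MonoStmt : Prop :=
  ∀ φ : (Fin 5 → (MMt τ)) → Prop, IsDelta0 φ →
    (∀ α α' k k' y y' F t : (MMt τ), α ≤ α' → k ≤ k' → y' ≤ y → Der φ α k y F t →
      Der φ α' k' y' F t) ∧
    (∀ α α' k k' m m' r t : (MMt τ), α ≤ α' → k ≤ k' → m' ≤ m → Frc φ α k m r t →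
      Frc φ α' k' m' r t)

/-- FS1: freshness of families given by a condition of the form: for all standard `m` there is
`α`. -/
def FreshS1 : Prop :=
  ∀ R : (Fin 3 → (MMt τ)) → Prop, IsDelta0 R →
    (∀ m m' α α' F : (MMt τ), m' ≤ m → α ≤ α' → R ![m, α, F] → R ![m', α', F]) →
    ∀ l : ℕ, FreshFam {S : Finset ((MMt τ) × Bool) | S.card ≤ l ∧ ∃ F, Rep F S ∧
      ∀ m : ℕ, ∃ α, R ![(m : (MMt τ)), α, F]}

/-- SCI: for a `Σ₁` condition with precision: all standard precisions iff some infinite one. -/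
def SciStmt : Prop :=
  ∀ R : (Fin 2 → (MMt τ)) → Prop, IsDelta0 R →
    (∀ m m' α α' : (MMt τ), m' ≤ m → α ≤ α' → R ![m, α] → R ![m', α']) →
    ((∀ m : ℕ, ∃ α, R ![(m : (MMt τ)), α]) ↔ ∃ y α, Infl y ∧ R ![y, α])

/-- FRC: forcing and `Frc`. -/
def FrcStmt : Prop :=
  ∀ φ : (Fin 5 → (MMt τ)) → Prop, IsDelta0 φ → ∀ (k : ℕ) (R : Finset ((MMt τ) × Bool)) (r t : (MMt τ)),
    Rep r R → ((∀ m : ℕ, ∃ α, Frc φ α k m r t) ↔ Forces φ k R t)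

/-- FF: freshness of the families of derivations. -/
def FamFresh : Prop :=
  ∀ φ : (Fin 5 → (MMt τ)) → Prop, IsDelta0 φ → ∀ (k : ℕ) (t : (MMt τ)), FreshFam (Fam φ k t)

/-- QF: freshness of the families of contradictory pairs. -/
def QFresh : Prop :=
  ∀ φ : (Fin 5 → (MMt τ)) → Prop, IsDelta0 φ → ∀ k : ℕ, FreshFam (QFam φ k)

/-- The hypotheses satisfied by unbeatable conditions `c` for the target `A`. -/
def Unb (φ : (Fin 5 → (MMt τ)) → Prop) (A : Set (MMt τ)) (c : Set ((MMt τ) × Bool)) : Prop :=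
  Consis c ∧ #c < continuum ∧
  (∀ k t, ∀ F ∈ Fam φ k t, ¬ Conf (F : Set ((MMt τ) × Bool)) c → Fact A t) ∧
  (∀ t, Fact A t → ∃ k, ∀ s : Finset ((MMt τ) × Bool), Consis (s : Set ((MMt τ) × Bool)) →
      ¬ Conf (s : Set ((MMt τ) × Bool)) c → ∃ F ∈ Fam φ k t, ¬ Conf (F : Set ((MMt τ) × Bool)) s)

/-- SND: soundness of forcing by finite sets compatible with `c`. -/
def SoundStmt : Prop :=
  ∀ φ : (Fin 5 → (MMt τ)) → Prop, IsDelta0 φ → ∀ (A : Set (MMt τ)) (c : Set ((MMt τ) × Bool)), Unb τ φ A c →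
    (∀ (k : ℕ) (R : Finset ((MMt τ) × Bool)) (t : (MMt τ)), Consis (R : Set ((MMt τ) × Bool)) →
      ¬ Conf (R : Set ((MMt τ) × Bool)) c → Forces φ k R t → Fact A t) ∧
    (∀ t, Fact A t → ∃ (k : ℕ) (R : Finset ((MMt τ) × Bool)), (R : Set ((MMt τ) × Bool)) ⊆ c ∧
      Forces φ k R t) ∧
    ∀ k, ∀ q ∈ QFam φ k, Conf (q : Set ((MMt τ) × Bool)) c

/-- The contradictory pairs of precision `y` (a subfamily of `QFam φ k` for infinite `y`). -/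
def QY (φ : (Fin 5 → (MMt τ)) → Prop) (k : ℕ) (y : (MMt τ)) : Set (Finset ((MMt τ) × Bool)) :=
  {q | ∃ α r r' t t' u : (MMt τ), Crd r k ∧ Crd r' k ∧ ¬ Cfl r r ∧ ¬ Cfl r' r' ∧
    Frc φ α k y r t ∧ Frc φ α k y r' t' ∧ Contra t t' ∧ Uni u r r' ∧ Rep u q}

/-- QYS: comparison of `QFam` and `QY`. -/
def QYStmt : Prop :=
  ∀ φ : (Fin 5 → (MMt τ)) → Prop, IsDelta0 φ → ∀ (k : ℕ) (q : Finset ((MMt τ) × Bool)),
    q ∈ QFam φ k ↔ ∃ y, Infl y ∧ q ∈ QY τ φ k y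

/-- QB1: bounded killers, fixed precision. -/
def QBdd1 : Prop :=
  ∀ φ : (Fin 5 → (MMt τ)) → Prop, IsDelta0 φ → ∀ c : Set ((MMt τ) × Bool), Consis c → #c < continuum →
    (∀ k, ∀ q ∈ QFam φ k, Conf (q : Set ((MMt τ) × Bool)) c) → ∀ y : (MMt τ), Infl y →
    ∃ m : ℕ, ∀ k, ∀ q ∈ QY τ φ k y,
      Conf (q : Set ((MMt τ) × Bool)) {p | p ∈ c ∧ lit p ≤ (aat τ) m}

/-- QB: bounded killers. -/
def QBdd : Prop :=
  ∀ φ : (Fin 5 → (MMt τ)) → Prop, IsDelta0 φ → ∀ c : Set ((MMt τ) × Bool), Consis c → #c < continuum →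
    (∀ k, ∀ q ∈ QFam φ k, Conf (q : Set ((MMt τ) × Bool)) c) →
    ∃ m : ℕ, ∀ k, ∀ q ∈ QFam φ k, Conf (q : Set ((MMt τ) × Bool)) {p | p ∈ c ∧ lit p ≤ (aat τ) m}

/-- UW: unbeatable conditions compute the target. -/
def UnbeatW : Prop :=
  ∀ φ : (Fin 5 → (MMt τ)) → Prop, IsDelta0 φ → ∀ (A : Set (MMt τ)) (c : Set ((MMt τ) × Bool)),
    Unb τ φ A c → InW {t | Fact A t}

/-- BEAT: every small condition can be extended so as to beat `φ`. -/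
def BeatStmt : Prop :=
  ∀ φ : (Fin 5 → (MMt τ)) → Prop, IsDelta0 φ → ∀ A : Set (MMt τ), ¬ InW {t | Fact A t} →
    ∀ c : Set ((MMt τ) × Bool), Consis c → #c < continuum →
    ∃ c' : Set ((MMt τ) × Bool), c ⊆ c' ∧ Consis c' ∧ (c' \ c).Countable ∧
      ∀ c'' : Set ((MMt τ) × Bool), c' ⊆ c'' → Consis c'' →
        {t | Fact A t} ≠ {t | ∃ k, ∃ F ∈ Fam φ k t, (F : Set ((MMt τ) × Bool)) ⊆ c''}

/-- DJ: derivations from `B ⊕ ω`. -/
def DerJoin : Prop :=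
  (∀ A B : Set (MMt τ), Red A (jn B (omega (MMt τ))) → ∃ φ, RedVia φ A B) ∧
  ∀ φ (A B : Set (MMt τ)), RedVia φ A B → ∀ t, Fact A t ↔
    ∃ (l : ℕ) (y F : (MMt τ)), Infl y ∧ Tr B F ∧ F ≤ (aat τ) l ∧ Der φ ((aat τ) l) l y F t

/-- DBI: derivations from `G ⊕ ω` for bi-immune `G`. -/
def DerBI : Prop :=
  ∀ φ (A G : Set (MMt τ)), RedVia φ A G → BI G →
    {t | Fact A t} = {t | ∃ k, ∃ F ∈ Fam φ k t, (F : Set ((MMt τ) × Bool)) ⊆ gr G}

/-- SG: the sigma lemma. -/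
def SigmaLemma : Prop :=
  ∀ X : Set (MMt τ), ¬ Red (omega (MMt τ)) X → ∀ S : (MMt τ),
    (∀ n : ℕ, ∀ z, (Mem (pr (n : (MMt τ)) (2 * z + 1)) S → z ∈ X) ∧
      (Mem (pr (n : (MMt τ)) (2 * z)) S → z ∉ X)) →
    ∃ e, Infl e ∧ ∀ y ≤ e, ∀ z, (Mem (pr y (2 * z + 1)) S → z ∈ X) ∧
      (Mem (pr y (2 * z)) S → z ∉ X)

/-- THR: thresholds. -/
def ThrStmt : Prop :=
  ∀ φ (C B : Set (MMt τ)), RedVia φ C B → ¬ Red (omega (MMt τ)) B → ¬ Red (omega (MMt τ)) C → ∀ l : ℕ,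
    ∃ v : ℕ, ∀ F t : (MMt τ), F ≤ (aat τ) l → t ≤ (aat τ) l → Tr B F → Der φ ((aat τ) l) l v F t → Fact C t

/-- CL1: first clause of the sentence in the whole order. -/
def Claim1 : Prop :=
  ∀ B C : Set (MMt τ), Red C (jn B (omega (MMt τ))) → ¬ Red (omega (MMt τ)) B → ¬ Red (omega (MMt τ)) C →
    Red C (jn B (LL τ))

/-- UNB: if `ω ≤ Z` with bounded certificates then one of the halves of `Z` computes `ω`. -/
def UnbStmt : Prop :=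
  ∀ X Y : Set (MMt τ), ¬ Red (omega (MMt τ)) X → ¬ Red (omega (MMt τ)) Y →
    ∀ θ : (Fin 3 → (MMt τ)) → Prop, IsDelta0 θ →
      (∀ k : (MMt τ), ∀ w p q : (MMt τ), (θ ![w, k, pr p q] ∧ decode p ⊆ jn X Y ∧ decode q ⊆ (jn X Y)ᶜ) →
        k ∈ omega (MMt τ)) →
      ∀ m : ℕ, ∃ k : ℕ, ¬ ∃ w p q : (MMt τ), w ≤ (aat τ) m ∧ p ≤ (aat τ) m ∧ q ≤ (aat τ) m ∧
        θ ![w, (k : (MMt τ)), pr p q] ∧ decode p ⊆ jn X Y ∧ decode q ⊆ (jn X Y)ᶜ

/-- COI: a certificate for `ω ≤ B ⊕ L` gives a `Σ₁(B)` enumeration of the infinite numbers. -/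
def CoiStmt : Prop :=
  ∀ B : Set (MMt τ), Red (omega (MMt τ)) (jn B (LL τ)) → ∃ ψ : (Fin 3 → (MMt τ)) → Prop, IsDelta0 ψ ∧
    ∀ y : (MMt τ), Infl y ↔ ∃ y' w F : (MMt τ), y' ≤ y ∧ ψ ![w, y', F] ∧ Tr B F

/-- POS: the `Σ₁(B)` enumeration of `ω`. -/
def PosStmt : Prop :=
  ∀ B X Y : Set (MMt τ), Red (jn X Y) (jn B (omega (MMt τ))) → Red (omega (MMt τ)) (jn X Y) →
    ¬ Red (omega (MMt τ)) X → ¬ Red (omega (MMt τ)) Y → ∃ ψ : (Fin 3 → (MMt τ)) → Prop, IsDelta0 ψ ∧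
    ∀ y : (MMt τ), y ∈ omega (MMt τ) ↔ ∃ w F : (MMt τ), ψ ![w, y, F] ∧ Tr B F

/-- CL2: second clause of the sentence in the whole order. -/
def Claim2D : Prop :=
  ∀ B X Y : Set (MMt τ), Red X (jn B (omega (MMt τ))) → Red Y (jn B (omega (MMt τ))) →
    Red (omega (MMt τ)) (jn X Y) → Red (omega (MMt τ)) (jn B (LL τ)) →
    Red (omega (MMt τ)) X ∨ Red (omega (MMt τ)) Y ∨ Red (omega (MMt τ)) B

/-- FW: if the set of true facts of `A` is in `W` then `A ≤ ω`. -/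
def FactW : Prop := ∀ A : Set (MMt τ), InW {t | Fact A t} → Red A (omega (MMt τ))

/-- RX: the set `H = G xor T_A`. -/
def RedXor : Prop :=
  ∀ A G H : Set (MMt τ), (∀ t, t ∈ H ↔ ¬ (t ∈ G ↔ Fact A t)) →
    (BI H → Red H (jn G A)) ∧ Red A (jn G H)

/-- CD: there are at most continuum many `Δ₀` relations. -/
def CardDelta : Prop := #{φ : (Fin 5 → (MMt τ)) → Prop // IsDelta0 φ} ≤ continuum

/-- CO: Claim 2 (the cone). -/
def Claim2 : Prop :=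
  ∀ A : Set (MMt τ), ¬ Red A (omega (MMt τ)) → ∃ G H : Set (MMt τ),
    ¬ Red A (jn G (omega (MMt τ))) ∧ ¬ Red A (jn H (omega (MMt τ))) ∧ Red H (jn G A) ∧ Red A (jn G H)

/-- NEQ: the two orders are not elementarily equivalent. -/
def NeqStmt : Prop :=
  ¬ (FirstOrder.Language.ElementarilyEquivalent FirstOrder.Language.order (Deg (MMt τ))
    (DegGE (omega (MMt τ))))

end Pool.Agent.BSN
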